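import Mathlib
import Pool.Agent.H790R3.RB.TSP
import Pool.Agent.H790R3.RB.TMOB

/-! Sphere maps with holomorphic lifts, local injectivity, attracted points, Moebius maps. -/

set_option autoImplicit false

open Topology Filter Metric Set
open scoped OnePoint
open Pool.Agent.H790R3.RB (CV hF cr ND sp pr hc)
open Pool.Agent.H790R3.RB.SP (pr_zero pr_ne pr_hc sp_pr sp_cont pr_eq_iff continuousAt_pr)
open Pool.Agent.H790R3.RB.MOB (cf hF_cf nd_cf)

namespace Pool.Agent.R239.Fat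

/-- the Riemann sphere -/
abbrev Sph : Type := OnePoint ℂ

/-- `g` is injective near `x` -/
def LocInj (g : Sph → Sph) (x : Sph) : Prop := ∃ U ∈ 𝓝 x, Set.InjOn g U

/-- the orbit of `c` converges to an attracting cycle of `g` -/
def Att (g : Sph → Sph) (c : Sph) : Prop :=
  ∃ z : Sph, ∃ n : ℕ, 0 < n ∧ g^[n] z = z ∧
    (∃ U ∈ 𝓝 z, ∀ w ∈ U, Tendsto (fun k : ℕ => g^[n * k] w) atTop (𝓝 z)) ∧
    Tendsto (fun k : ℕ => g^[n * k] c) atTop (𝓝 z)

/-- all critical points are attracted -/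
def Hyp (g : Sph → Sph) : Prop := ∀ c, ¬ LocInj g c → Att g c

/-- `G` is a holomorphic lift of `g` -/
structure Lift (g : Sph → Sph) (G : ℂ × ℂ → ℂ × ℂ) : Prop where
  cd : ContDiff ℂ 1 G
  ne : ∀ p, p ≠ 0 → G p ≠ 0
  eq : ∀ p, p ≠ 0 → g (pr p) = pr (G p)

/-- holomorphic sphere maps with finitely many critical values -/
structure Hol (g : Sph → Sph) : Prop where
  cont : Continuous g
  lift : ∃ G, Lift g G
  fcv : ∃ E : Finset Sph, ∀ x, ¬ LocInj g x → g x ∈ E

theorem locInj_comp {g h : Sph → Sph} {x : Sph} (hc : Continuous g) (h1 : LocInj g x)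
    (h2 : LocInj h (g x)) : LocInj (h ∘ g) x := by
  obtain ⟨U, hU, hU'⟩ := h1
  obtain ⟨V, hV, hV'⟩ := h2
  refine ⟨U ∩ g ⁻¹' V, inter_mem hU (hc.continuousAt.preimage_mem_nhds hV), ?_⟩
  intro a ha b hb hab
  exact hU' ha.1 hb.1 (hV' ha.2 hb.2 hab)

theorem locInj_of_injective {g : Sph → Sph} (h : Function.Injective g) (x : Sph) : LocInj g x :=
  ⟨univ, univ_mem, h.injOn⟩

theorem Hol.id : Hol (id : Sph → Sph) :=
  ⟨continuous_id, ⟨_root_.id, contDiff_id, fun _ h => h, fun _ _ => rfl⟩,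
    ⟨∅, fun x h => absurd (locInj_of_injective Function.injective_id x) h⟩⟩

theorem Lift.comp {g h : Sph → Sph} {G H : ℂ × ℂ → ℂ × ℂ} (hg : Lift g G) (hh : Lift h H) :
    Lift (h ∘ g) (H ∘ G) := by
  refine ⟨hh.cd.comp hg.cd, fun p hp => hh.ne _ (hg.ne p hp), fun p hp => ?_⟩
  show h (g (pr p)) = pr (H (G p))
  rw [hg.eq p hp, hh.eq _ (hg.ne p hp)]

theorem Hol.comp {g h : Sph → Sph} (hg : Hol g) (hh : Hol h) : Hol (h ∘ g) := by
  classical
  obtain ⟨G, hG⟩ := hg.lift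
  obtain ⟨H, hH⟩ := hh.lift
  obtain ⟨E, hE⟩ := hg.fcv
  obtain ⟨E', hE'⟩ := hh.fcv
  refine ⟨hh.cont.comp hg.cont, ⟨_, hG.comp hH⟩, ⟨E.image h ∪ E', fun x hx => ?_⟩⟩
  by_cases h1 : LocInj g x
  · have h2 : ¬ LocInj h (g x) := fun h2 => hx (locInj_comp hg.cont h1 h2)
    exact Finset.mem_union_right _ (hE' _ h2)
  · exact Finset.mem_union_left _ (Finset.mem_image_of_mem h (hE _ h1))

theorem iter_cont {g : Sph → Sph} (hg : Continuous g) (n : ℕ) : Continuous g^[n] := hg.iterate n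

theorem att_of_iter {g : Sph → Sph} (hg : Continuous g) {c : Sph} {m : ℕ}
    (h : Att g (g^[m] c)) : Att g c := by
  obtain ⟨z, n, hn, hz, ⟨U, hU, hU'⟩, ht⟩ := h
  have hz' : ∀ k, g^[n * k] z = z := by
    intro k
    rw [Function.iterate_mul]
    exact Function.iterate_fixed hz k
  obtain ⟨r, hr⟩ : ∃ r, m + r = n * m := ⟨n * m - m, by
    have : m ≤ n * m := Nat.le_mul_of_pos_left m hn
    omega⟩
  have hfix : g^[m] (g^[r] z) = z := by
    rw [← Function.iterate_add_apply, hr, hz']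
  refine ⟨g^[r] z, n, hn, ?_, ⟨g^[m] ⁻¹' U, ?_, ?_⟩, ?_⟩
  · rw [← Function.iterate_add_apply, Nat.add_comm, Function.iterate_add_apply, hz]
  · apply (iter_cont hg m).continuousAt.preimage_mem_nhds
    rw [hfix]
    exact hU
  · intro w hw
    have h1 := ((iter_cont hg r).tendsto z).comp (hU' _ hw)
    rw [← tendsto_add_atTop_iff_nat m]
    refine h1.congr fun k => ?_
    show g^[r] (g^[n * k] (g^[m] w)) = g^[n * (k + m)] w
    rw [← Function.iterate_add_apply, ← Function.iterate_add_apply]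
    congr 1
    rw [Nat.mul_add, ← hr]
    ring
  · have h1 := ((iter_cont hg r).tendsto z).comp ht
    rw [← tendsto_add_atTop_iff_nat m]
    refine h1.congr fun k => ?_
    show g^[r] (g^[n * k] (g^[m] c)) = g^[n * (k + m)] c
    rw [← Function.iterate_add_apply, ← Function.iterate_add_apply]
    congr 1
    rw [Nat.mul_add, ← hr]
    ring

/-! ### Conjugation by homeomorphisms -/

theorem conj_iter {g : Sph → Sph} (h : Sph ≃ₜ Sph) (n : ℕ) (x : Sph) :
    (fun y => h (g (h.symm y)))^[n] x = h (g^[n] (h.symm x)) := by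
  induction n generalizing x with
  | zero => simp
  | succ n ih =>
    rw [Function.iterate_succ_apply, ih, Function.iterate_succ_apply]
    simp

theorem att_conj {g : Sph → Sph} (h : Sph ≃ₜ Sph) {c : Sph} (ha : Att g c) :
    Att (fun y => h (g (h.symm y))) (h c) := by
  obtain ⟨z, n, hn, hz, ⟨U, hU, hU'⟩, ht⟩ := ha
  refine ⟨h z, n, hn, ?_, ⟨h '' U, ?_, ?_⟩, ?_⟩
  · rw [conj_iter, h.symm_apply_apply, hz]
  · exact (h.isOpenMap.image_mem_nhds hU)
  · rintro _ ⟨w, hw, rfl⟩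
    refine ((h.continuous.tendsto z).comp (hU' w hw)).congr fun k => ?_
    show h (g^[n * k] w) = _
    rw [conj_iter, h.symm_apply_apply]
  · refine ((h.continuous.tendsto z).comp ht).congr fun k => ?_
    show h (g^[n * k] c) = _
    rw [conj_iter, h.symm_apply_apply]

theorem locInj_conj {g : Sph → Sph} (h : Sph ≃ₜ Sph) {c : Sph} (hl : LocInj g c) :
    LocInj (fun y => h (g (h.symm y))) (h c) := by
  obtain ⟨U, hU, hU'⟩ := hl
  refine ⟨h '' U, h.isOpenMap.image_mem_nhds hU, ?_⟩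
  rintro _ ⟨a, ha, rfl⟩ _ ⟨b, hb, rfl⟩ hab
  simp only [Homeomorph.symm_apply_apply] at hab
  rw [hU' ha hb (h.injective hab)]

theorem conj_conj {g : Sph → Sph} (h : Sph ≃ₜ Sph) :
    (fun y => h.symm ((fun y => h (g (h.symm y))) (h.symm.symm y))) = g := by
  funext y
  simp

theorem att_conj_iff {g : Sph → Sph} (h : Sph ≃ₜ Sph) {c : Sph} :
    Att (fun y => h (g (h.symm y))) (h c) ↔ Att g c := by
  constructor
  · intro ha
    have := att_conj h.symm ha
    rw [conj_conj, h.symm_apply_apply] at this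
    exact this
  · exact att_conj h

theorem locInj_conj_iff {g : Sph → Sph} (h : Sph ≃ₜ Sph) {c : Sph} :
    LocInj (fun y => h (g (h.symm y))) (h c) ↔ LocInj g c := by
  constructor
  · intro ha
    have := locInj_conj h.symm ha
    rw [conj_conj, h.symm_apply_apply] at this
    exact this
  · exact locInj_conj h

theorem hyp_conj {g : Sph → Sph} (h : Sph ≃ₜ Sph) (hg : Hyp g) :
    Hyp (fun y => h (g (h.symm y))) := by
  intro c hc
  obtain ⟨d, rfl⟩ := h.surjective c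
  exact att_conj h (hg d fun h1 => hc (locInj_conj h h1))

/-! ### Moebius maps -/

/-- the Moebius map with matrix `(a b; c e)` -/
noncomputable def mob (a b c e : ℂ) : Sph → Sph := sp (cf a b c e)

theorem mob_pr {a b c e : ℂ} (h : a * e - b * c ≠ 0) {p : ℂ × ℂ} (hp : p ≠ 0) :
    mob a b c e (pr p) = pr (a * p.1 + b * p.2, c * p.1 + e * p.2) := by
  unfold mob
  rw [sp_pr (nd_cf h) hp, hF_cf]

theorem mob_cont {a b c e : ℂ} (h : a * e - b * c ≠ 0) : Continuous (mob a b c e) :=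
  sp_cont (nd_cf h)

theorem lin_ne {a b c e : ℂ} (h : a * e - b * c ≠ 0) {p : ℂ × ℂ} (hp : p ≠ 0) :
    ((a * p.1 + b * p.2, c * p.1 + e * p.2) : ℂ × ℂ) ≠ 0 := by
  intro h0
  have := nd_cf h p
  rw [hF_cf] at this
  exact hp (this h0)

theorem exists_pr (z : Sph) : ∃ p : ℂ × ℂ, p ≠ 0 ∧ pr p = z := ⟨hc z, (pr_hc z).2, (pr_hc z).1⟩

theorem mob_mul {a b c e a' b' c' e' : ℂ} (h : a * e - b * c ≠ 0) (h' : a' * e' - b' * c' ≠ 0)
    (z : Sph) : mob a b c e (mob a' b' c' e' z) =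
      mob (a * a' + b * c') (a * b' + b * e') (c * a' + e * c') (c * b' + e * e') z := by
  obtain ⟨p, hp, rfl⟩ := exists_pr z
  rw [mob_pr h' hp, mob_pr h (lin_ne h' hp), mob_pr _ hp]
  · congr 1
    refine Prod.ext ?_ ?_
    · show a * (a' * p.1 + b' * p.2) + b * (c' * p.1 + e' * p.2) = _
      ring
    · show c * (a' * p.1 + b' * p.2) + e * (c' * p.1 + e' * p.2) = _
      ring
  · have : (a * a' + b * c') * (c * b' + e * e') - (a * b' + b * e') * (c * a' + e * c') =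
        (a * e - b * c) * (a' * e' - b' * c') := by ring
    rw [this]
    exact mul_ne_zero h h'

theorem mob_scalar {s : ℂ} (h : s ≠ 0) (z : Sph) : mob s 0 0 s z = z := by
  obtain ⟨p, hp, rfl⟩ := exists_pr z
  have hs : s * s - 0 * 0 ≠ 0 := by simpa using h
  rw [mob_pr hs hp]
  have h1 : ((s * p.1 + 0 * p.2, 0 * p.1 + s * p.2) : ℂ × ℂ) = s • p :=
    Prod.ext (by simp) (by simp)
  rw [h1, pr_eq_iff (smul_ne_zero h hp) hp, Pool.Agent.H790R3.RB.cr_smul_left,
    Pool.Agent.H790R3.RB.cr_self, mul_zero]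

theorem mob_one (z : Sph) : mob 1 0 0 1 z = z := mob_scalar one_ne_zero z

/-- the homeomorphism given by a Moebius map -/
noncomputable def mobH (a b c e : ℂ) (h : a * e - b * c ≠ 0) : Sph ≃ₜ Sph where
  toFun := mob a b c e
  invFun := mob e (-b) (-c) a
  left_inv z := by
    have h' : e * a - (-b) * (-c) ≠ 0 := by intro h0; exact h (by linear_combination h0)
    rw [mob_mul h' h]
    have e1 : e * a + -b * c = a * e - b * c := by ring
    have e2 : e * b + -b * e = 0 := by ring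
    have e3 : -c * a + a * c = 0 := by ring
    have e4 : -c * b + a * e = a * e - b * c := by ring
    rw [e1, e2, e3, e4, mob_scalar h]
  right_inv z := by
    have h' : e * a - (-b) * (-c) ≠ 0 := by intro h0; exact h (by linear_combination h0)
    rw [mob_mul h h']
    have e1 : a * e + b * -c = a * e - b * c := by ring
    have e2 : a * -b + b * a = 0 := by ring
    have e3 : c * e + e * -c = 0 := by ring
    have e4 : c * -b + e * a = a * e - b * c := by ring
    rw [e1, e2, e3, e4, mob_scalar h]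
  continuous_toFun := mob_cont h
  continuous_invFun := mob_cont (by intro h0; exact h (by linear_combination h0))

theorem hol_mob {a b c e : ℂ} (h : a * e - b * c ≠ 0) : Hol (mob a b c e) := by
  refine ⟨mob_cont h, ⟨fun p => (a * p.1 + b * p.2, c * p.1 + e * p.2), ?_, fun p hp => lin_ne h hp,
    fun p hp => mob_pr h hp⟩, ⟨∅, fun x hx => absurd (locInj_of_injective (mobH a b c e h).injective x) hx⟩⟩
  fun_prop

theorem pr_coe (z : ℂ) : pr (z, 1) = (z : Sph) := by
  rw [pr_ne (by simp)]; simp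

theorem coe_ne (z : ℂ) : ((z, 1) : ℂ × ℂ) ≠ 0 := fun h => one_ne_zero (congrArg Prod.snd h)

theorem pr_inf : pr (1, 0) = (∞ : Sph) := pr_zero rfl

theorem inf_ne (w : ℂ) : ((1, w) : ℂ × ℂ) ≠ 0 := fun h => one_ne_zero (congrArg Prod.fst h)

theorem pr_inv {z : ℂ} (hz : z ≠ 0) : pr (1, z⁻¹) = (z : Sph) := by
  rw [pr_ne (by simpa using hz)]; simp

theorem mob_coe {a b c e : ℂ} (h : a * e - b * c ≠ 0) {z : ℂ} (hz : c * z + e ≠ 0) :
    mob a b c e (z : Sph) = (((a * z + b) / (c * z + e) : ℂ) : Sph) := by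
  rw [← pr_coe z, mob_pr h (coe_ne z), pr_ne (by simpa using hz)]
  simp

theorem mob_coe_inf {a b c e : ℂ} (h : a * e - b * c ≠ 0) {z : ℂ} (hz : c * z + e = 0) :
    mob a b c e (z : Sph) = ∞ := by
  rw [← pr_coe z, mob_pr h (coe_ne z), pr_zero (by simpa using hz)]

theorem mob_inf {a b c e : ℂ} (h : a * e - b * c ≠ 0) : mob a b c e ∞ = pr (a, c) := by
  rw [← pr_inf, mob_pr h (inf_ne 0)]
  congr 1
  exact Prod.ext (by simp) (by simp)

/-- translation -/
noncomputable def tr (β : ℂ) : Sph → Sph := mob 1 β 0 1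

/-- the conjugate of a translation which fixes `0` -/
noncomputable def sh (γ : ℂ) : Sph → Sph := mob 1 0 γ 1

theorem det_tr (β : ℂ) : (1 : ℂ) * 1 - β * 0 ≠ 0 := by simp

theorem det_sh (γ : ℂ) : (1 : ℂ) * 1 - 0 * γ ≠ 0 := by simp

theorem tr_coe (β z : ℂ) : tr β (z : Sph) = ((z + β : ℂ) : Sph) := by
  unfold tr
  rw [mob_coe (det_tr β) (by simp)]
  simp

theorem tr_inf (β : ℂ) : tr β ∞ = ∞ := by
  unfold tr
  rw [mob_inf (det_tr β), pr_zero rfl]

theorem tr_zero (z : Sph) : tr 0 z = z := mob_one z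

theorem hol_tr (β : ℂ) : Hol (tr β) := hol_mob (det_tr β)

theorem hol_sh (γ : ℂ) : Hol (sh γ) := hol_mob (det_sh γ)

/-! ### Neighbourhoods of infinity -/

/-- `x` is `∞` or a point of modulus larger than `ρ` -/
def Big (ρ : ℝ) (x : Sph) : Prop := ∀ z : ℂ, x = (z : Sph) → ρ < ‖z‖

theorem big_inf (ρ : ℝ) : Big ρ ∞ := fun z h => absurd h (OnePoint.infty_ne_coe z)

theorem big_coe {ρ : ℝ} {z : ℂ} : Big ρ (z : Sph) ↔ ρ < ‖z‖ :=
  ⟨fun h => h z rfl, fun h w hw => by rw [← OnePoint.coe_injective hw]; exact h⟩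

theorem big_mono {ρ ρ' : ℝ} (h : ρ ≤ ρ') {x : Sph} (hx : Big ρ' x) : Big ρ x :=
  fun z hz => h.trans_lt (hx z hz)

theorem big_open (ρ : ℝ) : IsOpen {x : Sph | Big ρ x} := by
  have h1 : {x : Sph | Big ρ x} = ((fun z : ℂ => (z : Sph)) '' closedBall 0 ρ)ᶜ := by
    ext x
    simp only [mem_setOf_eq, mem_compl_iff, mem_image, mem_closedBall, dist_zero_right, not_exists,
      not_and]
    constructor
    · intro h z hz hzx
      exact absurd (h z hzx.symm) (not_lt.2 hz)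
    · intro h z hz
      by_contra hcon
      exact h z (not_lt.1 hcon) hz.symm
  rw [h1]
  exact ((isCompact_closedBall 0 ρ).image OnePoint.continuous_coe).isClosed.isOpen_compl

theorem big_nhds (ρ : ℝ) : {x : Sph | Big ρ x} ∈ 𝓝 (∞ : Sph) := (big_open ρ).mem_nhds (big_inf ρ)

theorem nhds_big {U : Set Sph} (hU : U ∈ 𝓝 (∞ : Sph)) : ∃ ρ : ℝ, 0 < ρ ∧ ∀ x, Big ρ x → x ∈ U := by
  obtain ⟨V, hVU, hV, hmem⟩ := mem_nhds_iff.1 hU
  obtain ⟨-, hc⟩ := (OnePoint.isOpen_iff_of_mem hmem).1 hV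
  obtain ⟨ρ, hρ⟩ := hc.isBounded.exists_norm_le
  refine ⟨max ρ 1, by positivity, fun x hx => hVU ?_⟩
  induction x using OnePoint.rec with
  | infty => exact hmem
  | coe z =>
    by_contra hcon
    have h1 := hρ z hcon
    have h2 := hx z rfl
    exact absurd h2 (not_lt.2 (h1.trans (le_max_left _ _)))

theorem nhds_coe {U : Set ℂ} {z : ℂ} (hU : U ∈ 𝓝 z) :
    (fun z : ℂ => (z : Sph)) '' U ∈ 𝓝 (z : Sph) :=
  OnePoint.isOpenEmbedding_coe.isOpenMap.image_mem_nhds hU

end Pool.Agent.R239.Fat
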