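import Mathlib
import Pool.Agent.R239.Fat.T1

/-! Robustly invariant bounded open sets: all orbits are attracted by attracting cycles. -/

set_option autoImplicit false

open Topology Filter Metric Set
open scoped OnePoint
open Pool.Agent.H790R3.RB (pr)
open Pool.Agent.H790R3.RB.SP (pr_zero pr_ne)

namespace Pool.Agent.R239.Fat

section plane

variable {W : Set ℂ} {F : ℂ → ℂ} {r : ℝ}

theorem maps_iter (h : ∀ z ∈ W, F z ∈ W) (n : ℕ) : ∀ z ∈ W, F^[n] z ∈ W := by
  induction n with
  | zero => intro z hz; exact hz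
  | succ n ih => intro z hz; rw [Function.iterate_succ_apply']; exact h _ (ih z hz)

theorem diff_iter (hF : DifferentiableOn ℂ F W) (h : ∀ z ∈ W, F z ∈ W) (n : ℕ) :
    DifferentiableOn ℂ F^[n] W := by
  induction n with
  | zero => exact differentiableOn_id
  | succ n ih =>
    rw [Function.iterate_succ']
    exact hF.comp ih (maps_iter h n)

theorem contract (hW : IsOpen W) {R : ℝ} (hR : 0 < R) (hb : ∀ z ∈ W, ‖z‖ ≤ R)
    (hF : DifferentiableOn ℂ F W) (hr : 0 < r) (h : ∀ z ∈ W, ball (F z) r ⊆ W) {y : ℂ}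
    (hy : ball y (r / 2) ⊆ W) (n : ℕ) :
    ‖deriv F^[n] y‖ ≤ 4 * R / r * (1 / (1 + r / (4 * R))) ^ n := by
  have hmaps : ∀ z ∈ W, F z ∈ W := fun z hz => h z hz (mem_ball_self hr)
  have hyW : y ∈ W := hy (mem_ball_self (by positivity))
  set t : ℝ := r / (4 * R) with ht
  have ht0 : 0 < t := by positivity
  have key : ∃ G : ℂ → ℂ, DifferentiableOn ℂ G (ball y (r / 2)) ∧
      (∀ z ∈ ball y (r / 2), G z ∈ W) ∧ G y = F^[n] y ∧
      deriv G y = (1 + (t : ℂ)) ^ n * deriv F^[n] y := by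
    induction n with
    | zero => exact ⟨id, differentiableOn_id, fun z hz => hy hz, rfl, by simp⟩
    | succ n ih =>
      obtain ⟨G, hG, hGW, hGy, hGd⟩ := ih
      set x := F^[n + 1] y with hx
      have hxW : x ∈ W := maps_iter hmaps _ y hyW
      have hFG : DifferentiableOn ℂ (fun z => F (G z)) (ball y (r / 2)) := hF.comp hG hGW
      refine ⟨fun z => F (G z) + (t : ℂ) * (F (G z) - x), ?_, ?_, ?_, ?_⟩
      · exact hFG.add ((hFG.sub_const x).const_mul (t : ℂ))
      · intro z hz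
        apply h (G z) (hGW z hz)
        rw [mem_ball, dist_eq_norm, add_sub_cancel_left, norm_mul, Complex.norm_real,
          Real.norm_eq_abs, abs_of_pos ht0]
        have h1 : ‖F (G z) - x‖ ≤ 2 * R := by
          refine (norm_sub_le _ _).trans ?_
          have := hb _ (hmaps _ (hGW z hz)); have := hb _ hxW; linarith
        calc t * ‖F (G z) - x‖ ≤ t * (2 * R) := by gcongr
          _ = r / 2 := by rw [ht]; field_simp; norm_num
          _ < r := by linarith
      · have e1 : F (G y) = x := by rw [hGy, hx, Function.iterate_succ_apply']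
        simp only [e1, sub_self, mul_zero, add_zero]
      · have hyB : ball y (r / 2) ∈ 𝓝 y := ball_mem_nhds y (by positivity)
        have hxn : F^[n] y ∈ W := maps_iter hmaps n y hyW
        have h1 : HasDerivAt F (deriv F (F^[n] y)) (G y) := by
          rw [hGy]; exact (hF.differentiableAt (hW.mem_nhds hxn)).hasDerivAt
        have h2 : HasDerivAt G (deriv G y) y := (hG.differentiableAt hyB).hasDerivAt
        have h3 : HasDerivAt F^[n] (deriv F^[n] y) y :=
          ((diff_iter hF hmaps n).differentiableAt (hW.mem_nhds hyW)).hasDerivAt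
        have h4 : HasDerivAt F (deriv F (F^[n] y)) (F^[n] y) :=
          (hF.differentiableAt (hW.mem_nhds hxn)).hasDerivAt
        have h5 : deriv F^[n + 1] y = deriv F (F^[n] y) * deriv F^[n] y := by
          rw [Function.iterate_succ']
          exact (h4.comp y h3).deriv
        have h6 : HasDerivAt (fun z => F (G z)) (deriv F (F^[n] y) * deriv G y) y := h1.comp y h2
        have h7 := h6.add ((h6.sub_const x).const_mul (t : ℂ))
        have h8 : deriv (fun z => F (G z) + (t : ℂ) * (F (G z) - x)) y =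
            deriv F (F^[n] y) * deriv G y + (t : ℂ) * (deriv F (F^[n] y) * deriv G y) := h7.deriv
        rw [h8, h5, hGd]
        ring
  obtain ⟨G, hG, hGW, -, hGd⟩ := key
  have h1 : ‖deriv G y‖ ≤ R / (r / 4) := by
    refine Complex.norm_deriv_le_of_forall_mem_sphere_norm_le (by positivity) ?_ ?_
    · refine DifferentiableOn.diffContOnCl_ball (U := ball y (r / 2)) hG ?_
      exact closedBall_subset_ball (by linarith)
    · intro z hz
      apply hb _ (hGW z _)
      rw [mem_ball, mem_sphere.1 hz]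
      linarith
  rw [hGd, norm_mul, norm_pow] at h1
  have h2 : ‖(1 + (t : ℂ))‖ = 1 + t := by
    rw [show (1 + (t : ℂ)) = ((1 + t : ℝ) : ℂ) by push_cast; ring, Complex.norm_real,
      Real.norm_eq_abs, abs_of_pos (by positivity)]
  rw [h2] at h1
  rw [one_div, inv_pow, ← div_eq_mul_inv, le_div_iff₀ (by positivity), mul_comm]
  calc (1 + t) ^ n * ‖deriv F^[n] y‖ ≤ R / (r / 4) := h1
    _ = 4 * R / r := by field_simp

theorem plane_att (hW : IsOpen W) {R : ℝ} (hR : 0 < R) (hb : ∀ z ∈ W, ‖z‖ ≤ R)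
    (hF : DifferentiableOn ℂ F W) (hr : 0 < r) (h : ∀ z ∈ W, ball (F z) r ⊆ W) {x : ℂ}
    (hx : x ∈ W) :
    ∃ m n : ℕ, 0 < n ∧ ∃ p ∈ W, F^[n] p = p ∧
      (∃ U ∈ 𝓝 p, U ⊆ W ∧ ∀ w ∈ U, Tendsto (fun k : ℕ => F^[n * k] w) atTop (𝓝 p)) ∧
      Tendsto (fun k : ℕ => F^[n * k] (F^[m] x)) atTop (𝓝 p) := by
  have hmaps : ∀ z ∈ W, F z ∈ W := fun z hz => h z hz (mem_ball_self hr)
  set θ : ℝ := 1 / (1 + r / (4 * R)) with hθ
  have hθ0 : 0 < θ := by positivity
  have hθ1 : θ < 1 := by
    rw [hθ, div_lt_one (by positivity)]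
    have : 0 < r / (4 * R) := by positivity
    linarith
  set C : ℝ := 4 * R / r with hC
  have hC0 : 0 < C := by positivity
  obtain ⟨n₀, hn₀⟩ : ∃ n₀ : ℕ, ∀ n, n₀ ≤ n → C * θ ^ n ≤ 1 / 4 := by
    have h1 : Tendsto (fun n : ℕ => C * θ ^ n) atTop (𝓝 (C * 0)) :=
      (tendsto_pow_atTop_nhds_zero_of_lt_one hθ0.le hθ1).const_mul C
    rw [mul_zero] at h1
    exact eventually_atTop.1 ((h1.eventually (gt_mem_nhds (by norm_num : (0 : ℝ) < 1 / 4))).mono
      fun n hn => hn.le)
  -- two close points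
  obtain ⟨i, j, hij, hd⟩ : ∃ i j : ℕ, i < j ∧
      dist (F^[(i * (n₀ + 1)) + 1] x) (F^[(j * (n₀ + 1)) + 1] x) < r / 8 := by
    have hcpt : IsCompact (closedBall (0 : ℂ) R) := isCompact_closedBall 0 R
    obtain ⟨y, -, φ, hφ, hlim⟩ := hcpt.tendsto_subseq
      (x := fun k : ℕ => F^[(k * (n₀ + 1)) + 1] x)
      (fun k => by rw [mem_closedBall_zero_iff]; exact hb _ (maps_iter hmaps _ x hx))
    obtain ⟨N, hN⟩ := Metric.cauchySeq_iff.1 hlim.cauchySeq (r / 8) (by positivity)
    exact ⟨φ N, φ (N + 1), hφ (by omega), hN N le_rfl (N + 1) (by omega)⟩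
  set u := F^[(i * (n₀ + 1)) + 1] x with hu
  set n := (j - i) * (n₀ + 1) with hn
  have hn0 : 0 < n := Nat.mul_pos (by omega) (by omega)
  have hnn : n₀ ≤ n := by
    have : 1 ≤ j - i := by omega
    nlinarith
  have hFu : F^[n] u = F^[(j * (n₀ + 1)) + 1] x := by
    rw [hu, ← Function.iterate_add_apply]
    congr 1
    rw [hn, Nat.sub_mul]
    have : i * (n₀ + 1) ≤ j * (n₀ + 1) := Nat.mul_le_mul_right _ hij.le
    omega
  rw [← hFu] at hd
  have hub : ball u r ⊆ W := by
    rw [hu, Function.iterate_succ_apply']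
    exact h _ (maps_iter hmaps _ x hx)
  have hder : ∀ v ∈ closedBall u (r / 4), ‖deriv F^[n] v‖ ≤ 1 / 4 := by
    intro v hv
    refine (contract hW hR hb hF hr h ?_ n).trans (hn₀ n hnn)
    intro w hw
    apply hub
    rw [mem_ball] at hw ⊢
    rw [mem_closedBall] at hv
    have := dist_triangle w v u
    linarith
  have hdiff := diff_iter hF hmaps n
  have hcl : ∀ v ∈ closedBall u (r / 4), v ∈ W := fun v hv =>
    hub (closedBall_subset_ball (by linarith) hv)
  have hlip : ∀ v ∈ closedBall u (r / 4), ∀ v' ∈ closedBall u (r / 4),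
      ‖F^[n] v - F^[n] v'‖ ≤ 1 / 4 * ‖v - v'‖ := by
    intro v hv v' hv'
    exact (convex_closedBall u (r / 4)).norm_image_sub_le_of_norm_deriv_le
      (fun w hw => hdiff.differentiableAt (hW.mem_nhds (hcl w hw))) hder hv' hv
  have huB : u ∈ closedBall u (r / 4) := mem_closedBall_self (by positivity)
  have hmB : ∀ v ∈ closedBall u (r / 4), F^[n] v ∈ closedBall u (r / 5) := by
    intro v hv
    rw [mem_closedBall, dist_eq_norm]
    have h1 := hlip v hv u huB
    rw [mem_closedBall, dist_eq_norm] at hv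
    have h2 : ‖F^[n] u - u‖ < r / 8 := by rw [← dist_eq_norm, dist_comm]; exact hd
    have h3 := norm_sub_le_norm_sub_add_norm_sub (F^[n] v) (F^[n] u) u
    linarith
  have hmB' : ∀ v ∈ closedBall u (r / 4), F^[n] v ∈ closedBall u (r / 4) := fun v hv =>
    closedBall_subset_closedBall (by linarith) (hmB v hv)
  have hpow : ∀ k : ℕ, ∀ v ∈ closedBall u (r / 4), (F^[n])^[k] v ∈ closedBall u (r / 4) := by
    intro k
    induction k with
    | zero => intro v hv; exact hv
    | succ k ih => intro v hv; rw [Function.iterate_succ_apply']; exact hmB' _ (ih v hv)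
  have hpl : ∀ k : ℕ, ∀ v ∈ closedBall u (r / 4), ∀ v' ∈ closedBall u (r / 4),
      ‖(F^[n])^[k] v - (F^[n])^[k] v'‖ ≤ (1 / 4) ^ k * ‖v - v'‖ := by
    intro k
    induction k with
    | zero => intro v _ v' _; simp
    | succ k ih =>
      intro v hv v' hv'
      rw [Function.iterate_succ_apply', Function.iterate_succ_apply']
      refine (hlip _ (hpow k v hv) _ (hpow k v' hv')).trans ?_
      have := ih v hv v' hv'
      rw [pow_succ]
      nlinarith
  obtain ⟨p, hp⟩ := cauchySeq_tendsto_of_complete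
    (cauchySeq_of_le_geometric (1 / 4) (r / 2) (by norm_num)
      (f := fun k => (F^[n])^[k] u) (by
        intro k
        rw [dist_eq_norm, Function.iterate_succ_apply]
        refine (hpl k u huB _ (hmB' u huB)).trans ?_
        have h1 : ‖u - F^[n] u‖ ≤ r / 2 := by
          rw [← dist_eq_norm]; linarith
        rw [mul_comm]
        gcongr))
  have hpB : p ∈ closedBall u (r / 4) := isClosed_closedBall.mem_of_tendsto hp
    (Eventually.of_forall fun k => hpow k u huB)
  have hpfix : F^[n] p = p := by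
    have h1 : Tendsto (fun k : ℕ => (F^[n])^[k + 1] u) atTop (𝓝 p) :=
      hp.comp (tendsto_add_atTop_nat 1)
    have h2 : Tendsto (fun k : ℕ => F^[n] ((F^[n])^[k] u)) atTop (𝓝 (F^[n] p)) :=
      ((hdiff.differentiableAt (hW.mem_nhds (hcl p hpB))).continuousAt.tendsto).comp hp
    have h3 : (fun k : ℕ => F^[n] ((F^[n])^[k] u)) = fun k : ℕ => (F^[n])^[k + 1] u := by
      funext k; rw [Function.iterate_succ_apply']
    rw [h3] at h2
    exact tendsto_nhds_unique h2 h1
  have hpU : closedBall u (r / 4) ∈ 𝓝 p := by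
    refine mem_of_superset (isOpen_ball.mem_nhds (?_ : p ∈ ball u (r / 4))) ball_subset_closedBall
    have h1 := hmB p hpB
    rw [hpfix] at h1
    exact closedBall_subset_ball (by linarith) h1
  have hconv : ∀ v ∈ closedBall u (r / 4), Tendsto (fun k : ℕ => F^[n * k] v) atTop (𝓝 p) := by
    intro v hv
    rw [tendsto_iff_norm_sub_tendsto_zero]
    have h1 : Tendsto (fun k : ℕ => (1 / 4 : ℝ) ^ k * ‖v - p‖) atTop (𝓝 (0 * ‖v - p‖)) :=
      (tendsto_pow_atTop_nhds_zero_of_lt_one (by norm_num) (by norm_num)).mul_const _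
    rw [zero_mul] at h1
    refine squeeze_zero (fun _ => norm_nonneg _) (fun k => ?_) h1
    have h2 := hpl k v hv p hpB
    rw [Function.iterate_fixed hpfix k] at h2
    rw [Function.iterate_mul]
    exact h2
  refine ⟨(i * (n₀ + 1)) + 1, n, hn0, p, hcl p hpB, hpfix,
    ⟨closedBall u (r / 4), hpU, hcl, hconv⟩, hconv u huB⟩

end plane

/-- the plane function of a lift -/
noncomputable def pl (G : ℂ × ℂ → ℂ × ℂ) (z : ℂ) : ℂ := (G (z, 1)).1 / (G (z, 1)).2

theorem pl_spec {g : Sph → Sph} {G : ℂ × ℂ → ℂ × ℂ} (hG : Lift g G) {z u : ℂ}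
    (h : g (z : Sph) = (u : Sph)) : (G (z, 1)).2 ≠ 0 ∧ pl G z = u := by
  have h1 := hG.eq (z, 1) (coe_ne z)
  rw [pr_coe, h] at h1
  have h2 : (G (z, 1)).2 ≠ 0 := by
    intro h0
    rw [pr_zero h0] at h1
    exact OnePoint.coe_ne_infty _ h1
  refine ⟨h2, ?_⟩
  rw [pr_ne h2] at h1
  exact (OnePoint.coe_injective h1).symm

theorem pl_diff {G : ℂ × ℂ → ℂ × ℂ} (hG : ContDiff ℂ 1 G) {z : ℂ} (h : (G (z, 1)).2 ≠ 0) :
    DifferentiableAt ℂ (pl G) z := by
  have h1 : DifferentiableAt ℂ (fun z : ℂ => G (z, 1)) z :=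
    ((hG.differentiable (by norm_num)) (z, 1)).comp z
      (differentiableAt_id.prodMk (differentiableAt_const 1))
  exact h1.fst.div h1.snd h

/-- Robustly invariant bounded open sets of the plane. -/
theorem sph_att {g : Sph → Sph} (hg : Hol g) {W : Set ℂ} (hW : IsOpen W) {R : ℝ} (hR : 0 < R)
    (hb : ∀ z ∈ W, ‖z‖ ≤ R) {r : ℝ} (hr : 0 < r)
    (h : ∀ z ∈ W, ∃ u : ℂ, g (z : Sph) = (u : Sph) ∧ ball u r ⊆ W) {z : ℂ} (hz : z ∈ W) :
    Att g (z : Sph) := by
  obtain ⟨G, hG⟩ := hg.lift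
  set F := pl G with hF
  have hFg : ∀ z ∈ W, g (z : Sph) = (F z : Sph) ∧ ball (F z) r ⊆ W := by
    intro z hz
    obtain ⟨u, h1, h2⟩ := h z hz
    have h3 := (pl_spec hG h1).2
    rw [hF, h3]
    exact ⟨h1, h2⟩
  have hmaps : ∀ z ∈ W, F z ∈ W := fun z hz => (hFg z hz).2 (mem_ball_self hr)
  have hFd : DifferentiableOn ℂ F W := by
    intro z hz
    obtain ⟨u, h1, -⟩ := h z hz
    exact (pl_diff hG.cd (pl_spec hG h1).1).differentiableWithinAt
  have hit : ∀ n, ∀ z ∈ W, g^[n] (z : Sph) = (F^[n] z : Sph) := by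
    intro n
    induction n with
    | zero => intro z _; rfl
    | succ n ih =>
      intro z hz
      rw [Function.iterate_succ_apply', ih z hz, (hFg _ (maps_iter hmaps n z hz)).1,
        Function.iterate_succ_apply']
  obtain ⟨m, n, hn, p, hpW, hp, ⟨U, hU, hUW, hU'⟩, ht⟩ :=
    plane_att hW hR hb hFd hr (fun z hz => (hFg z hz).2) hz
  apply att_of_iter hg.cont (m := m)
  refine ⟨(p : Sph), n, hn, ?_, ⟨_, nhds_coe hU, ?_⟩, ?_⟩
  · rw [hit n p hpW, hp]
  · rintro _ ⟨w, hw, rfl⟩
    refine ((OnePoint.continuous_coe.tendsto p).comp (hU' w hw)).congr fun k => ?_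
    exact (hit _ w (hUW hw)).symm
  · refine ((OnePoint.continuous_coe.tendsto p).comp ht).congr fun k => ?_
    show ((F^[n * k] (F^[m] z) : ℂ) : Sph) = _
    rw [hit m z hz, hit _ _ (maps_iter hmaps m z hz)]

end Pool.Agent.R239.Fat
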