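import Mathlib
import Pool.Agent.R239.Fat.T2

/-! Compositions of perturbed maps; the closing lemma; critical fixed points at infinity. -/

set_option autoImplicit false

open Topology Filter Metric Set Asymptotics
open scoped OnePoint
open Pool.Agent.H790R3.RB (cr pr cr_self cr_smul_left cr_smul_right cr_eq_zero_iff)
open Pool.Agent.H790R3.RB.SP (pr_zero pr_ne pr_eq_iff)

namespace Pool.Agent.R239.Fat

/-- `G` is a composition of `n` maps with the property `P` -/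
inductive Comp (P : (Sph → Sph) → Prop) : ℕ → (Sph → Sph) → Prop
  | zero : Comp P 0 id
  | succ {n : ℕ} {G m : Sph → Sph} : Comp P n G → P m → Comp P (n + 1) (m ∘ G)

/-- the composition `m (n - 1) ∘ ⋯ ∘ m 0` -/
def run (m : ℕ → Sph → Sph) : ℕ → Sph → Sph
  | 0 => id
  | n + 1 => m n ∘ run m n

theorem run_congr {m m' : ℕ → Sph → Sph} {n : ℕ} (h : ∀ k < n, m k = m' k) : run m n = run m' n := by
  induction n with
  | zero => rfl
  | succ n ih =>
    show m n ∘ run m n = m' n ∘ run m' n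
    rw [h n (by omega), ih fun k hk => h k (by omega)]

variable {P P' : (Sph → Sph) → Prop}

theorem Comp.append {n n' : ℕ} {G G' : Sph → Sph} (h : Comp P n G) (h' : Comp P n' G') :
    Comp P (n + n') (G' ∘ G) := by
  induction h' with
  | zero => exact h
  | succ _ hm ih =>
    have h1 := Comp.succ ih hm
    exact h1

theorem Comp.mono (hP : ∀ m, P m → P' m) {n : ℕ} {G : Sph → Sph} (h : Comp P n G) :
    Comp P' n G := by
  induction h with
  | zero => exact Comp.zero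
  | succ _ hm ih => exact Comp.succ ih (hP _ hm)

theorem Comp.hol (hP : ∀ m, P m → Hol m) {n : ℕ} {G : Sph → Sph} (h : Comp P n G) : Hol G := by
  induction h with
  | zero => exact Hol.id
  | succ _ hm ih => exact ih.comp (hP _ hm)

theorem Comp.one {m : Sph → Sph} (h : P m) : Comp P 1 m := Comp.succ Comp.zero h

theorem Comp.seq {n : ℕ} {G : Sph → Sph} (h : Comp P n G) :
    ∃ m : ℕ → Sph → Sph, (∀ k < n, P (m k)) ∧ run m n = G := by
  induction h with
  | zero => exact ⟨fun _ => id, fun k hk => absurd hk (Nat.not_lt_zero k), rfl⟩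
  | @succ n G m' _ hm ih =>
    obtain ⟨m, h1, h2⟩ := ih
    refine ⟨Function.update m n m', fun k hk => ?_, ?_⟩
    · rcases Nat.lt_succ_iff_lt_or_eq.1 hk with h3 | rfl
      · rw [Function.update_of_ne h3.ne]; exact h1 k h3
      · rw [Function.update_self]; exact hm
    · show Function.update m n m' n ∘ run (Function.update m n m') n = _
      rw [Function.update_self, run_congr (m' := m) fun k hk => Function.update_of_ne hk.ne _ _, h2]

theorem Comp.conj (h : Sph ≃ₜ Sph) (hP : ∀ m, P m → P' (fun y => h (m (h.symm y)))) {n : ℕ}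
    {G : Sph → Sph} (hG : Comp P n G) : Comp P' n (fun y => h (G (h.symm y))) := by
  induction hG with
  | zero =>
    have : (fun y => h (id (h.symm y))) = id := by funext y; simp
    rw [this]
    exact Comp.zero
  | @succ n G m _ hm ih =>
    have : (fun y => h ((m ∘ G) (h.symm y))) =
        (fun y => h (m (h.symm y))) ∘ fun y => h (G (h.symm y)) := by funext y; simp
    rw [this]
    exact Comp.succ ih (hP _ hm)

/-- block compositions -/
theorem Comp.block {n k : ℕ} {G : Sph → Sph} (h : Comp P n G)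
    (hP : ∀ m, P m → Comp P' k m) : Comp P' (k * n) G := by
  induction h with
  | zero => exact Comp.zero
  | @succ n G m _ hm ih =>
    rw [Nat.mul_succ]
    exact ih.append (hP m hm)

/-- small kicks -/
def IsKick (ε : ℝ) (κ : Sph → Sph) : Prop := ∃ β : ℂ, ‖β‖ < ε ∧ (κ = tr β ∨ κ = sh β)

/-- kicked maps -/
def KStep (f : Sph → Sph) (ε : ℝ) (m : Sph → Sph) : Prop := ∃ κ, IsKick ε κ ∧ m = κ ∘ f

theorem IsKick.hol {ε : ℝ} {κ : Sph → Sph} (h : IsKick ε κ) : Hol κ := by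
  obtain ⟨β, -, rfl | rfl⟩ := h
  · exact hol_tr β
  · exact hol_sh β

theorem KStep.hol {f : Sph → Sph} {ε : ℝ} {m : Sph → Sph} (hf : Hol f) (h : KStep f ε m) :
    Hol m := by
  obtain ⟨κ, hκ, rfl⟩ := h
  exact hf.comp hκ.hol

theorem KStep.factor {f : Sph → Sph} {ε : ℝ} (hf : Hol f) {n : ℕ} {G : Sph → Sph}
    (h : Comp (KStep f ε) n G) (hn : n ≠ 0) : ∃ R, Hol R ∧ G = R ∘ f := by
  induction h with
  | zero => exact absurd rfl hn
  | @succ n G m hG hm ih =>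
    rcases Nat.eq_zero_or_pos n with rfl | hn0
    · cases hG
      obtain ⟨κ, hκ, rfl⟩ := hm
      exact ⟨κ, hκ.hol, rfl⟩
    · obtain ⟨R, hR, rfl⟩ := ih hn0.ne'
      exact ⟨m ∘ R, hR.comp (hm.hol hf), rfl⟩

/-- The closing lemma: if `∞` is not attracted then small kicks bring its orbit back to it. -/
theorem closing {f : Sph → Sph} (hf : Hol f) (hatt : ¬ Att f ∞) {ε : ℝ} (hε : 0 < ε) :
    ∃ n : ℕ, n ≠ 0 ∧ ∃ G, Comp (KStep f ε) n G ∧ G ∞ = ∞ := by
  by_contra hcon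
  push Not at hcon
  have hfin : ∀ n G, Comp (KStep f ε) n G → ∃ u : ℂ, f (G ∞) = (u : Sph) ∧ ‖u‖ ≤ 1 / ε := by
    intro n G hG
    have h1 : f (G ∞) ≠ ∞ := by
      have h2 := hcon (n + 1) (by omega) _
        (Comp.succ hG ⟨tr 0, ⟨0, by simpa using hε, Or.inl rfl⟩, rfl⟩)
      simpa only [Function.comp_apply, tr_zero] using h2
    obtain ⟨u, hu⟩ := OnePoint.ne_infty_iff_exists.1 h1
    refine ⟨u, hu.symm, ?_⟩
    by_contra h3
    push Not at h3
    have hu0 : u ≠ 0 := by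
      rintro rfl
      rw [norm_zero] at h3
      have : 0 < 1 / ε := by positivity
      linarith
    have hun : 0 < ‖u‖ := norm_pos_iff.2 hu0
    have h4 : ‖-u⁻¹‖ < ε := by
      rw [norm_neg, norm_inv]
      rw [div_lt_iff₀ hε] at h3
      rw [inv_lt_iff_one_lt_mul₀ hun]
      linarith
    have h5 := hcon (n + 1) (by omega) _ (Comp.succ hG ⟨sh (-u⁻¹), ⟨_, h4, Or.inr rfl⟩, rfl⟩)
    apply h5
    show sh (-u⁻¹) (f (G ∞)) = ∞
    rw [← hu]
    exact mob_coe_inf (det_sh _) (by field_simp; ring)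
  set W : Set ℂ := {w : ℂ | ∃ n G, Comp (KStep f ε) n G ∧ ∃ u : ℂ, f (G ∞) = (u : Sph) ∧
    ‖w - u‖ < ε} with hW
  have hWo : IsOpen W := by
    rw [Metric.isOpen_iff]
    rintro w ⟨n, G, hG, u, hu, hwu⟩
    refine ⟨ε - ‖w - u‖, by linarith, fun v hv => ⟨n, G, hG, u, hu, ?_⟩⟩
    rw [mem_ball, dist_eq_norm] at hv
    have := norm_sub_le_norm_sub_add_norm_sub v w u
    linarith
  obtain ⟨u₀, hu₀, -⟩ := hfin 0 id Comp.zero
  have hu₀W : u₀ ∈ W := ⟨0, id, Comp.zero, u₀, hu₀, by simpa using hε⟩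
  have h1 : Att f (u₀ : Sph) := by
    refine sph_att hf hWo (R := 1 / ε + ε) (by positivity) ?_ hε ?_ hu₀W
    · rintro w ⟨n, G, hG, u, hu, hwu⟩
      obtain ⟨u', hu', hb⟩ := hfin n G hG
      rw [hu] at hu'
      rw [← OnePoint.coe_injective hu'] at hb
      have := norm_le_norm_add_norm_sub u w
      rw [← norm_neg (u - w), neg_sub] at this
      linarith
    · rintro w ⟨n, G, hG, u, hu, hwu⟩
      have h2 : Comp (KStep f ε) (n + 1) ((tr (w - u) ∘ f) ∘ G) :=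
        Comp.succ hG ⟨_, ⟨_, hwu, Or.inl rfl⟩, rfl⟩
      have h3 : ((tr (w - u) ∘ f) ∘ G) ∞ = (w : Sph) := by
        simp only [Function.comp_apply, hu, tr_coe]
        congr 1
        ring
      obtain ⟨u', hu', -⟩ := hfin _ _ h2
      refine ⟨u', by rw [← h3]; exact hu', fun v hv => ⟨_, _, h2, u', hu', ?_⟩⟩
      rwa [mem_ball, dist_eq_norm] at hv
  apply hatt
  apply att_of_iter hf.cont (m := 1)
  rw [Function.iterate_one]
  have : f ∞ = (u₀ : Sph) := hu₀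
  rw [this]
  exact h1

/-! ### Critical points at infinity -/

theorem image_nhds_inf {V : Set ℂ} (hV : V ∈ 𝓝 (0 : ℂ)) : {x : Sph | ∃ w ∈ V, x = pr (1, w)} ∈ 𝓝 (∞ : Sph) := by
  obtain ⟨δ, hδ, hδV⟩ := Metric.mem_nhds_iff.1 hV
  refine mem_of_superset (big_nhds (1 / δ)) fun x hx => ?_
  induction x using OnePoint.rec with
  | infty => exact ⟨0, hδV (mem_ball_self hδ), pr_inf.symm⟩
  | coe z =>
    have h1 : 1 / δ < ‖z‖ := hx z rfl
    have h0 : 0 < ‖z‖ := lt_trans (by positivity) h1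
    refine ⟨z⁻¹, hδV ?_, (pr_inv (norm_pos_iff.1 h0)).symm⟩
    rw [mem_ball_zero_iff, norm_inv]
    rw [div_lt_iff₀ hδ] at h1
    rw [inv_lt_iff_one_lt_mul₀ h0]
    linarith

theorem exists_cr {q : ℂ × ℂ} (hq : q ≠ 0) : ∃ q' : ℂ × ℂ, cr q q' ≠ 0 := by
  by_cases h : q.1 = 0
  · have h2 : q.2 ≠ 0 := fun h2 => hq (Prod.ext h h2)
    exact ⟨(1, 0), by simpa [cr, h] using h2⟩
  · exact ⟨(0, 1), by simpa [cr] using h⟩

theorem tangent {g : Sph → Sph} {G : ℂ × ℂ → ℂ × ℂ} (hG : Lift g G) (h : ¬ LocInj g ∞) :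
    (fun w : ℂ => cr (G (1, w)) (G (1, 0))) =O[𝓝 0] fun w => w ^ 2 := by
  have hd : Differentiable ℂ (fun w : ℂ => G (1, w)) :=
    (hG.cd.differentiable (by norm_num)).comp ((differentiable_const 1).prodMk differentiable_id)
  have hcr : ∀ q : ℂ × ℂ, Differentiable ℂ (fun w : ℂ => cr (G (1, w)) q) := by
    intro q
    unfold cr
    exact (hd.fst.mul_const q.2).sub (hd.snd.mul_const q.1)
  set q₀ := G (1, 0) with hq₀
  have hq₀0 : q₀ ≠ 0 := hG.ne _ (inf_ne 0)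
  set u : ℂ → ℂ := fun w => cr (G (1, w)) q₀ with hu
  have hu0 : u 0 = 0 := cr_self _
  have hder : deriv u 0 = 0 := by
    by_contra hne
    apply h
    obtain ⟨q₁, hq₁⟩ := exists_cr hq₀0
    set D : ℂ → ℂ := fun w => cr (G (1, w)) q₁ with hD
    have hD0 : D 0 ≠ 0 := hq₁
    have hq : AnalyticAt ℂ (fun w => u w / D w) 0 :=
      ((hcr q₀).analyticAt 0).div ((hcr q₁).analyticAt 0) hD0
    have hqd : deriv (fun w => u w / D w) 0 ≠ 0 := by
      have h1 := ((hcr q₀) 0).hasDerivAt.div ((hcr q₁) 0).hasDerivAt hD0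
      have h2 : deriv (fun w => u w / D w) 0 = _ := h1.deriv
      rw [h2]
      refine div_ne_zero ?_ (pow_ne_zero 2 hD0)
      have h3 : cr (G (1, 0)) q₀ = 0 := cr_self _
      rw [h3, zero_mul, sub_zero]
      exact mul_ne_zero hne hD0
    have hs : HasStrictDerivAt (fun w => u w / D w) (deriv (fun w => u w / D w) 0) 0 :=
      hq.hasStrictDerivAt
    obtain ⟨V, hV, hVi⟩ : ∃ V ∈ 𝓝 (0 : ℂ), InjOn (fun w => u w / D w) V := by
      have hs' := hs.hasStrictFDerivAt_equiv hqd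
      exact ⟨_, (hs'.toOpenPartialHomeomorph _).open_source.mem_nhds
        hs'.mem_toOpenPartialHomeomorph_source, (hs'.toOpenPartialHomeomorph _).injOn⟩
    have hDV : {w : ℂ | D w ≠ 0} ∈ 𝓝 (0 : ℂ) := (hcr q₁).continuous.continuousAt.eventually_ne hD0
    refine ⟨_, image_nhds_inf (inter_mem hV hDV), ?_⟩
    rintro _ ⟨w, ⟨hwV, hwD⟩, rfl⟩ _ ⟨w', ⟨hwV', hwD'⟩, rfl⟩ hww
    have hw1 := hG.ne _ (inf_ne w)
    have hw2 := hG.ne _ (inf_ne w')
    rw [hG.eq _ (inf_ne w), hG.eq _ (inf_ne w'), pr_eq_iff hw1 hw2, cr_eq_zero_iff hw1 hw2] at hww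
    obtain ⟨s, hs0, hsw⟩ := hww
    have h4 : u w / D w = u w' / D w' := by
      simp only [hu, hD, hsw, cr_smul_left]
      exact mul_div_mul_left _ _ hs0
    rw [hVi hwV hwV' h4]
  -- the double zero
  have hds : DifferentiableAt ℂ (dslope u 0) 0 := by
    have h1 : DifferentiableOn ℂ (dslope u 0) univ :=
      (Complex.differentiableOn_dslope univ_mem).2 (hcr q₀).differentiableOn
    exact h1.differentiableAt univ_mem
  have h1 : (fun w => dslope u 0 w - dslope u 0 0) =O[𝓝 0] fun w => w - 0 := hds.isBigO_sub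
  have h2 : (fun w : ℂ => (w - 0) * (dslope u 0 w - dslope u 0 0)) =O[𝓝 0]
      fun w => (w - 0) * (w - 0) := (isBigO_refl _ _).mul h1
  refine h2.congr (fun w => ?_) (fun w => ?_)
  · have h3 : dslope u 0 0 = 0 := by rw [dslope_same, hder]
    have h4 := sub_smul_dslope u 0 w
    rw [smul_eq_mul] at h4
    show (w - 0) * (dslope u 0 w - dslope u 0 0) = u w
    rw [h3]
    linear_combination h4 - hu0
  · rw [sub_zero]; ring

theorem expand_inf {g : Sph → Sph} (hg : Hol g) (h : ¬ LocInj g ∞) (hinf : g ∞ = ∞) :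
    ∃ ρ : ℝ, 0 < ρ ∧ ∀ z : ℂ, ρ ≤ ‖z‖ → ∀ v : ℂ, g (z : Sph) = (v : Sph) → 4 * ‖z‖ ≤ ‖v‖ := by
  obtain ⟨G, hG⟩ := hg.lift
  have htan := tangent hG h
  have hq := hG.ne _ (inf_ne 0)
  have h2 : (G (1, 0)).2 = 0 := by
    by_contra hne
    have h1 := hG.eq _ (inf_ne 0)
    rw [pr_inf, hinf, pr_ne hne] at h1
    exact OnePoint.infty_ne_coe _ h1
  have h1 : (G (1, 0)).1 ≠ 0 := fun h1 => hq (Prod.ext h1 h2)
  set a := (G (1, 0)).1 with ha
  have hapos : 0 < ‖a‖ := norm_pos_iff.2 h1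
  obtain ⟨C, hC0, hC⟩ := htan.exists_pos
  rw [IsBigOWith] at hC
  have hcont : ContinuousAt (fun w : ℂ => (G (1, w)).1) 0 := by
    have : Continuous (fun w : ℂ => (G (1, w)).1) :=
      (hG.cd.continuous.comp (by fun_prop)).fst
    exact this.continuousAt
  have hnear : ∀ᶠ w in 𝓝 (0 : ℂ), ‖a‖ / 2 < ‖(G (1, w)).1‖ :=
    hcont.norm.eventually (lt_mem_nhds (by show ‖a‖ / 2 < ‖a‖; linarith))
  obtain ⟨δ, hδ, hδ'⟩ := Metric.eventually_nhds_iff.1 (hC.and hnear)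
  refine ⟨max (2 / δ) (8 * C / ‖a‖ ^ 2) + 1, by positivity, fun z hz v hv => ?_⟩
  have hz1 : 2 / δ < ‖z‖ := lt_of_lt_of_le (by linarith [le_max_left (2 / δ) (8 * C / ‖a‖ ^ 2)]) hz
  have hz2 : 8 * C / ‖a‖ ^ 2 < ‖z‖ :=
    lt_of_lt_of_le (by linarith [le_max_right (2 / δ) (8 * C / ‖a‖ ^ 2)]) hz
  have hz0 : 0 < ‖z‖ := lt_trans (by positivity) hz1
  have hzne : z ≠ 0 := norm_pos_iff.1 hz0
  have hwδ : dist z⁻¹ 0 < δ := by
    rw [dist_zero_right, norm_inv, inv_lt_iff_one_lt_mul₀ hz0]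
    rw [div_lt_iff₀ hδ] at hz1
    linarith
  obtain ⟨h3, h4⟩ := hδ' hwδ
  have h5 : cr (G (1, z⁻¹)) (G (1, 0)) = -(a * (G (1, z⁻¹)).2) := by
    unfold cr
    rw [h2, ← ha]
    ring
  rw [h5, norm_neg, norm_mul, norm_pow, norm_inv] at h3
  -- the value
  have h6 := hG.eq _ (inf_ne z⁻¹)
  rw [pr_inv hzne, hv] at h6
  have h7 : (G (1, z⁻¹)).2 ≠ 0 := by
    intro h0
    rw [pr_zero h0] at h6
    exact OnePoint.coe_ne_infty _ h6
  rw [pr_ne h7] at h6
  have h8 : v = (G (1, z⁻¹)).1 / (G (1, z⁻¹)).2 := OnePoint.coe_injective h6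
  have h9 : 0 < ‖(G (1, z⁻¹)).2‖ := norm_pos_iff.2 h7
  rw [h8, norm_div, le_div_iff₀ h9]
  set b := ‖(G (1, z⁻¹)).2‖ with hb
  -- b ≤ C / (|a| |z|^2)
  have h10 : b ≤ C / (‖a‖ * ‖z‖ ^ 2) := by
    rw [le_div_iff₀ (by positivity)]
    have : ‖a‖ * b * ‖z‖ ^ 2 ≤ C * (‖z‖⁻¹ ^ 2) * ‖z‖ ^ 2 := by gcongr
    have e : C * (‖z‖⁻¹ ^ 2) * ‖z‖ ^ 2 = C := by
      field_simp
    linarith
  have h11 : 4 * ‖z‖ * b ≤ ‖a‖ / 2 := by
    calc 4 * ‖z‖ * b ≤ 4 * ‖z‖ * (C / (‖a‖ * ‖z‖ ^ 2)) := by gcongr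
      _ = 4 * C / (‖a‖ * ‖z‖) := by field_simp
      _ ≤ ‖a‖ / 2 := by
        rw [div_le_iff₀ (by positivity)]
        rw [div_lt_iff₀ (by positivity)] at hz2
        nlinarith
  linarith

end Pool.Agent.R239.Fat
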