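import Mathlib

/-! A counting argument: there are two words such that all the points created by one of them are
absorbed by the other one. -/

set_option autoImplicit false

open Filter Topology

namespace Pool.Agent.R239.Fat

section comb

open scoped Classical

variable {X ι : Type}

/-- apply the letters of a word, the first letter first -/
def act (Φ : ι → X → X) : List ι → X → X
  | [] => id
  | b :: L => act Φ L ∘ Φ b

/-- the points created by the word: the letter `b` creates the points of `E b`, which are moved by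
the next letters -/
noncomputable def ent (Φ : ι → X → X) (E : ι → Finset X) : List ι → Finset X
  | [] => ∅
  | b :: L => (E b).image (act Φ L) ∪ ent Φ E L

theorem act_mem {Φ : ι → X → X} {A : Set X} (hA : ∀ b, ∀ x ∈ A, Φ b x ∈ A) (L : List ι) :
    ∀ x ∈ A, act Φ L x ∈ A := by
  induction L with
  | nil => intro x hx; exact hx
  | cons b L ih => intro x hx; exact ih _ (hA b x hx)

variable [Fintype ι]

/-- sum over all words of length `m` -/
def SW : ℕ → (List ι → ℕ) → ℕ
  | 0, φ => φ []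
  | m + 1, φ => ∑ b, SW m fun L => φ (b :: L)

theorem SW_mono (m : ℕ) : ∀ {φ ψ : List ι → ℕ}, (∀ L, L.length = m → φ L ≤ ψ L) →
    SW m φ ≤ SW m ψ := by
  induction m with
  | zero => intro φ ψ h; exact h [] rfl
  | succ m ih =>
    intro φ ψ h
    exact Finset.sum_le_sum fun b _ => ih fun L hL => h (b :: L) (by simp [hL])

theorem SW_const (m : ℕ) (c : ℕ) : SW (ι := ι) m (fun _ => c) = Fintype.card ι ^ m * c := by
  induction m with
  | zero => simp [SW]
  | succ m ih =>
    show ∑ _b : ι, SW m (fun _ => c) = _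
    rw [ih]
    simp [pow_succ]
    ring

theorem SW_add (m : ℕ) : ∀ φ ψ : List ι → ℕ, SW m (fun L => φ L + ψ L) = SW m φ + SW m ψ := by
  induction m with
  | zero => intro φ ψ; rfl
  | succ m ih =>
    intro φ ψ
    show ∑ b, SW m (fun L => φ (b :: L) + ψ (b :: L)) = _
    simp only [ih, Finset.sum_add_distrib]
    rfl

theorem SW_sum {Y : Type} (s : Finset Y) (m : ℕ) : ∀ f : Y → List ι → ℕ,
    SW m (fun L => ∑ y ∈ s, f y L) = ∑ y ∈ s, SW m (f y) := by
  induction m with
  | zero => intro f; rfl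
  | succ m ih =>
    intro f
    show ∑ b, SW m (fun L => ∑ y ∈ s, f y (b :: L)) = _
    simp only [ih]
    rw [Finset.sum_comm]
    rfl

theorem SW_mul_left (m : ℕ) (c : ℕ) : ∀ φ : List ι → ℕ, SW m (fun L => c * φ L) = c * SW m φ := by
  induction m with
  | zero => intro φ; rfl
  | succ m ih =>
    intro φ
    show ∑ b, SW m (fun L => c * φ (b :: L)) = c * ∑ b, SW m fun L => φ (b :: L)
    simp only [ih, Finset.mul_sum]

theorem SW_comm (m k : ℕ) : ∀ f : List ι → List ι → ℕ,
    SW m (fun u => SW k (f u)) = SW k fun v => SW m fun u => f u v := by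
  induction m with
  | zero => intro f; rfl
  | succ m ih =>
    intro f
    show ∑ b, SW m (fun L => SW k (f (b :: L))) = SW k fun v => ∑ b, SW m fun L => f (b :: L) v
    rw [SW_sum]
    exact Finset.sum_congr rfl fun b _ => ih fun L => f (b :: L)

theorem SW_exists {m c : ℕ} {φ : List ι → ℕ} (h : SW m φ < Fintype.card ι ^ m * c) :
    ∃ L : List ι, L.length = m ∧ φ L < c := by
  by_contra hcon
  push Not at hcon
  have h1 := SW_mono m (φ := fun _ => c) (ψ := φ) hcon
  rw [SW_const] at h1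
  omega

theorem SW_bad {Φ : ι → X → X} {A : Set X} (hA : ∀ b, ∀ x ∈ A, Φ b x ∈ A)
    (hr : ∀ x, ∃ b, Φ b x ∈ A) (m : ℕ) : ∀ x : X,
    SW m (fun L => if act Φ L x ∈ A then 0 else 1) ≤ (Fintype.card ι - 1) ^ m := by
  induction m with
  | zero =>
    intro x
    show (if act Φ [] x ∈ A then 0 else 1) ≤ _
    split_ifs <;> simp
  | succ m ih =>
    intro x
    obtain ⟨b₀, hb₀⟩ := hr x
    have h1 : SW (m + 1) (fun L => if act Φ L x ∈ A then 0 else 1) =
        ∑ b, SW m fun L => if act Φ L (Φ b x) ∈ A then 0 else 1 := rfl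
    have h2 : SW m (fun L => if act Φ L (Φ b₀ x) ∈ A then 0 else 1) = 0 := by
      have h3 : (fun L => if act Φ L (Φ b₀ x) ∈ A then 0 else 1) = fun _ : List ι => 0 := by
        funext L
        rw [if_pos (act_mem hA L _ hb₀)]
      rw [h3, SW_const, mul_zero]
    rw [h1, ← Finset.add_sum_erase _ _ (Finset.mem_univ b₀), h2, zero_add]
    refine (Finset.sum_le_card_nsmul _ _ _ fun b _ => ih (Φ b x)).trans ?_
    rw [Finset.card_erase_of_mem (Finset.mem_univ b₀), Finset.card_univ, smul_eq_mul, pow_succ,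
      mul_comm]

omit [Fintype ι] in
theorem card_ent {Φ : ι → X → X} {E : ι → Finset X} {B : ℕ} (hB : ∀ b, (E b).card ≤ B)
    (L : List ι) : (ent Φ E L).card ≤ L.length * B := by
  induction L with
  | nil => simp [ent]
  | cons b L ih =>
    show ((E b).image (act Φ L) ∪ ent Φ E L).card ≤ _
    refine (Finset.card_union_le _ _).trans ?_
    have h1 : ((E b).image (act Φ L)).card ≤ B := Finset.card_image_le.trans (hB b)
    rw [List.length_cons]
    nlinarith

theorem two_words [Nonempty ι] {Φ : ι → X → X} {A : Set X} (hA : ∀ b, ∀ x ∈ A, Φ b x ∈ A)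
    (hr : ∀ x, ∃ b, Φ b x ∈ A) (E : ι → Finset X) {K : ℕ} (p : Fin K → X → X)
    (Ep : Fin K → Finset X) :
    ∃ m₀ : ℕ, ∀ m, m₀ ≤ m → ∀ j, ∃ u v : List ι, u.length = m ∧ v.length = m ∧
      (∀ x ∈ ent Φ E u, act Φ v x ∈ A) ∧ (∀ x ∈ ent Φ E v, act Φ u (p j x) ∈ A) ∧
      ∀ x ∈ Ep j, act Φ u x ∈ A := by
  set q := Fintype.card ι with hq
  have hq1 : 1 ≤ q := Fintype.card_pos
  set B := ∑ b, (E b).card with hB
  set B' := ∑ j, (Ep j).card with hB'
  have hBb : ∀ b, (E b).card ≤ B := fun b =>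
    Finset.single_le_sum (f := fun b => (E b).card) (fun _ _ => Nat.zero_le _) (Finset.mem_univ b)
  have hBj : ∀ j, (Ep j).card ≤ B' := fun j =>
    Finset.single_le_sum (f := fun j => (Ep j).card) (fun _ _ => Nat.zero_le _) (Finset.mem_univ j)
  -- the numerical inequality
  obtain ⟨m₀, hm₀⟩ : ∃ m₀ : ℕ, ∀ m, m₀ ≤ m → (2 * (m * B) + B') * (q - 1) ^ m < q ^ m := by
    have hqR : (0 : ℝ) < q := by exact_mod_cast hq1
    have hq0 : (0 : ℝ) ≤ (q - 1 : ℝ) / q := by
      have : (1 : ℝ) ≤ q := by exact_mod_cast hq1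
      exact div_nonneg (by linarith) hqR.le
    have hq2 : (q - 1 : ℝ) / q < 1 := by rw [div_lt_one hqR]; linarith
    have h1 : Tendsto (fun m : ℕ => (m : ℝ) * ((q - 1 : ℝ) / q) ^ m) atTop (𝓝 0) :=
      tendsto_self_mul_const_pow_of_lt_one hq0 hq2
    have h1' : Tendsto (fun m : ℕ => ((q - 1 : ℝ) / q) ^ m) atTop (𝓝 0) :=
      tendsto_pow_atTop_nhds_zero_of_lt_one hq0 hq2
    have h2 : Tendsto (fun m : ℕ => 2 * (B : ℝ) * ((m : ℝ) * ((q - 1 : ℝ) / q) ^ m) +
        (B' : ℝ) * ((q - 1 : ℝ) / q) ^ m) atTop (𝓝 (2 * (B : ℝ) * 0 + (B' : ℝ) * 0)) :=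
      (h1.const_mul _).add (h1'.const_mul _)
    rw [mul_zero, mul_zero, add_zero] at h2
    obtain ⟨m₀, hm₀⟩ := eventually_atTop.1 (h2.eventually (gt_mem_nhds one_pos))
    refine ⟨m₀, fun m hm => ?_⟩
    have h3 := hm₀ m hm
    have h4 : ((2 * ((m : ℝ) * B) + B') * (q - 1 : ℝ) ^ m) < (q : ℝ) ^ m := by
      rw [div_pow] at h3
      have hqm : (0 : ℝ) < (q : ℝ) ^ m := by positivity
      have h5 : 2 * (B : ℝ) * ((m : ℝ) * ((q - 1 : ℝ) ^ m / (q : ℝ) ^ m)) +
          (B' : ℝ) * ((q - 1 : ℝ) ^ m / (q : ℝ) ^ m) =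
          ((2 * ((m : ℝ) * B) + B') * (q - 1 : ℝ) ^ m) / (q : ℝ) ^ m := by ring
      rw [h5, div_lt_one hqm] at h3
      exact h3
    have h6 : (((2 * (m * B) + B') * (q - 1) ^ m : ℕ) : ℝ) =
        (2 * ((m : ℝ) * B) + B') * (q - 1 : ℝ) ^ m := by
      push_cast [Nat.cast_sub hq1]
      ring
    have h7 : (((2 * (m * B) + B') * (q - 1) ^ m : ℕ) : ℝ) < ((q ^ m : ℕ) : ℝ) := by
      rw [h6]; push_cast; exact h4
    exact_mod_cast h7
  refine ⟨m₀, fun m hm j => ?_⟩
  set f : List ι → List ι → ℕ := fun u v => ∑ x ∈ ent Φ E u, if act Φ v x ∈ A then 0 else 1 with hf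
  set f' : List ι → List ι → ℕ := fun u v => ∑ x ∈ ent Φ E v, if act Φ u (p j x) ∈ A then 0 else 1
    with hf'
  set f'' : List ι → ℕ := fun u => ∑ x ∈ Ep j, if act Φ u x ∈ A then 0 else 1 with hf''
  have hb1 : SW m (fun u => SW m (f u)) ≤ q ^ m * ((m * B) * (q - 1) ^ m) := by
    rw [← SW_const]
    refine SW_mono m fun u hu => ?_
    rw [hf]
    simp only
    rw [SW_sum]
    refine (Finset.sum_le_card_nsmul _ _ _ fun x _ => SW_bad hA hr m x).trans ?_
    rw [smul_eq_mul]
    have := card_ent (Φ := Φ) hBb u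
    rw [hu] at this
    exact Nat.mul_le_mul_right _ this
  have hb2 : SW m (fun u => SW m fun v => f' u v) ≤ q ^ m * ((m * B) * (q - 1) ^ m) := by
    rw [SW_comm m m (fun u v => f' u v), ← SW_const]
    refine SW_mono m fun v hv => ?_
    rw [hf']
    simp only
    rw [SW_sum]
    refine (Finset.sum_le_card_nsmul _ _ _ fun x _ => SW_bad hA hr m (p j x)).trans ?_
    rw [smul_eq_mul]
    have := card_ent (Φ := Φ) hBb v
    rw [hv] at this
    exact Nat.mul_le_mul_right _ this
  have hb3 : SW m (fun u => SW (ι := ι) m fun _ => f'' u) ≤ q ^ m * (B' * (q - 1) ^ m) := by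
    have h1 : (fun u => SW (ι := ι) m fun _ => f'' u) = fun u => q ^ m * f'' u := by
      funext u
      rw [SW_const]
    rw [h1, SW_mul_left]
    refine Nat.mul_le_mul_left _ ?_
    rw [hf'', SW_sum]
    refine (Finset.sum_le_card_nsmul _ _ _ fun x _ => SW_bad hA hr m x).trans ?_
    rw [smul_eq_mul]
    exact Nat.mul_le_mul_right _ (hBj j)
  have htot : SW m (fun u => SW m fun v => f u v + (f' u v + f'' u)) < q ^ m * q ^ m := by
    have h1 : SW m (fun u => SW m fun v => f u v + (f' u v + f'' u)) =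
        SW m (fun u => SW m (f u)) + (SW m (fun u => SW m fun v => f' u v) +
          SW m (fun u => SW (ι := ι) m fun _ => f'' u)) := by
      rw [← SW_add, ← SW_add]
      congr 1
      funext u
      rw [SW_add m (f u) fun v => f' u v + f'' u, SW_add m (fun v => f' u v) fun _ => f'' u]
    rw [h1]
    have h2 := hm₀ m hm
    have hqm : 0 < q ^ m := Nat.pow_pos hq1
    calc _ ≤ q ^ m * ((m * B) * (q - 1) ^ m) + (q ^ m * ((m * B) * (q - 1) ^ m) +
          q ^ m * (B' * (q - 1) ^ m)) := add_le_add hb1 (add_le_add hb2 hb3)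
      _ = q ^ m * ((2 * (m * B) + B') * (q - 1) ^ m) := by ring
      _ < q ^ m * q ^ m := Nat.mul_lt_mul_of_pos_left h2 hqm
  obtain ⟨u, hu, hu'⟩ := SW_exists htot
  have hu'' : SW m (fun v => f u v + (f' u v + f'' u)) < Fintype.card ι ^ m * 1 := by
    rw [mul_one]; exact hu'
  obtain ⟨v, hv, hv'⟩ := SW_exists hu''
  have h0 : f u v = 0 ∧ f' u v = 0 ∧ f'' u = 0 := by omega
  refine ⟨u, v, hu, hv, fun x hx => ?_, fun x hx => ?_, fun x hx => ?_⟩
  · have h1 := (Finset.sum_eq_zero_iff.1 h0.1) x hx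
    by_contra hcon
    rw [if_neg hcon] at h1
    exact one_ne_zero h1
  · have h1 := (Finset.sum_eq_zero_iff.1 h0.2.1) x hx
    by_contra hcon
    rw [if_neg hcon] at h1
    exact one_ne_zero h1
  · have h1 := (Finset.sum_eq_zero_iff.1 h0.2.2) x hx
    by_contra hcon
    rw [if_neg hcon] at h1
    exact one_ne_zero h1

end comb

end Pool.Agent.R239.Fat
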