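import Mathlib
import Pool.Agent.R239.Fat.T3
import Pool.Agent.R239.Fat.T4

/-! Kicked compositions of maps with an attracting fixed point at infinity. -/

set_option autoImplicit false

open Topology Filter Metric Set
open scoped OnePoint

namespace Pool.Agent.R239.Fat

/-- compositions of total weight `n` of maps `m` of weight `k` with the property `P k m` -/
inductive CompW (P : ℕ → (Sph → Sph) → Prop) : ℕ → (Sph → Sph) → Prop
  | zero : CompW P 0 id
  | succ {n k : ℕ} {G m : Sph → Sph} : CompW P n G → P k m → CompW P (n + k) (m ∘ G)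

section CompW

variable {P P' : ℕ → (Sph → Sph) → Prop}

theorem CompW.append {n n' : ℕ} {G G' : Sph → Sph} (h : CompW P n G) (h' : CompW P n' G') :
    CompW P (n + n') (G' ∘ G) := by
  induction h' with
  | zero => exact h
  | succ _ hm ih =>
    have h1 := CompW.succ ih hm
    rw [Nat.add_assoc] at h1
    exact h1

theorem CompW.mono (hP : ∀ k m, P k m → P' k m) {n : ℕ} {G : Sph → Sph} (h : CompW P n G) :
    CompW P' n G := by
  induction h with
  | zero => exact CompW.zero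
  | succ _ hm ih => exact CompW.succ ih (hP _ _ hm)

theorem CompW.hol (hP : ∀ k m, P k m → Hol m) {n : ℕ} {G : Sph → Sph} (h : CompW P n G) :
    Hol G := by
  induction h with
  | zero => exact Hol.id
  | succ _ hm ih => exact ih.comp (hP _ _ hm)

theorem CompW.one {k : ℕ} {m : Sph → Sph} (h : P k m) : CompW P k m := by
  have h1 := CompW.succ CompW.zero h
  rw [Nat.zero_add] at h1
  exact h1

theorem CompW.block {Q : (Sph → Sph) → Prop} {n : ℕ} {G : Sph → Sph} (h : CompW P n G)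
    (hP : ∀ k m, P k m → Comp Q k m) : Comp Q n G := by
  induction h with
  | zero => exact Comp.zero
  | succ _ hm ih => exact ih.append (hP _ _ hm)

theorem CompW.zero_eq (hP : ∀ k m, P k m → k ≠ 0) {n : ℕ} {G : Sph → Sph} (h : CompW P n G)
    (hn : n = 0) : G = id := by
  cases h with
  | zero => rfl
  | succ _ hm => exact absurd (by omega : _ = 0) (hP _ _ hm)

end CompW

/-- maps followed by small translations -/
def TStep (Γ : ℕ → (Sph → Sph) → Prop) (ε : ℝ) (k : ℕ) (m : Sph → Sph) : Prop :=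
  ∃ g, Γ k g ∧ ∃ β : ℂ, ‖β‖ < ε ∧ m = tr β ∘ g

section

variable {Γ : ℕ → (Sph → Sph) → Prop} {ρ ε : ℝ}

theorem TStep.mono {ε' : ℝ} (h : ε ≤ ε') {k : ℕ} {m : Sph → Sph} (hm : TStep Γ ε k m) :
    TStep Γ ε' k m := by
  obtain ⟨g, hg, β, hβ, rfl⟩ := hm
  exact ⟨g, hg, β, hβ.trans_le h, rfl⟩

theorem TStep.hol (hΓ : ∀ k g, Γ k g → Hol g) {k : ℕ} {m : Sph → Sph} (hm : TStep Γ ε k m) :
    Hol m := by
  obtain ⟨g, hg, β, -, rfl⟩ := hm
  exact (hΓ k g hg).comp (hol_tr β)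

theorem tstep_zero (hε : 0 < ε) {k : ℕ} {g : Sph → Sph} (hg : Γ k g) : TStep Γ ε k g :=
  ⟨g, hg, 0, by simpa using hε, by funext x; exact (tr_zero _).symm⟩

theorem comp_margin (hε : 0 < ε) {n : ℕ} {G : Sph → Sph}
    (h : CompW (TStep Γ ε) n G) : ∃ ε₁, 0 < ε₁ ∧ ε₁ < ε ∧ CompW (TStep Γ ε₁) n G := by
  induction h with
  | zero => exact ⟨ε / 2, by linarith, by linarith, CompW.zero⟩
  | @succ n k G m _ hm ih =>
    obtain ⟨ε₁, h1, h2, h3⟩ := ih
    obtain ⟨g, hg, β, hβ, rfl⟩ := hm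
    refine ⟨max ε₁ ((‖β‖ + ε) / 2), lt_of_lt_of_le h1 (le_max_left _ _), max_lt h2 (by linarith), ?_⟩
    refine CompW.succ (h3.mono fun k m hm => hm.mono (le_max_left _ _)) ⟨g, hg, β, ?_, rfl⟩
    exact lt_of_lt_of_le (by linarith) (le_max_right _ _)

/-- points which cannot be sent to the neighbourhood of infinity by kicks -/
def KK (Γ : ℕ → (Sph → Sph) → Prop) (ε R : ℝ) : Set Sph :=
  {x | ∀ n G, CompW (TStep Γ ε) n G → ¬ Big R (G x)}

/-- the neighbourhood of the image of `KK` -/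
def WW (Γ : ℕ → (Sph → Sph) → Prop) (ε R : ℝ) : Set ℂ :=
  {w | ∃ x ∈ KK Γ ε R, ∃ k g, Γ k g ∧ ∃ u : ℂ, g x = (u : Sph) ∧ ‖w - u‖ < ε}

/-- the absorbing set -/
def AA (Γ : ℕ → (Sph → Sph) → Prop) (ε R : ℝ) : Set Sph :=
  {x | Big R x} ∪ (fun z : ℂ => (z : Sph)) '' WW Γ ε R

theorem KK_step {R : ℝ} {x : Sph} (hx : x ∈ KK Γ ε R) {k : ℕ} {m : Sph → Sph}
    (hm : TStep Γ ε k m) : m x ∈ KK Γ ε R := by
  intro n G hG
  exact hx _ _ ((CompW.one hm).append hG)

theorem KK_fin {R : ℝ} {x : Sph} (hx : x ∈ KK Γ ε R) : ∃ z : ℂ, x = (z : Sph) ∧ ‖z‖ ≤ R := by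
  have h1 : ¬ Big R x := hx 0 id CompW.zero
  unfold Big at h1
  push Not at h1
  exact h1

theorem WW_open {R : ℝ} : IsOpen (WW Γ ε R) := by
  rw [Metric.isOpen_iff]
  rintro w ⟨x, hx, k, g, hg, u, hu, hwu⟩
  refine ⟨ε - ‖w - u‖, by linarith, fun v hv => ⟨x, hx, k, g, hg, u, hu, ?_⟩⟩
  rw [mem_ball, dist_eq_norm] at hv
  have := norm_sub_le_norm_sub_add_norm_sub v w u
  linarith

theorem WW_KK {R : ℝ} {w : ℂ} (hw : w ∈ WW Γ ε R) : (w : Sph) ∈ KK Γ ε R := by
  obtain ⟨x, hx, k, g, hg, u, hu, hwu⟩ := hw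
  have h1 := KK_step hx (m := tr (w - u) ∘ g) ⟨g, hg, _, hwu, rfl⟩
  simp only [Function.comp_apply, hu, tr_coe] at h1
  rw [show u + (w - u) = w by ring] at h1
  exact h1

theorem KK_ball (hε : 0 < ε) {R : ℝ} {x : Sph} (hx : x ∈ KK Γ ε R) {k : ℕ} {g : Sph → Sph}
    (hg : Γ k g) : ∃ u : ℂ, g x = (u : Sph) ∧ ball u ε ⊆ WW Γ ε R := by
  obtain ⟨u, hu, -⟩ := KK_fin (KK_step hx (tstep_zero hε hg))
  refine ⟨u, hu, fun v hv => ⟨x, hx, k, g, hg, u, hu, ?_⟩⟩
  rwa [mem_ball, dist_eq_norm] at hv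

theorem AA_open {R : ℝ} : IsOpen (AA Γ ε R) :=
  (big_open R).union (OnePoint.isOpenEmbedding_coe.isOpenMap _ WW_open)

theorem WW_step (hε : 0 < ε) {R : ℝ} {w : ℂ} (hw : w ∈ WW Γ ε R) {k : ℕ} {m : Sph → Sph}
    (hm : TStep Γ ε k m) : ∃ w' ∈ WW Γ ε R, m (w : Sph) = (w' : Sph) := by
  obtain ⟨g, hg, β, hβ, rfl⟩ := hm
  obtain ⟨u, hu, hb⟩ := KK_ball hε (WW_KK hw) hg
  refine ⟨u + β, hb (by rw [mem_ball, dist_eq_norm, add_sub_cancel_left]; exact hβ), ?_⟩
  simp only [Function.comp_apply, hu, tr_coe]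

theorem WW_comp (hε : 0 < ε) {R : ℝ} {n : ℕ} {G : Sph → Sph} (hG : CompW (TStep Γ ε) n G) :
    ∀ w ∈ WW Γ ε R, ∃ w' ∈ WW Γ ε R, G (w : Sph) = (w' : Sph) := by
  induction hG with
  | zero => intro w hw; exact ⟨w, hw, rfl⟩
  | succ _ hm ih =>
    intro w hw
    obtain ⟨w', hw', h1⟩ := ih w hw
    obtain ⟨w'', hw'', h2⟩ := WW_step hε hw' hm
    exact ⟨w'', hw'', by simp only [Function.comp_apply, h1, h2]⟩

variable (hol : ∀ k g, Γ k g → Hol g) (hk : ∀ k g, Γ k g → k ≠ 0)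
  (hinf : ∀ k g, Γ k g → g ∞ = ∞) (hρ : 0 < ρ)
  (hexp : ∀ k g, Γ k g → ∀ z : ℂ, ρ ≤ ‖z‖ → ∀ v : ℂ, g (z : Sph) = (v : Sph) → 4 * ‖z‖ ≤ ‖v‖)

include hinf hexp in
theorem big_step {R : ℝ} (hR1 : ρ ≤ R) (hR2 : ε ≤ R) {a : ℝ} (ha : R ≤ a) {x : Sph}
    (hx : Big a x) {k : ℕ} {m : Sph → Sph} (hm : TStep Γ ε k m) : Big (3 * a) (m x) := by
  obtain ⟨g, hg, β, hβ, rfl⟩ := hm
  show Big (3 * a) (tr β (g x))
  induction x using OnePoint.rec with
  | infty => rw [hinf k g hg, tr_inf]; exact big_inf _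
  | coe z =>
    have hz : a < ‖z‖ := hx z rfl
    by_cases h : g (z : Sph) = ∞
    · rw [h, tr_inf]; exact big_inf _
    · obtain ⟨v, hv⟩ := OnePoint.ne_infty_iff_exists.1 h
      rw [← hv, tr_coe, big_coe]
      have h1 := hexp k g hg z (by linarith) v hv.symm
      have h2 := norm_sub_norm_le v (-β)
      rw [norm_neg, sub_neg_eq_add] at h2
      linarith

include hinf hρ hexp in
theorem big_comp {R : ℝ} (hR1 : ρ ≤ R) (hR2 : ε ≤ R) {n : ℕ} {G : Sph → Sph}
    (hG : CompW (TStep Γ ε) n G) : ∀ a, R ≤ a → ∀ x, Big a x → Big a (G x) := by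
  induction hG with
  | zero => intro a _ x hx; exact hx
  | @succ n k G m _ hm ih =>
    intro a ha x hx
    have h3 := big_step hinf hexp hR1 hR2 ha (ih a ha x hx) hm
    exact big_mono (by linarith) h3

include hinf hρ hexp in
theorem big_comp3 {R : ℝ} (hR1 : ρ ≤ R) (hR2 : ε ≤ R) {n : ℕ} (hn : n ≠ 0) {G : Sph → Sph}
    (hG : CompW (TStep Γ ε) n G) : ∀ a, R ≤ a → ∀ x, Big a x → Big (3 * a) (G x) := by
  intro a ha x hx
  cases hG with
  | zero => exact absurd rfl hn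
  | succ hG' hm =>
    exact big_step hinf hexp hR1 hR2 ha (big_comp hinf hρ hexp hR1 hR2 hG' a ha x hx) hm

include hinf hρ hexp in
theorem AA_comp (hε : 0 < ε) {R : ℝ} (hR1 : ρ ≤ R) (hR2 : ε ≤ R) {n : ℕ} {G : Sph → Sph}
    (hG : CompW (TStep Γ ε) n G) : ∀ x ∈ AA Γ ε R, G x ∈ AA Γ ε R := by
  rintro x (hx | ⟨w, hw, rfl⟩)
  · exact Or.inl (big_comp hinf hρ hexp hR1 hR2 hG R le_rfl x hx)
  · right
    obtain ⟨w', hw', h1⟩ := WW_comp hε hG w hw
    exact ⟨w', hw', h1.symm⟩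

include hol hinf hρ hexp in
/-- all points of the absorbing set are attracted by the compositions -/
theorem AA_att (hε : 0 < ε) {R : ℝ} (hR1 : ρ ≤ R) (hR2 : ε ≤ R) {n : ℕ}
    (hn : n ≠ 0) {G : Sph → Sph} (hG : CompW (TStep Γ ε) n G) : ∀ x ∈ AA Γ ε R, Att G x := by
  have hR : 0 < R := by linarith
  have hGh : Hol G := hG.hol fun k m hm => hm.hol hol
  rintro x (hx | ⟨w, hw, rfl⟩)
  · -- escaping
    have h1 : ∀ x, Big R x → ∀ k : ℕ, Big (3 ^ k * R) (G^[k] x) := by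
      intro x hx k
      induction k with
      | zero => simpa using hx
      | succ k ih =>
        rw [Function.iterate_succ_apply']
        have h2 : R ≤ 3 ^ k * R := by
          have : (1 : ℝ) ≤ 3 ^ k := one_le_pow₀ (by norm_num)
          nlinarith
        have h3 := big_comp3 hinf hρ hexp hR1 hR2 hn hG _ h2 _ ih
        rw [pow_succ]
        have e : (3 : ℝ) ^ k * 3 * R = 3 * (3 ^ k * R) := by ring
        rw [e]
        exact h3
    have h2 : ∀ x, Big R x → Tendsto (fun k : ℕ => G^[1 * k] x) atTop (𝓝 ∞) := by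
      intro x hx
      rw [_root_.tendsto_nhds]
      intro U hU hmem
      obtain ⟨a, -, ha⟩ := nhds_big (hU.mem_nhds hmem)
      have h3 : Tendsto (fun k : ℕ => (3 : ℝ) ^ k * R) atTop atTop :=
        (tendsto_pow_atTop_atTop_of_one_lt (by norm_num : (1 : ℝ) < 3)).atTop_mul_const hR
      filter_upwards [h3.eventually_ge_atTop a] with k hk
      show G^[1 * k] x ∈ U
      rw [one_mul]
      exact ha _ (big_mono hk (h1 x hx k))
    refine ⟨∞, 1, one_pos, ?_, ⟨_, big_nhds R, fun w hw => h2 w hw⟩, h2 x hx⟩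
    have h3 : ∀ a, R ≤ a → Big a (G ∞) := fun a ha =>
      big_comp hinf hρ hexp hR1 hR2 hG a ha ∞ (big_inf a)
    rw [Function.iterate_one]
    by_contra hne
    obtain ⟨v, hv⟩ := OnePoint.ne_infty_iff_exists.1 hne
    have h4 := h3 (max R ‖v‖) (le_max_left _ _) v hv.symm
    exact absurd h4 (not_lt.2 (le_max_right _ _))
  · -- robustly trapped
    obtain ⟨ε₁, h1, h2, h3⟩ := comp_margin hε hG
    refine sph_att hGh WW_open hR (R := R) ?_ (r := ε - ε₁) (by linarith) ?_ hw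
    · intro z hz
      obtain ⟨z', h4, h5⟩ := KK_fin (WW_KK hz)
      rw [OnePoint.coe_injective h4]
      exact h5
    · intro z hz
      cases h3 with
      | zero => exact absurd rfl hn
      | @succ n k G' m hG' hm =>
        obtain ⟨w', hw', h4⟩ := WW_comp hε (hG'.mono fun k m hm => hm.mono h2.le) z hz
        obtain ⟨g, hg, β, hβ, rfl⟩ := hm
        obtain ⟨u, hu, hb⟩ := KK_ball hε (WW_KK hw') hg
        refine ⟨u + β, ?_, fun v hv => hb ?_⟩
        · simp only [Function.comp_apply, h4, hu, tr_coe]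
        · rw [mem_ball, dist_eq_norm] at hv ⊢
          have h5 : v - u = (v - (u + β)) + β := by ring
          rw [h5]
          have := norm_add_le (v - (u + β)) β
          linarith

theorem reach_AA (hε : 0 < ε) {R : ℝ} {k : ℕ} {g : Sph → Sph} (hg : Γ k g) (x : Sph) :
    ∃ n G, CompW (TStep Γ ε) n G ∧ G x ∈ AA Γ ε R := by
  by_cases hx : x ∈ KK Γ ε R
  · obtain ⟨u, hu, hb⟩ := KK_ball hε hx hg
    exact ⟨k, g, CompW.one (tstep_zero hε hg), Or.inr ⟨u, hb (mem_ball_self hε), hu.symm⟩⟩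
  · unfold KK at hx
    simp only [Set.mem_ofPred_eq, not_forall, not_not] at hx
    obtain ⟨n, G, hG, h⟩ := hx
    exact ⟨n, G, hG, Or.inl h⟩

variable {n₁ : ℕ} (hpad : ∀ n, n₁ ≤ n → ∃ G, CompW (TStep Γ ε) n G)

include hol hinf hρ hexp hpad in
/-- finitely many compositions of the same weight absorb all points -/
theorem letters {k₀ : ℕ} {g₀ : Sph → Sph} (hg₀ : Γ k₀ g₀) (hε : 0 < ε) {R : ℝ} (hR1 : ρ ≤ R)
    (hR2 : ε ≤ R) :
    ∃ (n₀ q : ℕ) (Φ : Fin (q + 1) → Sph → Sph), n₀ ≠ 0 ∧ (∀ b, CompW (TStep Γ ε) n₀ (Φ b)) ∧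
      ∀ x, ∃ b, Φ b x ∈ AA Γ ε R := by
  choose n G hG hx using fun x => reach_AA (Γ := Γ) hε (R := R) hg₀ x
  have hcov : ∀ x ∈ (univ : Set Sph), G x ⁻¹' AA Γ ε R ∈ 𝓝 x := fun x _ =>
    ((hG x).hol fun k m hm => hm.hol hol).cont.continuousAt.preimage_mem_nhds
      (AA_open.mem_nhds (hx x))
  obtain ⟨t, -, ht⟩ := isCompact_univ.elim_nhds_subcover _ hcov
  set n₀ := t.sup n + n₁ + 1 with hn₀
  have hne : t.Nonempty := by
    by_contra hcon
    rw [Finset.not_nonempty_iff_eq_empty] at hcon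
    rw [hcon] at ht
    simpa using ht (mem_univ (∞ : Sph))
  obtain ⟨q, hq⟩ : ∃ q, t.card = q + 1 := ⟨t.card - 1, by
    have := Finset.card_pos.2 hne; omega⟩
  let e : Fin (q + 1) ≃ t := (finCongr hq.symm).trans t.equivFin.symm
  have hle : ∀ b, n (e b) ≤ t.sup n := fun b => Finset.le_sup (f := n) (e b).2
  choose P hP using fun b => hpad (n₀ - n (e b)) (by have := hle b; omega)
  refine ⟨n₀, q, fun b => P b ∘ G (e b), by omega, fun b => ?_, fun x => ?_⟩
  · have h1 := hle b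
    have h2 := (hG (e b)).append (hP b)
    have h3 : n (e b) + (n₀ - n (e b)) = n₀ := by omega
    rw [h3] at h2
    exact h2
  · have h1 := ht (mem_univ x)
    rw [mem_iUnion₂] at h1
    obtain ⟨y, hy, hxy⟩ := h1
    refine ⟨e.symm ⟨y, hy⟩, ?_⟩
    have h2 : G (e (e.symm ⟨y, hy⟩)) x ∈ AA Γ ε R := by
      rw [Equiv.apply_symm_apply]
      exact hxy
    exact AA_comp hinf hρ hexp hε hR1 hR2 (hP _) _ h2

include hol hinf hρ hexp hpad in
/-- Kicked compositions of maps with an attracting fixed point at infinity are hyperbolic for a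
suitable choice of the kicks. -/
theorem step2 {k₀ : ℕ} {g₀ : Sph → Sph} (hg₀ : Γ k₀ g₀) (hε : 0 < ε) :
    ∃ N₀ : ℕ, ∀ N, N₀ ≤ N → ∃ G, CompW (TStep Γ ε) N G ∧ Hyp G := by
  classical
  set R := max ρ ε with hR
  have hR1 : ρ ≤ R := le_max_left _ _
  have hR2 : ε ≤ R := le_max_right _ _
  obtain ⟨n₀, q, Φ, hn₀, hΦ, habs⟩ := letters hol hinf hρ hexp hpad hg₀ hε hR1 hR2
  have holc : ∀ {n : ℕ} {G : Sph → Sph}, CompW (TStep Γ ε) n G → Hol G := fun hG =>
    hG.hol fun k m hm => hm.hol hol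
  have hΦh : ∀ b, Hol (Φ b) := fun b => holc (hΦ b)
  have hA : ∀ b, ∀ x ∈ AA Γ ε R, Φ b x ∈ AA Γ ε R := fun b =>
    AA_comp hinf hρ hexp hε hR1 hR2 (hΦ b)
  choose E hE using fun b => (hΦh b).fcv
  -- the final pads
  choose p hp using fun j : Fin (2 * n₀) => hpad (n₁ + (j : ℕ)) (by omega)
  have hph : ∀ j, Hol (p j) := fun j => holc (hp j)
  choose Ep hEp using fun j => (hph j).fcv
  obtain ⟨m₀, hm₀⟩ := two_words hA habs E p Ep
  have hcomp : ∀ L : List (Fin (q + 1)), CompW (TStep Γ ε) (n₀ * L.length) (act Φ L) := by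
    intro L
    induction L with
    | nil => exact CompW.zero
    | cons b L ih =>
      have h1 := (hΦ b).append ih
      have h2 : n₀ + n₀ * L.length = n₀ * (b :: L).length := by
        rw [List.length_cons]; ring
      rw [h2] at h1
      exact h1
  have hcrit : ∀ (L : List (Fin (q + 1))) (x : Sph), ¬ LocInj (act Φ L) x →
      act Φ L x ∈ ent Φ E L := by
    intro L
    induction L with
    | nil =>
      intro x hx
      exact absurd (locInj_of_injective Function.injective_id x) hx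
    | cons b L ih =>
      intro x hx
      by_cases h1 : LocInj (Φ b) x
      · have h2 : ¬ LocInj (act Φ L) (Φ b x) := fun h2 => hx (locInj_comp (hΦh b).cont h1 h2)
        exact Finset.mem_union_right _ (ih _ h2)
      · exact Finset.mem_union_left _ (Finset.mem_image_of_mem _ (hE b x h1))
  refine ⟨n₁ + 2 * n₀ * (m₀ + 1), fun N hN => ?_⟩
  set m := (N - n₁) / (2 * n₀) with hm
  set s := (N - n₁) % (2 * n₀) with hs
  have hdiv : 2 * n₀ * m + s = N - n₁ := Nat.div_add_mod _ _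
  have hs2 : s < 2 * n₀ := Nat.mod_lt _ (by omega)
  have hmm : m₀ ≤ m := by
    rw [hm, Nat.le_div_iff_mul_le (by omega)]
    have : 2 * n₀ * (m₀ + 1) = m₀ * (2 * n₀) + 2 * n₀ := by ring
    omega
  have hN0 : N ≠ 0 := by
    have : 0 < 2 * n₀ * (m₀ + 1) := by positivity
    omega
  obtain ⟨u, v, hu, hv, h1, h2, h3⟩ := hm₀ m hmm ⟨s, hs2⟩
  set j : Fin (2 * n₀) := ⟨s, hs2⟩ with hj
  have hG : CompW (TStep Γ ε) N (p j ∘ act Φ v ∘ act Φ u) := by
    have h4 := ((hcomp u).append (hcomp v)).append (hp j)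
    rw [hu, hv] at h4
    have h5 : n₀ * m + n₀ * m + (n₁ + (j : ℕ)) = N := by
      have : n₀ * m + n₀ * m = 2 * n₀ * m := by ring
      have h6 : (j : ℕ) = s := rfl
      have : 0 < 2 * n₀ * (m₀ + 1) := by positivity
      omega
    rw [h5] at h4
    exact h4
  refine ⟨_, hG, ?_⟩
  have hGc : Continuous (p j ∘ act Φ v ∘ act Φ u) := (holc hG).cont
  have hatt := AA_att hol hinf hρ hexp hε hR1 hR2 hN0 hG
  have hpA : ∀ x ∈ AA Γ ε R, p j x ∈ AA Γ ε R := AA_comp hinf hρ hexp hε hR1 hR2 (hp j)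
  intro x hx
  by_cases h4 : LocInj (act Φ u) x
  · apply att_of_iter hGc (m := 2)
    apply hatt
    show p j (act Φ v (act Φ u (p j (act Φ v (act Φ u x))))) ∈ AA Γ ε R
    apply hpA
    apply act_mem hA v
    by_cases h5 : LocInj (act Φ v) (act Φ u x)
    · have h6 : ¬ LocInj (p j) (act Φ v (act Φ u x)) := fun h6 =>
        hx (locInj_comp (h := p j) ((holc (hcomp v)).cont.comp (holc (hcomp u)).cont)
          (locInj_comp (holc (hcomp u)).cont h4 h5) h6)
      exact h3 _ (hEp j _ h6)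
    · exact h2 _ (hcrit v _ h5)
  · apply att_of_iter hGc (m := 1)
    apply hatt
    show p j (act Φ v (act Φ u x)) ∈ AA Γ ε R
    exact hpA _ (h1 _ (hcrit u _ h4))

end

end Pool.Agent.R239.Fat
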