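import Mathlib
import Pool.Agent.R239.Fat.T5

/-! Kicks can move a point which is not attracted to any other point; loops through a critical
point which is not attracted. -/

set_option autoImplicit false

open Topology Filter Metric Set
open scoped OnePoint
open Pool.Agent.H790R3.RB (pr cr cr_self cr_smul_left)
open Pool.Agent.H790R3.RB.SP (pr_zero pr_ne pr_eq_iff)

namespace Pool.Agent.R239.Fat

/-- `f` followed by a Moebius map with matrix of determinant one, `ε`-close to the identity -/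
def MStep (f : Sph → Sph) (ε : ℝ) (m : Sph → Sph) : Prop :=
  ∃ a b c e : ℂ, a * e - b * c = 1 ∧ ‖a - 1‖ < ε ∧ ‖b‖ < ε ∧ ‖c‖ < ε ∧ ‖e - 1‖ < ε ∧
    m = mob a b c e ∘ f

theorem MStep.mono {f : Sph → Sph} {ε ε' : ℝ} (h : ε ≤ ε') {m : Sph → Sph} (hm : MStep f ε m) :
    MStep f ε' m := by
  obtain ⟨a, b, c, e, h1, h2, h3, h4, h5, rfl⟩ := hm
  exact ⟨a, b, c, e, h1, h2.trans_le h, h3.trans_le h, h4.trans_le h, h5.trans_le h, rfl⟩

theorem MStep.self (f : Sph → Sph) {ε : ℝ} (hε : 0 < ε) : MStep f ε f :=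
  ⟨1, 0, 0, 1, by ring, by simpa using hε, by simpa using hε, by simpa using hε,
    by simpa using hε, by funext x; exact (mob_one _).symm⟩

theorem MStep.iter (f : Sph → Sph) {ε : ℝ} (hε : 0 < ε) (n : ℕ) : Comp (MStep f ε) n f^[n] := by
  induction n with
  | zero => exact Comp.zero
  | succ n ih =>
    rw [Function.iterate_succ']
    exact Comp.succ ih (MStep.self f hε)

theorem MStep.hol {f : Sph → Sph} (hf : Hol f) {ε : ℝ} {m : Sph → Sph} (h : MStep f ε m) :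
    Hol m := by
  obtain ⟨a, b, c, e, h1, -, -, -, -, rfl⟩ := h
  exact hf.comp (hol_mob (by rw [h1]; exact one_ne_zero))

theorem MStep.factor {f : Sph → Sph} {ε : ℝ} {n : ℕ} {G : Sph → Sph}
    (h : Comp (MStep f ε) n G) (hn : n ≠ 0) : ∃ R : Sph → Sph, G = R ∘ f := by
  induction h with
  | zero => exact absurd rfl hn
  | @succ n G m hG hm ih =>
    rcases Nat.eq_zero_or_pos n with rfl | hn0
    · cases hG
      obtain ⟨a, b, c, e, h1, -, -, -, -, rfl⟩ := hm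
      exact ⟨_, rfl⟩
    · obtain ⟨R, rfl⟩ := ih hn0.ne'
      exact ⟨m ∘ R, rfl⟩

theorem mob_smul {s a b c e : ℂ} (hs : s ≠ 0) (h : a * e - b * c ≠ 0) (x : Sph) :
    mob (s * a) (s * b) (s * c) (s * e) x = mob a b c e x := by
  obtain ⟨p, hp, rfl⟩ := exists_pr x
  have h' : s * a * (s * e) - s * b * (s * c) ≠ 0 := by
    have : s * a * (s * e) - s * b * (s * c) = s * s * (a * e - b * c) := by ring
    rw [this]
    exact mul_ne_zero (mul_ne_zero hs hs) h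
  rw [mob_pr h' hp, mob_pr h hp, pr_eq_iff (lin_ne h' hp) (lin_ne h hp)]
  have e1 : ((s * a * p.1 + s * b * p.2, s * c * p.1 + s * e * p.2) : ℂ × ℂ) =
      s • ((a * p.1 + b * p.2, c * p.1 + e * p.2) : ℂ × ℂ) :=
    Prod.ext (by simp; ring) (by simp; ring)
  rw [e1, cr_smul_left, cr_self, mul_zero]

theorem hdet (z : ℂ) : (0 : ℂ) * (-z) - 1 * 1 ≠ 0 := by norm_num

/-- the Moebius map `1 / (x - z)` -/
noncomputable def hz (z : ℂ) : Sph ≃ₜ Sph := mobH 0 1 1 (-z) (hdet z)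

theorem hz_apply (z : ℂ) : hz z (z : Sph) = ∞ := by
  show mob 0 1 1 (-z) (z : Sph) = ∞
  exact mob_coe_inf (hdet z) (by ring)

theorem hz_conj (z : ℂ) {a b c e : ℂ} (h : a * e - b * c = 1) (x : Sph) :
    (hz z).symm (mob a b c e (hz z x)) =
      mob (e + b * z) (c + z * (a - e) - b * z ^ 2) b (a - b * z) x := by
  show mob (-z) (-1) (-1) 0 (mob a b c e (mob 0 1 1 (-z) x)) = _
  have h1 : a * e - b * c ≠ 0 := by rw [h]; exact one_ne_zero
  have h2 : (-z) * 0 - (-1 : ℂ) * (-1) ≠ 0 := by norm_num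
  have h3 : (a * 0 + b * 1) * (c * 1 + e * (-z)) - (a * 1 + b * (-z)) * (c * 0 + e * 1) ≠ 0 := by
    have : (a * 0 + b * 1) * (c * 1 + e * (-z)) - (a * 1 + b * (-z)) * (c * 0 + e * 1) =
        -(a * e - b * c) := by ring
    rw [this, h]
    norm_num
  rw [mob_mul h1 (hdet z), mob_mul h2 h3]
  have h4 : (e + b * z) * (a - b * z) - (c + z * (a - e) - b * z ^ 2) * b ≠ 0 := by
    have : (e + b * z) * (a - b * z) - (c + z * (a - e) - b * z ^ 2) * b = a * e - b * c := by ring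
    rw [this]; exact h1
  rw [← mob_smul (s := -1) (by norm_num) h4]
  congr 1 <;> ring

theorem mstep_conj (z : ℂ) {f : Sph → Sph} {η ε : ℝ} (hη : η * (1 + ‖z‖) ^ 2 ≤ ε) (hη0 : 0 < η)
    {m : Sph → Sph} (hm : MStep (fun y => hz z (f ((hz z).symm y))) η m) :
    MStep f ε (fun y => (hz z).symm (m ((hz z).symm.symm y))) := by
  obtain ⟨a, b, c, e, h1, h2, h3, h4, h5, rfl⟩ := hm
  have hz0 : 0 ≤ ‖z‖ := norm_nonneg z
  have hsq : η * (1 + ‖z‖) ^ 2 = η + 2 * (η * ‖z‖) + η * ‖z‖ ^ 2 := by ring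
  have p1 : 0 ≤ η * ‖z‖ := by positivity
  have p2 : 0 ≤ η * ‖z‖ ^ 2 := by positivity
  have hbz : ‖b * z‖ ≤ η * ‖z‖ := by
    rw [norm_mul]; exact mul_le_mul_of_nonneg_right h3.le hz0
  refine ⟨e + b * z, c + z * (a - e) - b * z ^ 2, b, a - b * z, ?_, ?_, ?_, ?_, ?_, ?_⟩
  · linear_combination h1
  · have : e + b * z - 1 = (e - 1) + b * z := by ring
    rw [this]
    have := norm_add_le (e - 1) (b * z)
    linarith
  · have h6 : ‖a - e‖ ≤ 2 * η := by
      have : a - e = (a - 1) - (e - 1) := by ring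
      rw [this]
      have := norm_sub_le (a - 1) (e - 1)
      linarith
    have h7 : ‖z * (a - e)‖ ≤ 2 * (η * ‖z‖) := by
      rw [norm_mul]
      nlinarith
    have h8 : ‖b * z ^ 2‖ ≤ η * ‖z‖ ^ 2 := by
      rw [norm_mul, norm_pow]
      exact mul_le_mul_of_nonneg_right h3.le (by positivity)
    have h9 := norm_sub_le (c + z * (a - e)) (b * z ^ 2)
    have h10 := norm_add_le c (z * (a - e))
    linarith
  · linarith
  · have : a - b * z - 1 = (a - 1) - b * z := by ring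
    rw [this]
    have := norm_sub_le (a - 1) (b * z)
    linarith
  · funext y
    have h6 := hz_conj z h1 (f y)
    show (hz z).symm (mob a b c e (hz z (f ((hz z).symm ((hz z).symm.symm y))))) = _
    rw [Homeomorph.symm_symm, Homeomorph.symm_apply_apply, h6]
    rfl

theorem hol_conj (z : ℂ) {f : Sph → Sph} (hf : Hol f) :
    Hol (fun y => hz z (f ((hz z).symm y))) := by
  have h1 : Hol (hz z : Sph → Sph) := hol_mob (hdet z)
  have h2 : Hol ((hz z).symm : Sph → Sph) := hol_mob (by norm_num : (-z) * 0 - (-1 : ℂ) * (-1) ≠ 0)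
  exact (h2.comp hf).comp h1

theorem kstep_mstep {F : Sph → Sph} {η : ℝ} (hη : 0 < η) {m : Sph → Sph} (hm : KStep F η m) :
    MStep F η m := by
  obtain ⟨κ, ⟨β, hβ, rfl | rfl⟩, rfl⟩ := hm
  · exact ⟨1, β, 0, 1, by ring, by simpa using hη, hβ, by simpa using hη, by simpa using hη, rfl⟩
  · exact ⟨1, 0, β, 1, by ring, by simpa using hη, by simpa using hη, hβ, by simpa using hη, rfl⟩

theorem tr_mstep {F : Sph → Sph} {η : ℝ} (hη : 0 < η) (hη1 : η ≤ 1) {m : Sph → Sph}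
    (hm : MStep F η m) {β : ℂ} (hβ : ‖β‖ < η) : MStep F (3 * η) (tr β ∘ m) := by
  obtain ⟨a, b, c, e, h1, h2, h3, h4, h5, rfl⟩ := hm
  refine ⟨a + β * c, b + β * e, c, e, by linear_combination h1, ?_, ?_, by linarith, by linarith, ?_⟩
  · have h6 : a + β * c - 1 = (a - 1) + β * c := by ring
    rw [h6]
    have h7 := norm_add_le (a - 1) (β * c)
    have h8 : ‖β * c‖ ≤ η := by
      rw [norm_mul]; nlinarith [norm_nonneg β, norm_nonneg c]
    linarith
  · have h6 : b + β * e = b + (β + β * (e - 1)) := by ring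
    rw [h6]
    have h7 := norm_add_le b (β + β * (e - 1))
    have h9 := norm_add_le β (β * (e - 1))
    have h8 : ‖β * (e - 1)‖ ≤ η := by
      rw [norm_mul]; nlinarith [norm_nonneg β, norm_nonneg (e - 1)]
    linarith
  · funext x
    show tr β (mob a b c e (F x)) = mob (a + β * c) (b + β * e) c e (F x)
    unfold tr
    rw [mob_mul (det_tr β) (by rw [h1]; exact one_ne_zero)]
    congr 1 <;> ring

/-- If kicks cannot bring `x` to infinity then its orbit is robustly trapped. -/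
theorem trap {f : Sph → Sph} {ε : ℝ} (hε : 0 < ε) (x : Sph)
    (hno : ∀ n G, n ≠ 0 → Comp (KStep f ε) n G → G x ≠ ∞) :
    ∃ W : Set ℂ, IsOpen W ∧ (∀ z ∈ W, ‖z‖ ≤ 1 / ε + ε) ∧
      (∀ z ∈ W, ∃ u : ℂ, f (z : Sph) = (u : Sph) ∧ ball u ε ⊆ W) ∧
      ∃ u₀ ∈ W, f x = (u₀ : Sph) ∧ ball u₀ ε ⊆ W := by
  have hfin : ∀ n G, Comp (KStep f ε) n G → ∃ u : ℂ, f (G x) = (u : Sph) ∧ ‖u‖ ≤ 1 / ε := by
    intro n G hG
    have h1 : f (G x) ≠ ∞ := by
      have h2 := hno (n + 1) _ (by omega)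
        (Comp.succ hG ⟨tr 0, ⟨0, by simpa using hε, Or.inl rfl⟩, rfl⟩)
      simpa only [Function.comp_apply, tr_zero] using h2
    obtain ⟨u, hu⟩ := OnePoint.ne_infty_iff_exists.1 h1
    refine ⟨u, hu.symm, ?_⟩
    by_contra h3
    push Not at h3
    have hu0 : u ≠ 0 := by
      rintro rfl
      rw [norm_zero] at h3
      have : 0 < 1 / ε := by positivity
      linarith
    have hun : 0 < ‖u‖ := norm_pos_iff.2 hu0
    have h4 : ‖-u⁻¹‖ < ε := by
      rw [norm_neg, norm_inv]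
      rw [div_lt_iff₀ hε] at h3
      rw [inv_lt_iff_one_lt_mul₀ hun]
      linarith
    have h5 := hno (n + 1) _ (by omega) (Comp.succ hG ⟨sh (-u⁻¹), ⟨_, h4, Or.inr rfl⟩, rfl⟩)
    apply h5
    show sh (-u⁻¹) (f (G x)) = ∞
    rw [← hu]
    exact mob_coe_inf (det_sh _) (by field_simp; ring)
  set W : Set ℂ := {w : ℂ | ∃ n G, Comp (KStep f ε) n G ∧ ∃ u : ℂ, f (G x) = (u : Sph) ∧
    ‖w - u‖ < ε} with hW
  have hWo : IsOpen W := by
    rw [Metric.isOpen_iff]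
    rintro w ⟨n, G, hG, u, hu, hwu⟩
    refine ⟨ε - ‖w - u‖, by linarith, fun v hv => ⟨n, G, hG, u, hu, ?_⟩⟩
    rw [mem_ball, dist_eq_norm] at hv
    have := norm_sub_le_norm_sub_add_norm_sub v w u
    linarith
  obtain ⟨u₀, hu₀, -⟩ := hfin 0 id Comp.zero
  have hu₀W : u₀ ∈ W := ⟨0, id, Comp.zero, u₀, hu₀, by simpa using hε⟩
  refine ⟨W, hWo, ?_, ?_, u₀, hu₀W, hu₀, fun v hv => ⟨0, id, Comp.zero, u₀, hu₀, ?_⟩⟩
  · rintro w ⟨n, G, hG, u, hu, hwu⟩
    obtain ⟨u', hu', hb⟩ := hfin n G hG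
    rw [hu] at hu'
    rw [← OnePoint.coe_injective hu'] at hb
    have := norm_le_norm_add_norm_sub u w
    rw [← norm_neg (u - w), neg_sub] at this
    linarith
  · rintro w ⟨n, G, hG, u, hu, hwu⟩
    have h2 : Comp (KStep f ε) (n + 1) ((tr (w - u) ∘ f) ∘ G) :=
      Comp.succ hG ⟨_, ⟨_, hwu, Or.inl rfl⟩, rfl⟩
    have h3 : ((tr (w - u) ∘ f) ∘ G) x = (w : Sph) := by
      simp only [Function.comp_apply, hu, tr_coe]
      congr 1
      ring
    obtain ⟨u', hu', -⟩ := hfin _ _ h2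
    refine ⟨u', by rw [← h3]; exact hu', fun v hv => ⟨_, _, h2, u', hu', ?_⟩⟩
    rwa [mem_ball, dist_eq_norm] at hv
  · rwa [mem_ball, dist_eq_norm] at hv

/-- A point which is not attracted can be moved to infinity. -/
theorem to_inf {f : Sph → Sph} (hf : Hol f) {x : Sph} (hx : ¬ Att f x) {ε : ℝ} (hε : 0 < ε) :
    ∃ n G, n ≠ 0 ∧ Comp (KStep f ε) n G ∧ G x = ∞ := by
  by_contra hcon
  push Not at hcon
  obtain ⟨W, hW, hb, h, u₀, hu₀, hfu, -⟩ := trap hε x hcon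
  apply hx
  apply att_of_iter hf.cont (m := 1)
  rw [Function.iterate_one, hfu]
  exact sph_att hf hW (R := 1 / ε + ε) (by positivity) hb hε h hu₀

/-- A fixed point which is not attracting can be moved to infinity. -/
theorem fix_to_inf {f : Sph → Sph} {G₀ : ℂ × ℂ → ℂ × ℂ} (hG₀ : Lift f G₀) {α : ℂ}
    (hα : f (α : Sph) = (α : Sph)) (hd : 1 ≤ ‖deriv (pl G₀) α‖) {ε : ℝ} (hε : 0 < ε) :
    ∃ n G, n ≠ 0 ∧ Comp (KStep f ε) n G ∧ G (α : Sph) = ∞ := by
  by_contra hcon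
  push Not at hcon
  obtain ⟨W, hW, hb, h, u₀, hu₀, hfu, hball⟩ := trap hε (α : Sph) hcon
  rw [hα] at hfu
  have hu : u₀ = α := (OnePoint.coe_injective hfu).symm
  rw [hu] at hu₀ hball
  set F := pl G₀ with hF
  have hFg : ∀ z ∈ W, ball (F z) ε ⊆ W := by
    intro z hz
    obtain ⟨u, h1, h2⟩ := h z hz
    rw [hF, (pl_spec hG₀ h1).2]
    exact h2
  have hFd : DifferentiableOn ℂ F W := by
    intro z hz
    obtain ⟨u, h1, -⟩ := h z hz
    exact (pl_diff hG₀.cd (pl_spec hG₀ h1).1).differentiableWithinAt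
  have hfix : F α = α := (pl_spec hG₀ hα).2
  have hR : (0 : ℝ) < 1 / ε + ε := by positivity
  set θ : ℝ := 1 / (1 + ε / (4 * (1 / ε + ε))) with hθ
  have hθ0 : 0 < θ := by positivity
  have hθ1 : θ < 1 := by
    rw [hθ, div_lt_one (by positivity)]
    have : 0 < ε / (4 * (1 / ε + ε)) := by positivity
    linarith
  have h1 : ∀ n : ℕ, 1 ≤ 4 * (1 / ε + ε) / ε * θ ^ n := by
    intro n
    have h2 := contract hW hR hb hFd hε hFg
      (y := α) (fun v hv => hball (ball_subset_ball (by linarith) hv)) n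
    have h3 : HasDerivAt F (deriv F α) α :=
      (hFd.differentiableAt (hW.mem_nhds hu₀)).hasDerivAt
    rw [(HasDerivAt.iterate α h3 hfix n).deriv, norm_pow] at h2
    exact (one_le_pow₀ hd).trans h2
  have h4 : Tendsto (fun n : ℕ => 4 * (1 / ε + ε) / ε * θ ^ n) atTop
      (𝓝 (4 * (1 / ε + ε) / ε * 0)) :=
    (tendsto_pow_atTop_nhds_zero_of_lt_one hθ0.le hθ1).const_mul _
  rw [mul_zero] at h4
  obtain ⟨n, hn⟩ := (h4.eventually (gt_mem_nhds one_pos)).exists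
  exact absurd (h1 n) (not_le.2 hn)

/-- A point which is not attracted can be moved to any given point of the plane. -/
theorem to_point {f : Sph → Sph} (hf : Hol f) {x : Sph} (hx : ¬ Att f x) (z : ℂ) {ε : ℝ}
    (hε : 0 < ε) : ∃ n G, n ≠ 0 ∧ Comp (MStep f ε) n G ∧ G x = (z : Sph) := by
  have hF : Hol (fun y => hz z (f ((hz z).symm y))) := hol_conj z hf
  have ha : ¬ Att (fun y => hz z (f ((hz z).symm y))) (hz z x) := by
    rw [att_conj_iff]; exact hx
  set η := ε / (1 + ‖z‖) ^ 2 with hη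
  have hη0 : 0 < η := by positivity
  obtain ⟨n, G, hn, hG, hGx⟩ := to_inf hF ha hη0
  refine ⟨n, _, hn, hG.conj (hz z).symm fun m hm => mstep_conj z ?_ hη0 (kstep_mstep hη0 hm), ?_⟩
  · rw [hη, div_mul_cancel₀ _ (by positivity)]
  · show (hz z).symm (G ((hz z).symm.symm x)) = (z : Sph)
    rw [Homeomorph.symm_symm, hGx, ← hz_apply z, Homeomorph.symm_apply_apply]

/-- Loops through the point at infinity of all large lengths. -/
theorem loops {F : Sph → Sph} (hF : Hol F) {G₀ : ℂ × ℂ → ℂ × ℂ} (hG₀ : Lift F G₀)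
    (ha : ¬ Att F ∞) {α : ℂ} (hα : F (α : Sph) = (α : Sph)) (hd : 1 ≤ ‖deriv (pl G₀) α‖) {η : ℝ}
    (hη : 0 < η) : ∃ T, T ≠ 0 ∧ ∀ j, ∃ G, Comp (MStep F η) (T + j) G ∧ G ∞ = ∞ ∧
      ∃ R : Sph → Sph, G = R ∘ F := by
  obtain ⟨n₁, G₁, hn₁, hG₁, h1⟩ := to_point hF ha α hη
  obtain ⟨n₂, G₂, hn₂, hG₂, h2⟩ := fix_to_inf hG₀ hα hd hη
  refine ⟨n₁ + n₂, by omega, fun j => ⟨G₂ ∘ F^[j] ∘ G₁, ?_, ?_, ?_⟩⟩
  · have h3 := (hG₁.append (MStep.iter F hη j)).append (hG₂.mono fun m hm => kstep_mstep hη hm)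
    have h4 : n₁ + j + n₂ = n₁ + n₂ + j := by ring
    rw [h4] at h3
    exact h3
  · show G₂ (F^[j] (G₁ ∞)) = ∞
    rw [h1, Function.iterate_fixed hα j, h2]
  · obtain ⟨R, rfl⟩ := MStep.factor hG₁ hn₁
    exact ⟨G₂ ∘ F^[j] ∘ R, rfl⟩

end Pool.Agent.R239.Fat
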