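import Mathlib
import Pool.Agent.R239.Fat.T6
import Pool.Agent.H790R3.RB.TPQ
import Pool.Agent.H790R3.RB.TCJ

/-! Rational maps: they are holomorphic maps of the sphere, conjugation, and the existence of a
fixed point which is not attracting. -/

set_option autoImplicit false

open Topology Filter Metric Set Polynomial
open scoped OnePoint
open Pool.Agent.H790R3.RB (CV hF ND sp pol hc)
open Pool.Agent.H790R3.RB.SP (pr_zero pr_ne pr_eq_iff pr_hc sp_pr sp_cont)
open Pool.Agent.H790R3.RB.PQ (hF_one hF_inf part1 sp_eval pol_natDegree)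

namespace Pool.Agent.R239.Fat

theorem lift_sp {d : ℕ} {x : CV d} (hx : ND x) : Lift (sp x) (hF x) := by
  refine ⟨?_, fun p hp h => hp (hx p h), fun p hp => sp_pr hx hp⟩
  exact (Pool.Agent.H790R3.RB.hF_contDiff d 1).comp (contDiff_const.prodMk contDiff_id)

theorem wronskian_ne {P Q : ℂ[X]} (h : IsCoprime P Q) (hd : 1 ≤ max P.natDegree Q.natDegree) :
    derivative P * Q - P * derivative Q ≠ 0 := by
  intro h0
  have h1 : wronskian P Q = 0 := by
    unfold wronskian
    linear_combination -h0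
  obtain ⟨h2, h3⟩ := h.wronskian_eq_zero_iff.1 h1
  have h4 := Polynomial.derivative_eq_zero.1 h2
  have h5 := Polynomial.derivative_eq_zero.1 h3
  rw [h4, h5] at hd
  simp at hd

theorem hol_sp {d : ℕ} (hd : 1 ≤ d) {x : CV d} (hx : ND x) : Hol (sp x) := by
  classical
  refine ⟨sp_cont hx, ⟨_, lift_sp hx⟩, ?_⟩
  obtain ⟨hcop, hmax⟩ := part1 hd x hx
  set P := pol x 0 with hP
  set Q := pol x 1 with hQ
  have hw := wronskian_ne hcop (by omega)
  have hQ0 : Q ≠ 0 := by
    intro h
    rw [h] at hcop hmax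
    have := natDegree_eq_zero_of_isUnit (isCoprime_zero_right.1 hcop)
    rw [this] at hmax
    simp at hmax
    omega
  refine ⟨(insert ∞ ((Q.roots.toFinset ∪ (derivative P * Q - P * derivative Q).roots.toFinset).image
    fun z : ℂ => (z : Sph))).image (sp x), fun y hy => Finset.mem_image_of_mem _ ?_⟩
  induction y using OnePoint.rec with
  | infty => exact Finset.mem_insert_self _ _
  | coe z =>
    refine Finset.mem_insert_of_mem (Finset.mem_image_of_mem _ ?_)
    by_contra hcon
    rw [Finset.mem_union, Multiset.mem_toFinset, Multiset.mem_toFinset, mem_roots hQ0,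
      mem_roots hw, not_or] at hcon
    obtain ⟨h1, h2⟩ := hcon
    have h1' : Q.eval z ≠ 0 := h1
    apply hy
    set φ : ℂ → ℂ := fun w => P.eval w / Q.eval w with hφ
    have hφd : HasStrictDerivAt φ
        (((derivative P).eval z * Q.eval z - P.eval z * (derivative Q).eval z) / Q.eval z ^ 2) z :=
      (P.hasStrictDerivAt z).div (Q.hasStrictDerivAt z) h1'
    have hne : ((derivative P).eval z * Q.eval z - P.eval z * (derivative Q).eval z) /
        Q.eval z ^ 2 ≠ 0 := by
      refine div_ne_zero ?_ (pow_ne_zero 2 h1')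
      intro h3
      apply h2
      rw [IsRoot, eval_sub, eval_mul, eval_mul]
      exact h3
    have hs' := hφd.hasStrictFDerivAt_equiv hne
    set V := (hs'.toOpenPartialHomeomorph _).source ∩ {w | Q.eval w ≠ 0} with hV
    have hVn : V ∈ 𝓝 z := inter_mem ((hs'.toOpenPartialHomeomorph _).open_source.mem_nhds
      hs'.mem_toOpenPartialHomeomorph_source) (Q.continuous.continuousAt.eventually_ne h1')
    refine ⟨_, nhds_coe hVn, ?_⟩
    rintro _ ⟨w, hw, rfl⟩ _ ⟨w', hw', rfl⟩ hww
    simp only at hww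
    rw [sp_eval x w hw.2, sp_eval x w' hw'.2] at hww
    have h3 : φ w = φ w' := OnePoint.coe_injective hww
    rw [(hs'.toOpenPartialHomeomorph _).injOn hw.1 hw'.1 h3]

/-- conjugates of rational maps are rational -/
theorem conj_sp {d : ℕ} {x : CV d} (hx : ND x) (z : ℂ) :
    ∃ y : CV d, ND y ∧ (fun s => hz z (sp x ((hz z).symm s))) = sp y := by
  obtain ⟨cj, -, -, -, -, hcj⟩ := Pool.Agent.H790R3.RB.CJ d
  set m : (ℂ × ℂ) × (ℂ × ℂ) := ((0, 1), (1, -z)) with hm
  have hform : ∀ p : ℂ × ℂ, hF (cj m x) p =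
      (0 * (hF x (-z * p.1 + -1 * p.2, -1 * p.1 + 0 * p.2)).1 +
        1 * (hF x (-z * p.1 + -1 * p.2, -1 * p.1 + 0 * p.2)).2,
       1 * (hF x (-z * p.1 + -1 * p.2, -1 * p.1 + 0 * p.2)).1 +
        -z * (hF x (-z * p.1 + -1 * p.2, -1 * p.1 + 0 * p.2)).2) := by
    intro p
    rw [hcj]
    have e1 : ((m.2.2 * p.1 - m.1.2 * p.2, m.1.1 * p.2 - m.2.1 * p.1) : ℂ × ℂ) =
        (-z * p.1 + -1 * p.2, -1 * p.1 + 0 * p.2) := by
      rw [hm]
      exact Prod.ext (by simp; ring) (by simp)
    rw [e1]
  have h2 : (-z) * 0 - (-1 : ℂ) * (-1) ≠ 0 := by norm_num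
  have hnd : ND (cj m x) := by
    intro p hp
    by_contra hne
    rw [hform] at hp
    have h3 := lin_ne h2 hne
    have h4 : hF x (-z * p.1 + -1 * p.2, -1 * p.1 + 0 * p.2) ≠ 0 := fun h => h3 (hx _ h)
    exact lin_ne (hdet z) h4 hp
  refine ⟨cj m x, hnd, ?_⟩
  funext s
  obtain ⟨p, hp, rfl⟩ := exists_pr s
  have h3 := lin_ne h2 hp
  have h4 : hF x (-z * p.1 + -1 * p.2, -1 * p.1 + 0 * p.2) ≠ 0 := fun h => h3 (hx _ h)
  show mob 0 1 1 (-z) (sp x (mob (-z) (-1) (-1) 0 (Pool.Agent.H790R3.RB.pr p))) = _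
  rw [mob_pr h2 hp, sp_pr hx h3, mob_pr (hdet z) h4, sp_pr hnd hp, hform]

theorem half_lt {l : ℂ} (h : ‖l‖ < 1) : 1 / 2 < (1 / (1 - l)).re := by
  have hne : 1 - l ≠ 0 := by
    intro h0
    have : l = 1 := by linear_combination -h0
    rw [this, norm_one] at h
    exact lt_irrefl _ h
  have hpos : 0 < Complex.normSq (1 - l) := Complex.normSq_pos.2 hne
  have h1 : Complex.normSq l < 1 := by
    rw [Complex.normSq_eq_norm_sq]
    nlinarith [norm_nonneg l]
  have h2 : (1 / (1 - l)).re = (1 - l).re / Complex.normSq (1 - l) := by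
    rw [one_div, Complex.inv_re]
  rw [h2, lt_div_iff₀ hpos]
  rw [Complex.normSq_apply] at h1
  rw [Complex.normSq_apply]
  simp only [Complex.sub_re, Complex.one_re, Complex.sub_im, Complex.one_im]
  nlinarith

/-- A rational map of degree at least two has a fixed point which is not attracting. -/
theorem exists_fix {d : ℕ} (hd : 2 ≤ d) {x : CV d} (hx : ND x) (hinf : sp x ∞ ≠ ∞) :
    ∃ α : ℂ, sp x (α : Sph) = (α : Sph) ∧ 1 ≤ ‖deriv (pl (hF x)) α‖ := by
  classical
  by_contra hcon
  push Not at hcon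
  obtain ⟨hcop, hmax⟩ := part1 (by omega : 1 ≤ d) x hx
  have hP : (pol x 0).natDegree ≤ d := pol_natDegree x 0
  have hQ : (pol x 1).natDegree ≤ d := pol_natDegree x 1
  have hpl : pl (hF x) = fun w => (pol x 0).eval w / (pol x 1).eval w := by
    funext w
    unfold pl
    rw [hF_one]
  set P := pol x 0 with hPdef
  set Q := pol x 1 with hQdef
  have hQd : Q.coeff d ≠ 0 := by
    intro h
    apply hinf
    rw [← pr_inf, sp_pr hx (inf_ne 0), hF_inf]
    rw [pr_inf]
    exact pr_zero (p := (P.coeff d, Q.coeff d)) h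
  have hQdeg : Q.natDegree = d := le_antisymm hQ (le_natDegree_of_ne_zero hQd)
  have hQ0 : Q ≠ 0 := by
    intro h
    apply hQd
    rw [h, coeff_zero]
  set T : ℂ[X] := X * Q - P with hT
  have hTc : T.coeff (d + 1) = Q.coeff d := by
    rw [hT, coeff_sub, coeff_X_mul, coeff_eq_zero_of_natDegree_lt (by omega : P.natDegree < d + 1),
      sub_zero]
  have hTle : T.natDegree ≤ d + 1 := by
    rw [hT]
    refine (natDegree_sub_le _ _).trans (max_le ?_ (by omega))
    refine natDegree_mul_le.trans ?_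
    rw [natDegree_X]
    omega
  have hTdeg : T.natDegree = d + 1 := le_antisymm hTle
    (le_natDegree_of_ne_zero (by rw [hTc]; exact hQd))
  have hT0 : T ≠ 0 := by
    intro h
    rw [h, natDegree_zero] at hTdeg
    omega
  have hTlc : T.leadingCoeff = Q.coeff d := by rw [leadingCoeff, hTdeg, hTc]
  -- the roots of `T`
  have hroot : ∀ α : ℂ, T.eval α = 0 → Q.eval α ≠ 0 ∧
      ‖deriv (pl (hF x)) α‖ < 1 ∧
      (derivative T).eval α = Q.eval α * (1 - deriv (pl (hF x)) α) := by
    intro α hα
    have h1 : P.eval α = α * Q.eval α := by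
      rw [hT, eval_sub, eval_mul, eval_X] at hα
      linear_combination -hα
    have h2 : Q.eval α ≠ 0 := by
      intro h0
      obtain ⟨a, b, hab⟩ := hcop
      have h3 := congrArg (eval α) hab
      rw [eval_add, eval_mul, eval_mul, h1, h0, eval_one] at h3
      simp at h3
    have h3 : sp x (α : Sph) = (α : Sph) := by
      rw [sp_eval x α h2]
      congr 1
      rw [div_eq_iff h2]
      exact h1
    have h4 : HasDerivAt (pl (hF x))
        (((derivative P).eval α * Q.eval α - P.eval α * (derivative Q).eval α) /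
          Q.eval α ^ 2) α := by
      rw [hpl]
      exact (P.hasDerivAt α).div (Q.hasDerivAt α) h2
    refine ⟨h2, hcon α h3, ?_⟩
    rw [h4.deriv, hT, derivative_sub, derivative_mul, derivative_X, one_mul, eval_sub, eval_add,
      eval_mul, eval_X, h1]
    field_simp
    ring
  have hnodup : T.roots.Nodup := by
    rw [Multiset.nodup_iff_count_le_one]
    intro α
    rw [count_roots]
    by_contra hlt
    push Not at hlt
    rw [one_lt_rootMultiplicity_iff_isRoot hT0] at hlt
    obtain ⟨h1, h2, h3⟩ := hroot α hlt.1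
    have h4 : (derivative T).eval α = 0 := hlt.2
    rw [h3] at h4
    rcases mul_eq_zero.1 h4 with h5 | h5
    · exact h1 h5
    · have h6 : deriv (pl (hF x)) α = 1 := by linear_combination -h5
      rw [h6, norm_one] at h2
      exact lt_irrefl _ h2
  set s : Finset ℂ := T.roots.toFinset with hs
  have hcard : s.card = d + 1 := by
    rw [hs, Multiset.toFinset_card_of_nodup hnodup,
      splits_iff_card_roots.1 (IsAlgClosed.splits T), hTdeg]
  have hprod : T = C (Q.coeff d) * Lagrange.nodal s id := by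
    have h1 := (IsAlgClosed.splits T).eq_prod_roots
    rw [hTlc] at h1
    have h2 : (Multiset.map (fun a => X - C a) T.roots).prod = Lagrange.nodal s id := by
      rw [Lagrange.nodal, Finset.prod_eq_multiset_prod, hs, Multiset.toFinset_val,
        hnodup.dedup]
      rfl
    rw [← h2]
    exact h1
  have hev : ∀ α ∈ s, (derivative T).eval α = Q.coeff d * ∏ b ∈ s.erase α, (α - b) := by
    intro α hα
    rw [hprod, derivative_C_mul, eval_C_mul]
    congr 1
    have := Lagrange.eval_nodal_derivative_eval_node_eq (v := (id : ℂ → ℂ)) hα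
    simp only [id] at this
    rw [this, Lagrange.eval_nodal]
    rfl
  have hsroot : ∀ α ∈ s, T.eval α = 0 := by
    intro α hα
    rw [hs, Multiset.mem_toFinset, mem_roots hT0] at hα
    exact hα
  have hQdg : Q.degree = d := by rw [degree_eq_natDegree hQ0, hQdeg]
  have hlead := Lagrange.leadingCoeff_eq_sum (s := s) (v := (id : ℂ → ℂ)) (P := Q)
    (Function.injective_id.injOn) (by rw [hcard, hQdg]; push_cast; rfl)
  rw [show Q.leadingCoeff = Q.coeff d by rw [leadingCoeff, hQdeg]] at hlead
  have hterm : ∀ α ∈ s, Q.eval (id α) / ∏ b ∈ s.erase α, (id α - id b) =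
      Q.coeff d * (1 / (1 - deriv (pl (hF x)) α)) := by
    intro α hα
    obtain ⟨h1, h2, h3⟩ := hroot α (hsroot α hα)
    rw [hev α hα] at h3
    have h4 : ∏ b ∈ s.erase α, (α - b) ≠ 0 := by
      rw [Finset.prod_ne_zero_iff]
      intro b hb
      exact sub_ne_zero.2 (Finset.ne_of_mem_erase hb).symm
    have h5 : 1 - deriv (pl (hF x)) α ≠ 0 := by
      intro h5
      rw [h5, mul_zero] at h3
      exact mul_ne_zero hQd h4 h3
    simp only [id]
    field_simp
    linear_combination -h3
  rw [Finset.sum_congr rfl hterm, ← Finset.mul_sum] at hlead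
  have hsum : ∑ α ∈ s, 1 / (1 - deriv (pl (hF x)) α) = 1 := by
    have h1 : Q.coeff d * (∑ α ∈ s, 1 / (1 - deriv (pl (hF x)) α) - 1) = 0 := by
      linear_combination -hlead
    rcases mul_eq_zero.1 h1 with h2 | h2
    · exact absurd h2 hQd
    · linear_combination h2
  have hre := congrArg Complex.re hsum
  rw [Complex.re_sum, Complex.one_re] at hre
  have hlt : ∑ α ∈ s, (1 / 2 : ℝ) < ∑ α ∈ s, (1 / (1 - deriv (pl (hF x)) α)).re := by
    refine Finset.sum_lt_sum_of_nonempty ?_ fun α hα =>
      half_lt (hroot α (hsroot α hα)).2.1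
    rw [← Finset.card_pos, hcard]
    omega
  rw [Finset.sum_const, hcard, hre, nsmul_eq_mul] at hlt
  have hd' : (2 : ℝ) ≤ d := by exact_mod_cast hd
  push_cast at hlt
  linarith

end Pool.Agent.R239.Fat
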