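import Mathlib
import Pool.Agent.R239.Fat.T6
import Pool.Agent.R239.Fat.T7

/-! Compositions of small perturbations of a rational map are hyperbolic for all large lengths. -/

set_option autoImplicit false

open Topology Filter Metric Set
open scoped OnePoint
open Pool.Agent.H790R3.RB (CV hF ND sp)

namespace Pool.Agent.R239.Fat

theorem att_inf {F : Sph → Sph} (hF : Hol F) (hc : ¬ LocInj F ∞) (h : F ∞ = ∞) : Att F ∞ := by
  obtain ⟨ρ, hρ, hexp⟩ := expand_inf hF hc h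
  let Γ : ℕ → (Sph → Sph) → Prop := fun k g => k = 1 ∧ g = F
  have hol : ∀ k g, Γ k g → Hol g := by rintro k g ⟨-, rfl⟩; exact hF
  have hinf : ∀ k g, Γ k g → g ∞ = ∞ := by rintro k g ⟨-, rfl⟩; exact h
  have hexp' : ∀ k g, Γ k g → ∀ z : ℂ, ρ ≤ ‖z‖ → ∀ v : ℂ, g (z : Sph) = (v : Sph) →
      4 * ‖z‖ ≤ ‖v‖ := by rintro k g ⟨-, rfl⟩; exact hexp
  exact AA_att (Γ := Γ) (ε := ρ) (R := ρ) hol hinf hρ hexp' hρ le_rfl le_rfl one_ne_zero
    (CompW.one (tstep_zero hρ ⟨rfl, rfl⟩)) ∞ (Or.inl (big_inf _))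

theorem main_inf {d : ℕ} (hd : 2 ≤ d) {x : CV d} (hx : ND x) (hc : ¬ LocInj (sp x) ∞)
    (ha : ¬ Att (sp x) ∞) {η : ℝ} (hη : 0 < η) (hη1 : η ≤ 1) :
    ∃ N₀ : ℕ, ∀ N, N₀ ≤ N → ∃ G, Comp (MStep (sp x) (3 * η)) N G ∧ Hyp G := by
  have hF : Hol (sp x) := hol_sp (by omega) hx
  have hne : sp x ∞ ≠ ∞ := fun h => ha (att_inf hF hc h)
  obtain ⟨α, hα, hdα⟩ := exists_fix hd hx hne
  obtain ⟨T, hT0, hT⟩ := loops hF (lift_sp hx) ha hα hdα hη
  obtain ⟨g₁, hg₁, hi₁, R₁, hR₁⟩ := hT 0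
  obtain ⟨g₂, hg₂, hi₂, R₂, hR₂⟩ := hT 1
  rw [Nat.add_zero] at hg₁
  have hMh : ∀ m, MStep (sp x) η m → Hol m := fun m hm => hm.hol hF
  have hh₁ : Hol g₁ := hg₁.hol hMh
  have hh₂ : Hol g₂ := hg₂.hol hMh
  have hnl : ∀ R : Sph → Sph, ¬ LocInj (R ∘ sp x) ∞ := by
    rintro R ⟨U, hU, hU'⟩
    exact hc ⟨U, hU, fun a h1 b h2 h3 => hU' h1 h2 (congrArg R h3)⟩
  obtain ⟨ρ₁, hρ₁, he₁⟩ := expand_inf hh₁ (by rw [hR₁]; exact hnl R₁) hi₁
  obtain ⟨ρ₂, hρ₂, he₂⟩ := expand_inf hh₂ (by rw [hR₂]; exact hnl R₂) hi₂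
  let Γ : ℕ → (Sph → Sph) → Prop := fun k g => (k = T ∧ g = g₁) ∨ (k = T + 1 ∧ g = g₂)
  have hol : ∀ k g, Γ k g → Hol g := by
    rintro k g (⟨-, rfl⟩ | ⟨-, rfl⟩)
    · exact hh₁
    · exact hh₂
  have hinf : ∀ k g, Γ k g → g ∞ = ∞ := by
    rintro k g (⟨-, rfl⟩ | ⟨-, rfl⟩)
    · exact hi₁
    · exact hi₂
  have hexp : ∀ k g, Γ k g → ∀ z : ℂ, max ρ₁ ρ₂ ≤ ‖z‖ → ∀ v : ℂ, g (z : Sph) = (v : Sph) →
      4 * ‖z‖ ≤ ‖v‖ := by
    rintro k g (⟨-, rfl⟩ | ⟨-, rfl⟩) z hz v hv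
    · exact he₁ z ((le_max_left _ _).trans hz) v hv
    · exact he₂ z ((le_max_right _ _).trans hz) v hv
  have hone : ∀ k g, Γ k g → CompW (TStep Γ η) k g := fun k g hg => CompW.one (tstep_zero hη hg)
  have hmany : ∀ k g, Γ k g → ∀ a : ℕ, CompW (TStep Γ η) (a * k) g^[a] := by
    intro k g hg a
    induction a with
    | zero => rw [Nat.zero_mul]; exact CompW.zero
    | succ a ih =>
      rw [Function.iterate_succ', Nat.succ_mul]
      exact ih.append (hone k g hg)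
  have hpad : ∀ n, T * T ≤ n → ∃ G, CompW (TStep Γ η) n G := by
    intro n hn
    have h1 : T * (n / T) + n % T = n := Nat.div_add_mod n T
    have h2 : n % T < T := Nat.mod_lt _ (by omega)
    have h3 : T ≤ n / T := (Nat.le_div_iff_mul_le (by omega)).2 hn
    obtain ⟨a, ha⟩ : ∃ a, n / T = n % T + a := ⟨n / T - n % T, by omega⟩
    have h4 := (hmany T g₁ (Or.inl ⟨rfl, rfl⟩) a).append
      (hmany (T + 1) g₂ (Or.inr ⟨rfl, rfl⟩) (n % T))
    have h5 : a * T + n % T * (T + 1) = n := by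
      have h6 : a * T + n % T * (T + 1) = T * (n % T + a) + n % T := by ring
      rw [h6, ← ha]
      exact h1
    rw [h5] at h4
    exact ⟨_, h4⟩
  obtain ⟨N₀, hN₀⟩ := step2 (Γ := Γ) hol hinf (lt_max_of_lt_left hρ₁) hexp hpad
    (Or.inl ⟨rfl, rfl⟩ : Γ T g₁) hη
  refine ⟨N₀, fun N hN => ?_⟩
  obtain ⟨G, hG, hGH⟩ := hN₀ N hN
  refine ⟨G, hG.block ?_, hGH⟩
  have hlast : ∀ k g, Comp (MStep (sp x) η) k g → k ≠ 0 → ∀ β : ℂ, ‖β‖ < η →
      Comp (MStep (sp x) (3 * η)) k (tr β ∘ g) := by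
    intro k g hg hk β hβ
    cases hg with
    | zero => exact absurd rfl hk
    | @succ n G m hG hm =>
      have h1 : Comp (MStep (sp x) (3 * η)) n G :=
        hG.mono fun m hm => hm.mono (by linarith)
      have h2 := Comp.succ h1 (tr_mstep hη hη1 hm hβ)
      exact h2
  rintro k m ⟨g, (⟨rfl, rfl⟩ | ⟨rfl, rfl⟩), β, hβ, rfl⟩
  · exact hlast _ _ hg₁ hT0 β hβ
  · exact hlast _ _ hg₂ (by omega) β hβ

theorem att_iter {f : Sph → Sph} {x : Sph} (h : Att f x) {N : ℕ} (hN : N ≠ 0) : Att f^[N] x := by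
  obtain ⟨z, n, hn, hz, ⟨U, hU, hU'⟩, ht⟩ := h
  have he : ∀ k : ℕ, (f^[N])^[n * k] = f^[n * (N * k)] := by
    intro k
    rw [← Function.iterate_mul]
    congr 1
    ring
  have hlim : Tendsto (fun k : ℕ => N * k) atTop atTop :=
    tendsto_id.const_mul_atTop' (Nat.pos_of_ne_zero hN)
  refine ⟨z, n, hn, ?_, ⟨U, hU, fun w hw => ?_⟩, ?_⟩
  · have h1 : (f^[N])^[n] z = f^[n * N] z := by
      rw [← Function.iterate_mul, Nat.mul_comm]
    rw [h1, Function.iterate_mul]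
    exact Function.iterate_fixed hz N
  · simp only [he]
    exact (hU' w hw).comp hlim
  · simp only [he]
    exact ht.comp hlim

theorem hyp_iter {f : Sph → Sph} (hf : Continuous f) (h : Hyp f) {N : ℕ} (hN : N ≠ 0) :
    Hyp f^[N] := by
  have hcrit : ∀ n x, ¬ LocInj f^[n] x → Att f x := by
    intro n
    induction n with
    | zero => intro x hx; exact absurd (locInj_of_injective Function.injective_id x) hx
    | succ n ih =>
      intro x hx
      by_cases h1 : LocInj f x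
      · have h2 : ¬ LocInj f^[n] (f x) := fun h2 => hx (by
          rw [Function.iterate_succ]; exact locInj_comp hf h1 h2)
        exact att_of_iter hf (m := 1) (ih _ h2)
      · exact h x h1
  intro c hc
  exact att_iter (hcrit N c hc) hN

/-- For all large `N` there is a hyperbolic composition of `N` small perturbations. -/
theorem main {d : ℕ} (hd : 2 ≤ d) {x : CV d} (hx : ND x) {ε : ℝ} (hε : 0 < ε) :
    ∃ N₀ : ℕ, ∀ N, N₀ ≤ N → ∃ G, Comp (MStep (sp x) ε) N G ∧ Hyp G := by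
  have hF : Hol (sp x) := hol_sp (by omega) hx
  by_cases hH : Hyp (sp x)
  · exact ⟨1, fun N hN => ⟨_, MStep.iter _ hε N, hyp_iter hF.cont hH (by omega)⟩⟩
  · unfold Hyp at hH
    push Not at hH
    obtain ⟨c, hc, ha⟩ := hH
    induction c using OnePoint.rec with
    | infty =>
      obtain ⟨N₀, h⟩ := main_inf hd hx hc ha (η := min 1 (ε / 3)) (by positivity)
        (min_le_left _ _)
      refine ⟨N₀, fun N hN => ?_⟩
      obtain ⟨G, hG, hGH⟩ := h N hN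
      refine ⟨G, hG.mono fun m hm => hm.mono ?_, hGH⟩
      have := min_le_right 1 (ε / 3)
      linarith
    | coe z =>
      obtain ⟨y, hy, hcy⟩ := conj_sp hx z
      have hc' : ¬ LocInj (sp y) ∞ := by
        rw [← hcy, ← hz_apply z, locInj_conj_iff]
        exact hc
      have ha' : ¬ Att (sp y) ∞ := by
        rw [← hcy, ← hz_apply z, att_conj_iff]
        exact ha
      have hz0 : 0 < (1 + ‖z‖) ^ 2 := by positivity
      set η := min 1 (ε / (3 * (1 + ‖z‖) ^ 2)) with hη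
      have hη0 : 0 < η := by positivity
      obtain ⟨N₀, h⟩ := main_inf hd hy hc' ha' hη0 (min_le_left _ _)
      refine ⟨N₀, fun N hN => ?_⟩
      obtain ⟨G, hG, hGH⟩ := h N hN
      refine ⟨_, hG.conj (hz z).symm fun m hm => ?_, hyp_conj (hz z).symm hGH⟩
      rw [← hcy] at hm
      refine mstep_conj z ?_ (by positivity : 0 < 3 * η) hm
      have h1 : η ≤ ε / (3 * (1 + ‖z‖) ^ 2) := min_le_right _ _
      rw [le_div_iff₀ (by positivity)] at h1
      linarith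

end Pool.Agent.R239.Fat
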