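import Mathlib
import Pool.Agent.R239.Fat.T8

/-! Compositions with high iterates of a hyperbolic map. -/

set_option autoImplicit false

open Topology Filter Metric Set
open scoped OnePoint

namespace Pool.Agent.R239.Fat

/-- points in an open set which is mapped into a compact subset are attracted -/
theorem trap_att {h : Sph → Sph} (hh : Hol h) {W K : Set Sph} (hW : IsOpen W) (hK : IsCompact K)
    (hKW : K ⊆ W) {z₀ : ℂ} (hz₀ : (z₀ : Sph) ∉ closure W) (hm : ∀ x ∈ W, h x ∈ K) :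
    ∀ x ∈ W, Att h x := by
  set φ := hz z₀ with hφ
  have hφi : φ (z₀ : Sph) = ∞ := hz_apply z₀
  have hh' : Hol (fun y => φ (h (φ.symm y))) := hol_conj z₀ hh
  set i : ℂ → Sph := fun z => (z : Sph) with hi
  have hic : Continuous i := OnePoint.continuous_coe
  set W₁ : Set ℂ := i ⁻¹' (φ.symm ⁻¹' W) with hW₁
  set K₁ : Set ℂ := i ⁻¹' (φ.symm ⁻¹' K) with hK₁
  have hW₁o : IsOpen W₁ := (hW.preimage φ.symm.continuous).preimage hic
  -- boundedness
  obtain ⟨R, hR, hRb⟩ : ∃ R : ℝ, 0 < R ∧ ∀ z ∈ W₁, ‖z‖ ≤ R := by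
    have h1 : (φ.symm ⁻¹' (closure W))ᶜ ∈ 𝓝 (∞ : Sph) := by
      have h2 : IsOpen (φ.symm ⁻¹' (closure W))ᶜ :=
        (isClosed_closure.preimage φ.symm.continuous).isOpen_compl
      refine h2.mem_nhds fun h3 => hz₀ ?_
      have h4 : φ.symm ∞ ∈ closure W := h3
      rw [← hφi, φ.symm_apply_apply] at h4
      exact h4
    obtain ⟨ρ, hρ, h2⟩ := nhds_big h1
    refine ⟨ρ, hρ, fun z hz => ?_⟩
    by_contra h3
    push Not at h3
    exact h2 (z : Sph) (big_coe.2 h3) (subset_closure hz)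
  have hK₁W : K₁ ⊆ W₁ := fun z hz => hKW hz
  have hK₁c : IsCompact K₁ := by
    refine Metric.isCompact_of_isClosed_isBounded
      ((hK.isClosed.preimage φ.symm.continuous).preimage hic) ?_
    exact isBounded_iff_forall_norm_le.2 ⟨R, fun z hz => hRb z (hK₁W hz)⟩
  obtain ⟨ε, hε, hεW⟩ := hK₁c.exists_thickening_subset_open hW₁o hK₁W
  intro x hx
  have hne : ∀ y ∈ W, ∃ z : ℂ, φ y = (z : Sph) := by
    intro y hy
    have : φ y ≠ ∞ := by
      intro h1
      rw [← hφi] at h1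
      rw [φ.injective h1] at hy
      exact hz₀ (subset_closure hy)
    obtain ⟨z, hz⟩ := OnePoint.ne_infty_iff_exists.1 this
    exact ⟨z, hz.symm⟩
  obtain ⟨z, hz⟩ := hne x hx
  rw [← att_conj_iff φ, hz]
  have hmem : ∀ (y : Sph) (S : Set Sph) (z : ℂ), φ y = (z : Sph) → (y ∈ S ↔ z ∈ i ⁻¹' (φ.symm ⁻¹' S)) := by
    intro y S z hz
    show y ∈ S ↔ φ.symm (z : Sph) ∈ S
    rw [← hz, φ.symm_apply_apply]
  refine sph_att hh' hW₁o hR hRb hε (fun v hv => ?_) ((hmem x W z hz).1 hx)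
  have h1 : h (φ.symm (v : Sph)) ∈ K := hm _ hv
  obtain ⟨u, hu⟩ := hne _ (hKW h1)
  refine ⟨u, hu, fun s hs => hεW ?_⟩
  rw [mem_thickening_iff]
  exact ⟨u, (hmem _ K u hu).1 h1, by rw [mem_ball] at hs; exact hs⟩

/-- `a` is an attracting periodic point, in the uniform sense -/
def Snk (g : Sph → Sph) (n : ℕ) (a : Sph) : Prop :=
  0 < n ∧ g^[n] a = a ∧
    ∃ U ∈ 𝓝 a, ∀ V ∈ 𝓝 a, ∀ᶠ k : ℕ in atTop, ∀ w ∈ U, g^[n * k] w ∈ V

/-- the orbit of `z` converges to a cycle in `A` -/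
def AttBy (g : Sph → Sph) (A : Set Sph) (z : Sph) : Prop :=
  ∃ a ∈ A, ∃ n : ℕ, 0 < n ∧ Tendsto (fun k : ℕ => g^[n * k] z) atTop (𝓝 a)

section

variable {g : Sph → Sph} {A : Set Sph}

theorem iter_mem (hmap : ∀ a ∈ A, g a ∈ A) {a : Sph} (ha : a ∈ A) (n : ℕ) : g^[n] a ∈ A := by
  induction n with
  | zero => exact ha
  | succ n ih => rw [Function.iterate_succ_apply']; exact hmap _ ih

/-- an absorbing neighbourhood of `A` -/
theorem absorb (hg : Continuous g) (hA : A.Finite) (hmap : ∀ a ∈ A, g a ∈ A)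
    (hs : ∀ a ∈ A, ∃ n, Snk g n a) : ∃ U : Set Sph, IsOpen U ∧ A ⊆ U ∧
      (∀ z, AttBy g A z ↔ ∃ n, g^[n] z ∈ U) ∧
      ∀ V : Set Sph, IsOpen V → A ⊆ V → ∃ n₀ : ℕ, ∀ n, n₀ ≤ n → ∀ w ∈ U, g^[n] w ∈ V := by
  choose! p hp using hs
  choose! U hU hUV using fun a (ha : a ∈ A) => (hp a ha).2.2
  refine ⟨⋃ a ∈ A, interior (U a), isOpen_biUnion fun a _ => isOpen_interior, fun a ha =>
    mem_biUnion ha (mem_interior_iff_mem_nhds.2 (hU a ha)), fun z => ⟨?_, ?_⟩, ?_⟩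
  · rintro ⟨a, ha, n, hn, ht⟩
    have h1 : ∀ᶠ k : ℕ in atTop, g^[n * k] z ∈ interior (U a) :=
      ht.eventually (isOpen_interior.mem_nhds (mem_interior_iff_mem_nhds.2 (hU a ha)))
    obtain ⟨k, hk⟩ := h1.exists
    exact ⟨n * k, mem_biUnion ha hk⟩
  · rintro ⟨n, hn⟩
    rw [mem_iUnion₂] at hn
    obtain ⟨a, ha, hn⟩ := hn
    have hpa := (hp a ha).1
    obtain ⟨j, hj⟩ : ∃ j, n + j = n * p a := ⟨n * p a - n, by
      have : n ≤ n * p a := Nat.le_mul_of_pos_right n hpa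
      omega⟩
    refine ⟨g^[j] a, iter_mem hmap ha j, p a, hpa, ?_⟩
    have h1 : Tendsto (fun k : ℕ => g^[p a * k] (g^[n] z)) atTop (𝓝 a) := by
      rw [_root_.tendsto_nhds]
      intro V hV hVa
      filter_upwards [hUV a ha V (hV.mem_nhds hVa)] with k hk
      exact hk _ (interior_subset hn)
    have h2 : Tendsto (fun k : ℕ => g^[j] (g^[p a * k] (g^[n] z))) atTop (𝓝 (g^[j] a)) :=
      ((hg.iterate j).tendsto a).comp h1
    have h3 : ∀ k : ℕ, g^[j] (g^[p a * k] (g^[n] z)) = g^[p a * (k + n)] z := by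
      intro k
      rw [← Function.iterate_add_apply, ← Function.iterate_add_apply]
      congr 2
      rw [Nat.mul_add, Nat.mul_comm (p a) n]
      omega
    simp only [h3] at h2
    exact (tendsto_add_atTop_iff_nat (f := fun k : ℕ => g^[p a * k] z) n).1 h2
  · intro V hV hAV
    have h1 : ∀ a ∈ A, ∀ᶠ k₀ : ℕ in atTop, ∀ n, k₀ ≤ n → ∀ w ∈ U a, g^[n] w ∈ V := by
      intro a ha
      have hpa := (hp a ha).1
      have hV' : (⋂ i ∈ Finset.range (p a), g^[i] ⁻¹' V) ∈ 𝓝 a := by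
        rw [biInter_finset_mem]
        intro i _
        exact (hg.iterate i).continuousAt.preimage_mem_nhds
          (hV.mem_nhds (hAV (iter_mem hmap ha i)))
      obtain ⟨k₁, hk₁⟩ := eventually_atTop.1 (hUV a ha _ hV')
      filter_upwards [eventually_ge_atTop (p a * (k₁ + 1))] with k₀ hk₀ n hn w hw
      have h2 := Nat.div_add_mod n (p a)
      have h3 := Nat.mod_lt n hpa
      have h4 : k₁ ≤ n / p a := by
        rw [Nat.le_div_iff_mul_le hpa]
        have : p a * (k₁ + 1) = k₁ * p a + p a := by ring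
        omega
      have h5 := hk₁ _ h4 w hw
      rw [mem_iInter₂] at h5
      have h6 : g^[n % p a] (g^[p a * (n / p a)] w) ∈ V := h5 _ (Finset.mem_range.2 h3)
      rw [← Function.iterate_add_apply, Nat.add_comm, h2] at h6
      exact h6
    rw [← eventually_all_finite hA] at h1
    obtain ⟨n₀, hn₀⟩ := h1.exists
    refine ⟨n₀, fun n hn w hw => ?_⟩
    rw [mem_iUnion₂] at hw
    obtain ⟨a, ha, hw⟩ := hw
    exact hn₀ a ha n hn w (interior_subset hw)

theorem attBy_open (hg : Continuous g) (hA : A.Finite) (hmap : ∀ a ∈ A, g a ∈ A)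
    (hs : ∀ a ∈ A, ∃ n, Snk g n a) : IsOpen {z | AttBy g A z} := by
  obtain ⟨U, hU, -, h1, -⟩ := absorb hg hA hmap hs
  have h2 : {z | AttBy g A z} = ⋃ n : ℕ, g^[n] ⁻¹' U := by
    ext z
    rw [mem_iUnion]
    exact h1 z
  rw [h2]
  exact isOpen_iUnion fun n => hU.preimage (hg.iterate n)

theorem absorb_compact (hg : Continuous g) (hA : A.Finite) (hmap : ∀ a ∈ A, g a ∈ A)
    (hs : ∀ a ∈ A, ∃ n, Snk g n a) {K : Set Sph} (hK : IsCompact K) (hKB : ∀ z ∈ K, AttBy g A z)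
    {V : Set Sph} (hV : IsOpen V) (hAV : A ⊆ V) :
    ∃ n₀ : ℕ, ∀ n, n₀ ≤ n → ∀ z ∈ K, g^[n] z ∈ V := by
  obtain ⟨U, hU, -, h1, h2⟩ := absorb hg hA hmap hs
  obtain ⟨n₁, hn₁⟩ := h2 V hV hAV
  choose! m hm using fun z (hz : z ∈ K) => (h1 z).1 (hKB z hz)
  obtain ⟨t, htK, ht⟩ := hK.elim_nhds_subcover (fun z => g^[m z] ⁻¹' U) fun z hz =>
    (hg.iterate (m z)).continuousAt.preimage_mem_nhds (hU.mem_nhds (hm z hz))
  refine ⟨t.sup m + n₁, fun n hn z hz => ?_⟩
  have h3 := ht hz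
  rw [mem_iUnion₂] at h3
  obtain ⟨y, hy, hzy⟩ := h3
  have h4 : m y ≤ t.sup m := Finset.le_sup hy
  obtain ⟨j, rfl⟩ : ∃ j, n = j + m y := ⟨n - m y, by omega⟩
  rw [Function.iterate_add_apply]
  exact hn₁ j (by omega) _ hzy

/-- the blocks `F i ∘ g^n` with `n ≥ n₀` -/
def Blk {ι : Type} (F : ι → Sph → Sph) (g : Sph → Sph) (n₀ : ℕ) (m : Sph → Sph) : Prop :=
  ∃ i n, n₀ ≤ n ∧ m = F i ∘ g^[n]

theorem crit_iter (hg : Continuous g) {n : ℕ} {x : Sph} (h : ¬ LocInj g^[n] x) :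
    ∃ i < n, ¬ LocInj g (g^[i] x) := by
  induction n generalizing x with
  | zero => exact absurd (locInj_of_injective Function.injective_id x) h
  | succ n ih =>
    by_cases h1 : LocInj g x
    · have h2 : ¬ LocInj g^[n] (g x) := fun h2 => h (by
        rw [Function.iterate_succ]; exact locInj_comp hg h1 h2)
      obtain ⟨i, hi, h3⟩ := ih h2
      exact ⟨i + 1, by omega, by rw [Function.iterate_succ_apply]; exact h3⟩
    · exact ⟨0, by omega, h1⟩

/-- The dynamics of the words. -/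
theorem words_hyp {ι : Type} [Finite ι] (hg : Hol g) (hA : A.Finite) (hmap : ∀ a ∈ A, g a ∈ A)
    (hs : ∀ a ∈ A, ∃ n, Snk g n a) {F : ι → Sph → Sph} (hF : ∀ i, Hol (F i))
    (hFA : ∀ i, ∀ a ∈ A, AttBy g A (F i a))
    (hFc : ∀ i, ∀ y, ¬ LocInj (F i) y → AttBy g A (F i y))
    (hgc : ∀ c, ¬ LocInj g c → AttBy g A c)
    (hFg : ∀ i, ∀ c, ¬ LocInj g c → ∀ k : ℕ, AttBy g A (F i (g^[k + 1] c))) :
    ∃ n₀ : ℕ, ∀ k : ℕ, k ≠ 0 → ∀ G, Comp (Blk F g n₀) k G → Hyp G := by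
  set B : Set Sph := {z | AttBy g A z} with hB
  have hBo : IsOpen B := attBy_open hg.cont hA hmap hs
  -- the finite set `F(A)`
  set FA : Set Sph := ⋃ i, F i '' A with hFAd
  have hFAf : FA.Finite := Set.finite_iUnion fun i => hA.image _
  have hFAB : FA ⊆ B := by
    rintro _ hx
    rw [hFAd, mem_iUnion] at hx
    obtain ⟨i, a, ha, rfl⟩ := hx
    exact hFA i a ha
  obtain ⟨z₀, hz₀⟩ : ∃ z₀ : ℂ, (z₀ : Sph) ∉ FA := by
    by_contra hcon
    push Not at hcon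
    have h1 : (Set.range fun z : ℂ => (z : Sph)) ⊆ FA := by
      rintro _ ⟨z, rfl⟩
      exact hcon z
    exact (Set.infinite_range_of_injective OnePoint.coe_injective) (hFAf.subset h1)
  have hU' : IsOpen (B ∩ {(z₀ : Sph)}ᶜ) := hBo.inter isOpen_compl_singleton
  obtain ⟨W, hWo, hFAW, hWcl, hWc⟩ := exists_open_between_and_isCompact_closure hFAf.isCompact hU'
    (fun x hx => ⟨hFAB hx, fun h => hz₀ (by rw [mem_singleton_iff] at h; rwa [← h])⟩)
  have hz₀W : (z₀ : Sph) ∉ closure W := fun h => (hWcl h).2 rfl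
  obtain ⟨W₁, hW₁o, hFAW₁, hW₁cl, hW₁c⟩ :=
    exists_open_between_and_isCompact_closure hFAf.isCompact hWo hFAW
  set K := closure W₁ with hK
  -- the neighbourhood of `A`
  set V₀ : Set Sph := ⋂ i, F i ⁻¹' W₁ with hV₀
  have hV₀o : IsOpen V₀ := isOpen_iInter_of_finite fun i => hW₁o.preimage (hF i).cont
  have hAV₀ : A ⊆ V₀ := by
    intro a ha
    rw [hV₀, mem_iInter]
    intro i
    apply hFAW₁
    rw [hFAd, mem_iUnion]
    exact ⟨i, a, ha, rfl⟩
  -- critical values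
  set E : Set Sph := {e | ∃ c, ¬ LocInj g c ∧ e = g c} with hE
  have hEf : E.Finite := by
    obtain ⟨T, hT⟩ := hg.fcv
    refine T.finite_toSet.subset ?_
    rintro _ ⟨c, hc, rfl⟩
    exact hT c hc
  have hgB : ∀ z, AttBy g A z → ∀ n, AttBy g A (g^[n] z) := by
    rintro z ⟨a, ha, p, hp, ht⟩ n
    refine ⟨g^[n] a, iter_mem hmap ha n, p, hp, ?_⟩
    have h1 := ((hg.cont.iterate n).tendsto a).comp ht
    refine h1.congr fun k => ?_
    show g^[n] (g^[p * k] z) = g^[p * k] (g^[n] z)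
    rw [← Function.iterate_add_apply, ← Function.iterate_add_apply, Nat.add_comm]
  obtain ⟨k₁, hk₁⟩ := absorb_compact hg.cont hA hmap hs hEf.isCompact (fun z hz => by
    obtain ⟨c, hc, rfl⟩ := hz
    exact hgB c (hgc c hc) 1) hV₀o hAV₀
  set E₁ : Set Sph := ⋃ i, {e | ∃ y, ¬ LocInj (F i) y ∧ e = F i y} with hE₁
  have hE₁f : E₁.Finite := by
    refine Set.finite_iUnion fun i => ?_
    obtain ⟨T, hT⟩ := (hF i).fcv
    refine T.finite_toSet.subset ?_
    rintro _ ⟨c, hc, rfl⟩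
    exact hT c hc
  set E₂ : Set Sph := ⋃ i, ⋃ j ∈ Set.Iio k₁, (fun e => F i (g^[j] e)) '' E with hE₂
  have hE₂f : E₂.Finite :=
    Set.finite_iUnion fun i => (Set.finite_Iio k₁).biUnion fun j _ => hEf.image _
  have hCVf : (E₁ ∪ E₂).Finite := hE₁f.union hE₂f
  have hCVB : ∀ z ∈ E₁ ∪ E₂, AttBy g A z := by
    rintro z (hz | hz)
    · rw [hE₁, mem_iUnion] at hz
      obtain ⟨i, y, hy, rfl⟩ := hz
      exact hFc i y hy
    · rw [hE₂, mem_iUnion] at hz
      obtain ⟨i, hz⟩ := hz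
      rw [mem_iUnion₂] at hz
      obtain ⟨j, -, e, ⟨c, hc, rfl⟩, rfl⟩ := hz
      exact hFg i c hc j
  obtain ⟨n₀, hn₀⟩ := absorb_compact hg.cont hA hmap hs (hWc.union hCVf.isCompact) (by
    rintro z (hz | hz)
    · exact (hWcl hz).1
    · exact hCVB z hz) hV₀o hAV₀
  refine ⟨n₀, fun k hk G hG => ?_⟩
  -- blocks
  have hb1 : ∀ m, Blk F g n₀ m → ∀ x ∈ closure W ∪ (E₁ ∪ E₂), m x ∈ W₁ := by
    rintro m ⟨i, n, hn, rfl⟩ x hx
    have h1 := hn₀ n hn x hx
    rw [hV₀, mem_iInter] at h1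
    exact h1 i
  have hb2 : ∀ m, Blk F g n₀ m → ∀ x, ¬ LocInj m x → m x ∈ closure W ∪ (E₁ ∪ E₂) := by
    rintro m ⟨i, n, hn, rfl⟩ x hx
    by_cases h1 : LocInj g^[n] x
    · have h2 : ¬ LocInj (F i) (g^[n] x) := fun h2 => hx (locInj_comp (hg.cont.iterate n) h1 h2)
      right; left
      rw [hE₁, mem_iUnion]
      exact ⟨i, _, h2, rfl⟩
    · obtain ⟨j, hj, h2⟩ := crit_iter hg.cont h1
      have h3 : g^[n] x = g^[n - 1 - j] (g (g^[j] x)) := by
        rw [← Function.iterate_succ_apply, ← Function.iterate_add_apply]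
        congr 1
        omega
      by_cases h4 : n - 1 - j < k₁
      · right; right
        rw [hE₂, mem_iUnion]
        refine ⟨i, ?_⟩
        rw [mem_iUnion₂]
        refine ⟨n - 1 - j, h4, g (g^[j] x), ⟨_, h2, rfl⟩, ?_⟩
        show F i (g^[n - 1 - j] (g (g^[j] x))) = F i (g^[n] x)
        rw [h3]
      · left
        have h5 := hk₁ (n - 1 - j) (by omega) _ ⟨_, h2, rfl⟩
        rw [hV₀, mem_iInter] at h5
        have h6 : F i (g^[n] x) ∈ W₁ := by rw [h3]; exact h5 i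
        exact subset_closure (hW₁cl (subset_closure h6))
  have hblk : ∀ m, Blk F g n₀ m → Hol m := by
    have hit : ∀ n, Hol g^[n] := by
      intro n
      induction n with
      | zero => exact Hol.id
      | succ n ih => rw [Function.iterate_succ']; exact ih.comp hg
    rintro m ⟨i, n, -, rfl⟩
    exact (hit n).comp (hF i)
  have hGh : Hol G := hG.hol hblk
  have hW₁W : W₁ ⊆ closure W := fun x hx => subset_closure (hW₁cl (subset_closure hx))
  -- compositions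
  have key : ∀ k G, Comp (Blk F g n₀) k G →
      (k ≠ 0 → ∀ x ∈ closure W ∪ (E₁ ∪ E₂), G x ∈ W₁) ∧
      ∀ x, ¬ LocInj G x → G x ∈ closure W ∪ (E₁ ∪ E₂) := by
    intro k G hG
    induction hG with
    | zero => exact ⟨fun h => absurd rfl h, fun x hx =>
        absurd (locInj_of_injective Function.injective_id x) hx⟩
    | @succ n G m hG hm ih =>
      refine ⟨fun _ x hx => ?_, fun x hx => ?_⟩
      · rcases Nat.eq_zero_or_pos n with rfl | hn
        · cases hG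
          exact hb1 m hm x hx
        · exact hb1 m hm _ (Or.inl (hW₁W (ih.1 hn.ne' x hx)))
      · by_cases h1 : LocInj G x
        · exact hb2 m hm _ fun h2 => hx (locInj_comp (hG.hol hblk).cont h1 h2)
        · exact Or.inl (hW₁W (hb1 m hm _ (ih.2 x h1)))
  obtain ⟨h1, h2⟩ := key k G hG
  intro x hx
  apply att_of_iter hGh.cont (m := 2)
  refine trap_att hGh hWo hW₁c hW₁cl hz₀W (fun y hy => subset_closure (h1 hk y
    (Or.inl (subset_closure hy)))) _ ?_
  show G (G x) ∈ W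
  exact hW₁cl (subset_closure (h1 hk _ (h2 x hx)))

end

end Pool.Agent.R239.Fat
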