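import Mathlib
import Pool.Agent.R239.Fat.T10

/-! Generic Moebius maps. -/

set_option autoImplicit false

open Topology Filter Metric Set MeasureTheory
open scoped OnePoint
open Pool.Agent.H790R3.RB (pr hc)
open Pool.Agent.H790R3.RB.SP (pr_zero pr_ne pr_eq_iff pr_hc)

namespace Pool.Agent.R239.Fat

theorem haar2 : (volume : Measure (ℂ × ℂ)).IsAddHaarMeasure := by
  rw [Measure.volume_eq_prod]
  infer_instance

theorem haar4 : (volume : Measure ((ℂ × ℂ) × (ℂ × ℂ))).IsAddHaarMeasure := by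
  have := haar2
  rw [Measure.volume_eq_prod]
  exact Measure.prod.instIsAddHaarMeasure _ _

/-- the action of a matrix on a vector, as a function of the matrix -/
noncomputable def lin (p : ℂ × ℂ) : ((ℂ × ℂ) × (ℂ × ℂ)) →ₗ[ℂ] (ℂ × ℂ) where
  toFun N := (N.1.1 * p.1 + N.1.2 * p.2, N.2.1 * p.1 + N.2.2 * p.2)
  map_add' N N' := Prod.ext (by simp; ring) (by simp; ring)
  map_smul' s N := Prod.ext (by simp; ring) (by simp; ring)

theorem lin_surj {p : ℂ × ℂ} (hp : p ≠ 0) : Function.Surjective (lin p) := by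
  intro q
  by_cases h : p.1 = 0
  · have h2 : p.2 ≠ 0 := fun h2 => hp (Prod.ext h h2)
    refine ⟨((0, q.1 / p.2), (0, q.2 / p.2)), Prod.ext ?_ ?_⟩
    · show 0 * p.1 + q.1 / p.2 * p.2 = q.1
      field_simp
      ring
    · show 0 * p.1 + q.2 / p.2 * p.2 = q.2
      field_simp
      ring
  · refine ⟨((q.1 / p.1, 0), (q.2 / p.1, 0)), Prod.ext ?_ ?_⟩
    · show q.1 / p.1 * p.1 + 0 * p.2 = q.1
      field_simp
      ring
    · show q.2 / p.1 * p.1 + 0 * p.2 = q.2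
      field_simp
      ring

theorem lin_cont (p : ℂ × ℂ) : Continuous (lin p) := LinearMap.continuous_of_finiteDimensional _

theorem lin_open {p : ℂ × ℂ} (hp : p ≠ 0) : IsOpenMap (lin p) := by
  have h := ContinuousLinearMap.isOpenMap (⟨lin p, lin_cont p⟩ : ((ℂ × ℂ) × (ℂ × ℂ)) →L[ℂ] (ℂ × ℂ))
    (lin_surj hp)
  exact h

/-- the cone over the finite part of a set of the sphere -/
def Cone (B : Set Sph) : Set (ℂ × ℂ) := {p | p.2 ≠ 0 ∧ ((p.1 / p.2 : ℂ) : Sph) ∈ B}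

theorem cone_open {B : Set Sph} (hB : IsOpen B) : IsOpen (Cone B) := by
  have h1 : IsOpen {p : ℂ × ℂ | p.2 ≠ 0} := isOpen_ne_fun continuous_snd continuous_const
  have h2 : ContinuousOn (fun p : ℂ × ℂ => ((p.1 / p.2 : ℂ) : Sph)) {p : ℂ × ℂ | p.2 ≠ 0} :=
    OnePoint.continuous_coe.comp_continuousOn
      (continuous_fst.continuousOn.div continuous_snd.continuousOn fun p hp => hp)
  exact h2.isOpen_inter_preimage h1 hB

theorem cone_pr {B : Set Sph} {p : ℂ × ℂ} (h : p ∈ Cone B) : pr p ∈ B := by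
  rw [pr_ne h.1]
  exact h.2

theorem cone_dense {B : Set Sph} (hB : Dense {z : ℂ | (z : Sph) ∈ B}) : Dense (Cone B) := by
  rw [dense_iff_inter_open]
  intro U hU hne
  have h1 : Dense {p : ℂ × ℂ | p.2 ≠ 0} := by
    have h2 : Dense ({0}ᶜ : Set ℂ) := dense_compl_singleton 0
    exact h2.preimage isOpenMap_snd
  obtain ⟨q, hqU, hq⟩ := h1.inter_open_nonempty U hU hne
  have h2 : Continuous fun z : ℂ => ((z * q.2, q.2) : ℂ × ℂ) := by fun_prop
  obtain ⟨z, hz1, hz2⟩ := hB.inter_open_nonempty _ (hU.preimage h2) ⟨q.1 / q.2, by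
    show ((q.1 / q.2 * q.2, q.2) : ℂ × ℂ) ∈ U
    rw [div_mul_cancel₀ _ hq]
    exact hqU⟩
  refine ⟨(z * q.2, q.2), hz1, hq, ?_⟩
  show ((z * q.2 / q.2 : ℂ) : Sph) ∈ B
  rw [mul_div_cancel_right₀ _ hq]
  exact hz2

theorem ae_ne_zero : ∀ᵐ z : ℂ, z ∈ ({0}ᶜ : Set ℂ) := by
  rw [ae_iff]
  simp

theorem cone_ae {B : Set Sph} (hB : IsOpen B) (h0 : volume {z : ℂ | (z : Sph) ∉ B} = 0) :
    ∀ᵐ p : ℂ × ℂ, p ∈ Cone B := by
  have := haar2
  rw [← ae_ae_add_linearMap_mem_iff (𝕜 := ℂ) (LinearMap.inl ℂ ℂ ℂ) volume volume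
    (cone_open hB).measurableSet]
  have h1 : ∀ᵐ p : ℂ × ℂ, p.2 ∈ ({0}ᶜ : Set ℂ) :=
    (ae_comp_linearMap_mem_iff (LinearMap.snd ℂ ℂ ℂ) volume volume LinearMap.snd_surjective
      (measurableSet_singleton 0).compl).2 ae_ne_zero
  filter_upwards [h1] with p hp
  have hp' : p.2 ≠ 0 := hp
  have h2 : ∀ᵐ z : ℂ, z ∈ {z : ℂ | (z : Sph) ∈ B} := h0
  have h3 : ∀ᵐ z : ℂ, z ∈ {z : ℂ | ((z + p.1 / p.2 : ℂ) : Sph) ∈ B} :=
    (measurePreserving_add_right volume (p.1 / p.2)).quasiMeasurePreserving.ae h2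
  have hms : MeasurableSet {z : ℂ | ((z + p.1 / p.2 : ℂ) : Sph) ∈ B} := by
    have h4 : Continuous fun z : ℂ => ((z + p.1 / p.2 : ℂ) : Sph) :=
      OnePoint.continuous_coe.comp (by fun_prop)
    exact (hB.preimage h4).measurableSet
  have h4 : Function.Surjective (LinearMap.lsmul ℂ ℂ (p.2)⁻¹) := by
    intro y
    refine ⟨p.2 * y, ?_⟩
    show (p.2)⁻¹ * (p.2 * y) = y
    field_simp
  have h5 := (ae_comp_linearMap_mem_iff (LinearMap.lsmul ℂ ℂ (p.2)⁻¹) volume volume h4 hms).2 h3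
  filter_upwards [h5] with x hx
  refine ⟨?_, ?_⟩
  · show p.2 + 0 ≠ 0
    rw [add_zero]
    exact hp'
  · show ((((p.1 + x) / (p.2 + 0) : ℂ)) : Sph) ∈ B
    have e1 : (p.1 + x) / (p.2 + 0) = (p.2)⁻¹ * x + p.1 / p.2 := by
      rw [add_zero]
      field_simp
      ring
    rw [e1]
    exact hx

theorem det_ae : ∀ᵐ N : (ℂ × ℂ) × (ℂ × ℂ),
    N ∈ {N : (ℂ × ℂ) × (ℂ × ℂ) | N.1.1 * N.2.2 - N.1.2 * N.2.1 ≠ 0} := by
  have := haar2
  have := haar4
  have hms : IsOpen {N : (ℂ × ℂ) × (ℂ × ℂ) | N.1.1 * N.2.2 - N.1.2 * N.2.1 ≠ 0} :=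
    isOpen_ne_fun (by fun_prop) continuous_const
  rw [← ae_ae_add_linearMap_mem_iff (𝕜 := ℂ)
    ((LinearMap.inr ℂ (ℂ × ℂ) (ℂ × ℂ)).comp (LinearMap.inr ℂ ℂ ℂ)) volume volume hms.measurableSet]
  have h1 : ∀ᵐ N : (ℂ × ℂ) × (ℂ × ℂ), N.1.1 ∈ ({0}ᶜ : Set ℂ) :=
    (ae_comp_linearMap_mem_iff ((LinearMap.fst ℂ ℂ ℂ).comp (LinearMap.fst ℂ (ℂ × ℂ) (ℂ × ℂ)))
      volume volume (fun z => ⟨((z, 0), (0, 0)), rfl⟩)
      (measurableSet_singleton 0).compl).2 ae_ne_zero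
  filter_upwards [h1] with N hN
  have hN' : N.1.1 ≠ 0 := hN
  have h2 : ∀ᵐ x : ℂ, x ∈ ({(N.1.2 * N.2.1 - N.1.1 * N.2.2) / N.1.1}ᶜ : Set ℂ) := by
    rw [ae_iff]
    simp
  filter_upwards [h2] with x hx
  show (N.1.1 + 0) * (N.2.2 + x) - (N.1.2 + 0) * (N.2.1 + 0) ≠ 0
  intro h3
  apply hx
  rw [mem_singleton_iff, eq_div_iff hN']
  linear_combination h3

/-- generic matrices move countably many points into a dense open set -/
theorem generic_res {B : Set Sph} (hB : IsOpen B) (hBd : Dense {z : ℂ | (z : Sph) ∈ B})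
    {S : Set Sph} (hS : S.Countable) : ∀ᶠ N : (ℂ × ℂ) × (ℂ × ℂ) in residual _,
      N.1.1 * N.2.2 - N.1.2 * N.2.1 ≠ 0 ∧ ∀ s ∈ S, lin (hc s) N ∈ Cone B := by
  have := haar2
  have := haar4
  refine Eventually.and ?_ ?_
  · refine residual_of_dense_open (isOpen_ne_fun (by fun_prop) continuous_const) ?_
    exact Measure.dense_of_ae (μ := (volume : Measure ((ℂ × ℂ) × (ℂ × ℂ)))) det_ae
  · rw [eventually_countable_ball hS]
    intro s _
    exact residual_of_dense_open ((cone_open hB).preimage (lin_cont _))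
      ((cone_dense hBd).preimage (lin_open (pr_hc s).2))

theorem generic_ae {B : Set Sph} (hB : IsOpen B) (h0 : volume {z : ℂ | (z : Sph) ∉ B} = 0)
    {S : Set Sph} (hS : S.Countable) : ∀ᵐ N : (ℂ × ℂ) × (ℂ × ℂ),
      N.1.1 * N.2.2 - N.1.2 * N.2.1 ≠ 0 ∧ ∀ s ∈ S, lin (hc s) N ∈ Cone B := by
  have := haar2
  have := haar4
  refine Eventually.and det_ae ?_
  rw [eventually_countable_ball hS]
  intro s _
  exact (ae_comp_linearMap_mem_iff (lin (hc s)) volume volume (lin_surj (pr_hc s).2)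
    (cone_open hB).measurableSet).2 (cone_ae hB h0)

theorem mob_lin {a b c e : ℂ} (h : a * e - b * c ≠ 0) (s : Sph) :
    mob a b c e s = pr (lin (hc s) ((a, b), (c, e))) := by
  conv_lhs => rw [← (pr_hc s).1]
  exact mob_pr h (pr_hc s).2

section

variable {g : Sph → Sph} {A : Set Sph} {ι : Type} {f : ι → Sph → Sph}

/-- the marked values -/
def Mk (f : ι → Sph → Sph) (g : Sph → Sph) (A : Set Sph) : Set Sph :=
  {m | ∃ i, (∃ y, ¬ LocInj (f i) y ∧ m = f i y) ∨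
    (∃ c, ∃ k : ℕ, ¬ LocInj g c ∧ m = f i (g^[k + 1] c)) ∨ ∃ a ∈ A, m = f i a}

theorem mk_countable [Finite ι] (hg : Hol g) (hA : A.Finite) (hf : ∀ i, Hol (f i)) :
    (Mk f g A).Countable := by
  obtain ⟨T, hT⟩ := hg.fcv
  have h1 : Mk f g A ⊆ ⋃ i, ({m | ∃ y, ¬ LocInj (f i) y ∧ m = f i y} ∪
      (⋃ k : ℕ, (fun t => f i (g^[k] t)) '' (T : Set Sph)) ∪ f i '' A) := by
    rintro m ⟨i, hm⟩
    rw [mem_iUnion]
    refine ⟨i, ?_⟩
    rcases hm with hm | ⟨c, k, hc, rfl⟩ | ⟨a, ha, rfl⟩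
    · exact Or.inl (Or.inl hm)
    · refine Or.inl (Or.inr ?_)
      rw [mem_iUnion]
      exact ⟨k, g c, hT c hc, rfl⟩
    · exact Or.inr ⟨a, ha, rfl⟩
  refine Set.Countable.mono h1 (Set.countable_iUnion fun i => ?_)
  refine (Set.Countable.union ?_ (Set.countable_iUnion fun k => ?_)).union (hA.image _).countable
  · obtain ⟨T', hT'⟩ := (hf i).fcv
    refine (T'.finite_toSet.subset ?_).countable
    rintro _ ⟨y, hy, rfl⟩
    exact hT' y hy
  · exact (T.finite_toSet.image _).countable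

theorem hyp_of_mk [Finite ι] (hg : Hol g) (hA : A.Finite) (hmap : ∀ a ∈ A, g a ∈ A)
    (hs : ∀ a ∈ A, ∃ n, Snk g n a) (hf : ∀ i, Hol (f i)) (hgc : ∀ c, ¬ LocInj g c → AttBy g A c)
    {a b c e : ℂ} (h : a * e - b * c ≠ 0) (hM : ∀ m ∈ Mk f g A, AttBy g A (mob a b c e m)) :
    ∃ n₀ : ℕ, ∀ k : ℕ, k ≠ 0 → ∀ G, Comp (Blk (fun i => mob a b c e ∘ f i) g n₀) k G → Hyp G := by
  refine words_hyp hg hA hmap hs (fun i => (hf i).comp (hol_mob h)) (fun i a ha => hM _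
    ⟨i, Or.inr (Or.inr ⟨a, ha, rfl⟩)⟩) (fun i y hy => ?_) hgc fun i c hc k => hM _
    ⟨i, Or.inr (Or.inl ⟨c, k, hc, rfl⟩)⟩
  refine hM _ ⟨i, Or.inl ⟨y, fun h1 => hy ?_, rfl⟩⟩
  exact locInj_comp (hf i).cont h1 (locInj_of_injective (mobH a b c e h).injective _)

end

end Pool.Agent.R239.Fat
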