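import Mathlib
import Pool.Agent.R239.Fat.T8

/-! Perturbations of a rational map in terms of numerators and denominators. -/

set_option autoImplicit false

open Topology Filter Metric Set Polynomial
open scoped OnePoint
open Pool.Agent.H790R3.RB (CV hF ND sp pol hc pr)
open Pool.Agent.H790R3.RB.SP (pr_zero pr_ne pr_eq_iff pr_hc sp_pr sp_cont)
open Pool.Agent.H790R3.RB.PQ (hF_one hF_inf part1 sp_eval pol_natDegree)

namespace Pool.Agent.R239.Fat

theorem coprime_comb {P Q : ℂ[X]} (h : IsCoprime P Q) {a b c e : ℂ} (hdet : a * e - b * c = 1) :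
    IsCoprime (C a * P + C b * Q) (C c * P + C e * Q) := by
  obtain ⟨u, v, huv⟩ := h
  have h1 : (C a * C e - C b * C c : ℂ[X]) = 1 := by
    rw [← C_mul, ← C_mul, ← C_sub, hdet, C_1]
  refine ⟨u * C e - v * C c, v * C a - u * C b, ?_⟩
  linear_combination (u * P + v * Q) * h1 + huv

theorem degree_comb {P Q : ℂ[X]} {d : ℕ} (hd : 1 ≤ d) (hdeg : max P.natDegree Q.natDegree = d)
    {a b c e : ℂ} (hdet : a * e - b * c = 1) :
    max (C a * P + C b * Q).natDegree (C c * P + C e * Q).natDegree = d := by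
  have hP : P.natDegree ≤ d := by rw [← hdeg]; exact le_max_left _ _
  have hQ : Q.natDegree ≤ d := by rw [← hdeg]; exact le_max_right _ _
  have hle : ∀ s t : ℂ, (C s * P + C t * Q).natDegree ≤ d := fun s t =>
    (natDegree_add_le _ _).trans (max_le ((natDegree_C_mul_le _ _).trans hP)
      ((natDegree_C_mul_le _ _).trans hQ))
  have hco : ∀ s t : ℂ, (C s * P + C t * Q).coeff d = s * P.coeff d + t * Q.coeff d := by
    intro s t
    rw [coeff_add, coeff_C_mul, coeff_C_mul]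
  refine le_antisymm (max_le (hle _ _) (hle _ _)) ?_
  by_contra hlt
  push Not at hlt
  obtain ⟨h1, h2⟩ := max_lt_iff.1 hlt
  have h3 := coeff_eq_zero_of_natDegree_lt h1
  have h4 := coeff_eq_zero_of_natDegree_lt h2
  rw [hco] at h3 h4
  have h5 : P.coeff d = 0 := by linear_combination e * h3 - b * h4 - P.coeff d * hdet
  have h6 : Q.coeff d = 0 := by linear_combination -c * h3 + a * h4 - Q.coeff d * hdet
  rcases max_choice P.natDegree Q.natDegree with h | h
  · rw [h] at hdeg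
    rw [← hdeg] at h5
    have h7 : P = 0 := leadingCoeff_eq_zero.1 h5
    rw [h7, natDegree_zero] at hdeg
    omega
  · rw [h] at hdeg
    rw [← hdeg] at h6
    have h7 : Q = 0 := leadingCoeff_eq_zero.1 h6
    rw [h7, natDegree_zero] at hdeg
    omega

theorem mob_sp {d : ℕ} {x : CV d} (hx : ND x) {a b c e : ℂ} (hdet : a * e - b * c = 1) {z : ℂ}
    (hz : (C c * pol x 0 + C e * pol x 1).eval z ≠ 0) :
    mob a b c e (sp x (z : Sph)) = (((C a * pol x 0 + C b * pol x 1).eval z /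
      (C c * pol x 0 + C e * pol x 1).eval z : ℂ) : Sph) := by
  have h1 : a * e - b * c ≠ 0 := by rw [hdet]; exact one_ne_zero
  have h2 : hF x (z, 1) ≠ 0 := fun h => coe_ne z (hx _ h)
  rw [← pr_coe z, sp_pr hx (coe_ne z), mob_pr h1 h2, hF_one]
  simp only [eval_add, eval_mul, eval_C] at hz ⊢
  exact pr_ne (p := (a * eval z (pol x 0) + b * eval z (pol x 1),
    c * eval z (pol x 0) + e * eval z (pol x 1))) hz

theorem coeff_bound (P Q : ℂ[X]) : ∃ M : ℝ, 0 ≤ M ∧ ∀ i, ‖P.coeff i‖ ≤ M ∧ ‖Q.coeff i‖ ≤ M := by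
  have h1 : ∀ (R : ℂ[X]) (i : ℕ), ‖R.coeff i‖ ≤ ∑ j ∈ R.support, ‖R.coeff j‖ := by
    intro R i
    by_cases hi : i ∈ R.support
    · exact Finset.single_le_sum (f := fun j => ‖R.coeff j‖) (fun j _ => norm_nonneg _) hi
    · rw [notMem_support_iff.1 hi, norm_zero]
      exact Finset.sum_nonneg fun j _ => norm_nonneg _
  have h2 : ∀ R : ℂ[X], 0 ≤ ∑ j ∈ R.support, ‖R.coeff j‖ := fun R =>
    Finset.sum_nonneg fun j _ => norm_nonneg _
  refine ⟨∑ j ∈ P.support, ‖P.coeff j‖ + ∑ j ∈ Q.support, ‖Q.coeff j‖,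
    add_nonneg (h2 P) (h2 Q), fun i => ⟨?_, ?_⟩⟩
  · linarith [h1 P i, h2 Q]
  · linarith [h1 Q i, h2 P]

end Pool.Agent.R239.Fat
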