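import Mathlib
import Pool.Agent.R239.Fat.T9
import Pool.Agent.R239.Fat.T11

/-! Compositions of rational maps are rational maps. -/

set_option autoImplicit false

open Topology Filter Metric Set Polynomial
open scoped OnePoint
open Pool.Agent.H790R3.RB (CV hF ND sp pol hc pr)
open Pool.Agent.H790R3.RB.SP (pr_zero pr_ne pr_eq_iff pr_hc sp_pr sp_cont)
open Pool.Agent.H790R3.RB.PQ (hF_one hF_inf part1 sp_eval pol_natDegree)

namespace Pool.Agent.R239.Fat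

/-- binary forms of degree `n` as functions -/
def Fm (n : ℕ) : Submodule ℂ (ℂ × ℂ → ℂ) :=
  Submodule.span ℂ (Set.range fun (j : Fin (n + 1)) (p : ℂ × ℂ) =>
    p.1 ^ (j : ℕ) * p.2 ^ (n - (j : ℕ)))

theorem fm_mul {n m : ℕ} {φ ψ : ℂ × ℂ → ℂ} (hφ : φ ∈ Fm n) (hψ : ψ ∈ Fm m) :
    φ * ψ ∈ Fm (n + m) := by
  have h1 := Submodule.mul_mem_mul hφ hψ
  unfold Fm at h1
  rw [Submodule.span_mul_span] at h1
  refine Submodule.span_mono ?_ h1
  rintro _ ⟨_, ⟨i, rfl⟩, _, ⟨j, rfl⟩, rfl⟩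
  refine ⟨⟨(i : ℕ) + (j : ℕ), by have := i.2; have := j.2; omega⟩, ?_⟩
  funext p
  simp only [Pi.mul_apply]
  have hi := i.2
  have hj := j.2
  have e : n + m - ((i : ℕ) + (j : ℕ)) = (n - (i : ℕ)) + (m - (j : ℕ)) := by omega
  rw [e, pow_add, pow_add]
  ring

theorem fm_pow {n : ℕ} {φ : ℂ × ℂ → ℂ} (hφ : φ ∈ Fm n) (k : ℕ) : φ ^ k ∈ Fm (k * n) := by
  induction k with
  | zero =>
    rw [Nat.zero_mul, pow_zero]
    refine Submodule.subset_span ⟨0, ?_⟩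
    funext p
    simp
  | succ k ih =>
    rw [Nat.succ_mul, pow_succ]
    exact fm_mul ih hφ

theorem fm_hF {b : ℕ} (y : CV b) (i : Fin 2) :
    (fun p : ℂ × ℂ => ∑ j : Fin (b + 1), y (i, j) * (p.1 ^ (j : ℕ) * p.2 ^ (b - (j : ℕ)))) ∈
      Fm b := by
  have h1 : (fun p : ℂ × ℂ => ∑ j : Fin (b + 1), y (i, j) * (p.1 ^ (j : ℕ) * p.2 ^ (b - (j : ℕ)))) =
      ∑ j : Fin (b + 1), y (i, j) • (fun p : ℂ × ℂ => p.1 ^ (j : ℕ) * p.2 ^ (b - (j : ℕ))) := by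
    funext p
    rw [Finset.sum_apply]
    rfl
  rw [h1]
  exact Submodule.sum_mem _ fun j _ => Submodule.smul_mem _ _ (Submodule.subset_span ⟨j, rfl⟩)

theorem fm_comp {a b : ℕ} (x : CV a) (y : CV b) (i : Fin 2) :
    (fun p : ℂ × ℂ => ∑ j : Fin (a + 1), x (i, j) *
      ((hF y p).1 ^ (j : ℕ) * (hF y p).2 ^ (a - (j : ℕ)))) ∈ Fm (a * b) := by
  have h1 : (fun p : ℂ × ℂ => ∑ j : Fin (a + 1), x (i, j) *
      ((hF y p).1 ^ (j : ℕ) * (hF y p).2 ^ (a - (j : ℕ)))) =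
      ∑ j : Fin (a + 1), x (i, j) • ((fun p : ℂ × ℂ => (hF y p).1) ^ (j : ℕ) *
        (fun p : ℂ × ℂ => (hF y p).2) ^ (a - (j : ℕ))) := by
    funext p
    rw [Finset.sum_apply]
    rfl
  rw [h1]
  refine Submodule.sum_mem _ fun j _ => Submodule.smul_mem _ _ ?_
  have h2 := fm_mul (fm_pow (fm_hF y 0) (j : ℕ)) (fm_pow (fm_hF y 1) (a - (j : ℕ)))
  have h3 : (j : ℕ) * b + (a - (j : ℕ)) * b = a * b := by
    have := j.2
    rw [← Nat.add_mul]
    congr 1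
    omega
  rw [h3] at h2
  exact h2

theorem exists_coef {n : ℕ} {φ : ℂ × ℂ → ℂ} (hφ : φ ∈ Fm n) :
    ∃ c : Fin (n + 1) → ℂ, ∀ p, φ p = ∑ j : Fin (n + 1), c j * (p.1 ^ (j : ℕ) * p.2 ^ (n - (j : ℕ))) := by
  unfold Fm at hφ
  rw [Submodule.mem_span_range_iff_exists_fun] at hφ
  obtain ⟨c, hc⟩ := hφ
  refine ⟨c, fun p => ?_⟩
  rw [← hc, Finset.sum_apply]
  rfl

theorem exists_comp {a b : ℕ} (x : CV a) (y : CV b) :
    ∃ z : CV (a * b), ∀ p, hF z p = hF x (hF y p) := by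
  obtain ⟨c₀, h₀⟩ := exists_coef (fm_comp x y 0)
  obtain ⟨c₁, h₁⟩ := exists_coef (fm_comp x y 1)
  refine ⟨fun r => if r.1 = 0 then c₀ r.2 else c₁ r.2, fun p => ?_⟩
  refine Prod.ext ?_ ?_
  · exact (h₀ p).symm
  · exact (h₁ p).symm

theorem sp_comp {a b : ℕ} {x : CV a} {y : CV b} (hx : ND x) (hy : ND y) {z : CV (a * b)}
    (hz : ∀ p, hF z p = hF x (hF y p)) : ND z ∧ sp z = sp x ∘ sp y := by
  have hnd : ND z := fun p hp => hy p (hx _ (by rw [← hz]; exact hp))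
  refine ⟨hnd, ?_⟩
  funext s
  obtain ⟨p, hp, rfl⟩ := exists_pr s
  show sp z (pr p) = sp x (sp y (pr p))
  rw [sp_pr hnd hp, sp_pr hy hp, sp_pr hx (fun h => hp (hy p h)), hz]

theorem sp_iter {b : ℕ} {y : CV b} (hy : ND y) (n : ℕ) :
    ∃ z : CV (b ^ n), ND z ∧ sp z = (sp y)^[n] := by
  induction n with
  | zero =>
    rw [pow_zero]
    refine ⟨fun r => if (r.1 : ℕ) = 1 - (r.2 : ℕ) then 1 else 0, ?_⟩
    have h1 : ∀ p : ℂ × ℂ, hF (fun r : Fin 2 × Fin (1 + 1) =>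
        if (r.1 : ℕ) = 1 - (r.2 : ℕ) then (1 : ℂ) else 0) p = p := by
      intro p
      unfold hF
      rw [Fin.sum_univ_two, Fin.sum_univ_two]
      refine Prod.ext ?_ ?_ <;> simp
    have h2 : ND (fun r : Fin 2 × Fin (1 + 1) =>
        if (r.1 : ℕ) = 1 - (r.2 : ℕ) then (1 : ℂ) else 0) := fun p hp => by rwa [h1] at hp
    refine ⟨h2, ?_⟩
    funext s
    obtain ⟨p, hp, rfl⟩ := exists_pr s
    rw [sp_pr h2 hp, h1]
    rfl
  | succ n ih =>
    obtain ⟨z, hz, hz2⟩ := ih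
    rw [pow_succ']
    obtain ⟨w, hw⟩ := exists_comp y z
    obtain ⟨h1, h2⟩ := sp_comp hy hz hw
    refine ⟨w, h1, ?_⟩
    rw [h2, hz2, Function.iterate_succ']

theorem coprime_comb' {P Q : ℂ[X]} (h : IsCoprime P Q) {a b c e : ℂ} (hdet : a * e - b * c ≠ 0) :
    IsCoprime (C a * P + C b * Q) (C c * P + C e * Q) := by
  have h1 : (a / (a * e - b * c)) * e - (b / (a * e - b * c)) * c = 1 := by
    field_simp
  have h2 := coprime_comb h h1
  have h3 : C (a / (a * e - b * c)) * P + C (b / (a * e - b * c)) * Q =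
      C (a * e - b * c)⁻¹ * (C a * P + C b * Q) := by
    rw [div_eq_mul_inv, div_eq_mul_inv, C_mul, C_mul]
    ring
  rw [h3] at h2
  exact h2.of_mul_left_right

theorem degree_comb' {P Q : ℂ[X]} {d : ℕ} (hd : 1 ≤ d) (hdeg : max P.natDegree Q.natDegree = d)
    {a b c e : ℂ} (hdet : a * e - b * c ≠ 0) :
    max (C a * P + C b * Q).natDegree (C c * P + C e * Q).natDegree = d := by
  have h1 : (a / (a * e - b * c)) * e - (b / (a * e - b * c)) * c = 1 := by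
    field_simp
  have h2 := degree_comb hd hdeg h1
  have h3 : C (a / (a * e - b * c)) * P + C (b / (a * e - b * c)) * Q =
      C (a * e - b * c)⁻¹ * (C a * P + C b * Q) := by
    rw [div_eq_mul_inv, div_eq_mul_inv, C_mul, C_mul]
    ring
  rw [h3, natDegree_C_mul (inv_ne_zero hdet)] at h2
  exact h2

theorem mob_sp' {d : ℕ} {x : CV d} (hx : ND x) {a b c e : ℂ} (h1 : a * e - b * c ≠ 0) {z : ℂ}
    (hz : (C c * pol x 0 + C e * pol x 1).eval z ≠ 0) :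
    mob a b c e (sp x (z : Sph)) = (((C a * pol x 0 + C b * pol x 1).eval z /
      (C c * pol x 0 + C e * pol x 1).eval z : ℂ) : Sph) := by
  have h2 : hF x (z, 1) ≠ 0 := fun h => coe_ne z (hx _ h)
  rw [← pr_coe z, sp_pr hx (coe_ne z), mob_pr h1 h2, hF_one]
  simp only [eval_add, eval_mul, eval_C] at hz ⊢
  exact pr_ne (p := (a * eval z (pol x 0) + b * eval z (pol x 1),
    c * eval z (pol x 0) + e * eval z (pol x 1))) hz

end Pool.Agent.R239.Fat
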