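import Mathlib
import Pool.Agent.R239.Fat.T12
import Pool.Agent.Helper202.Univ

/-! Maps of the sphere near degenerate maps. -/

set_option autoImplicit false

open Topology Filter Metric Set Polynomial
open scoped OnePoint
open Pool.Agent.H790R3.RB (CV hF ND sp pol hc pr hF_contDiff)
open Pool.Agent.H790R3.RB.SP (pr_zero pr_ne pr_eq_iff pr_hc sp_pr sp_cont continuousAt_pr)
open Pool.Agent.H790R3.RB.PQ (hF_one hF_inf part1 sp_eval pol_natDegree pol_coeff pol_coeff_gt)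

namespace Pool.Agent.R239.Fat

/-- the coefficient vector of a pair of polynomials -/
noncomputable def mkv (D : ℕ) (P Q : ℂ[X]) : CV D :=
  fun r => if r.1 = 0 then P.coeff (r.2 : ℕ) else Q.coeff (r.2 : ℕ)

theorem pol_mkv {D : ℕ} {P Q : ℂ[X]} (hP : P.natDegree ≤ D) (hQ : Q.natDegree ≤ D) :
    pol (mkv D P Q) 0 = P ∧ pol (mkv D P Q) 1 = Q := by
  constructor
  · ext j
    rcases le_or_gt j D with h | h
    · have h1 := pol_coeff (mkv D P Q) 0 ⟨j, Nat.lt_succ_of_le h⟩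
      simp only at h1
      rw [h1]
      rfl
    · rw [pol_coeff_gt _ 0 j h, coeff_eq_zero_of_natDegree_lt (hP.trans_lt h)]
  · ext j
    rcases le_or_gt j D with h | h
    · have h1 := pol_coeff (mkv D P Q) 1 ⟨j, Nat.lt_succ_of_le h⟩
      simp only at h1
      rw [h1]
      rfl
    · rw [pol_coeff_gt _ 1 j h, coeff_eq_zero_of_natDegree_lt (hQ.trans_lt h)]

theorem hc_coe (z : ℂ) : hc (z : Sph) = (z, 1) := rfl

theorem hc_inf : hc (∞ : Sph) = (1, 0) := rfl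

theorem pr_nhds (s₀ : Sph) {Ω : Set (ℂ × ℂ)} (hΩ : Ω ∈ 𝓝 (hc s₀)) :
    {s | ∃ p ∈ Ω, p ≠ 0 ∧ pr p = s} ∈ 𝓝 s₀ := by
  induction s₀ using OnePoint.rec with
  | infty =>
    have h1 : ContinuousAt (fun w : ℂ => ((1, w) : ℂ × ℂ)) 0 := by fun_prop
    have h2 : (fun w : ℂ => ((1, w) : ℂ × ℂ)) ⁻¹' Ω ∈ 𝓝 (0 : ℂ) := h1.preimage_mem_nhds hΩ
    refine mem_of_superset (image_nhds_inf h2) ?_
    rintro _ ⟨w, hw, rfl⟩
    exact ⟨(1, w), hw, inf_ne w, rfl⟩
  | coe z =>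
    have h1 : ContinuousAt (fun w : ℂ => ((w, 1) : ℂ × ℂ)) z := by fun_prop
    have h2 : (fun w : ℂ => ((w, 1) : ℂ × ℂ)) ⁻¹' Ω ∈ 𝓝 z := h1.preimage_mem_nhds hΩ
    refine mem_of_superset (nhds_coe h2) ?_
    rintro _ ⟨w, hw, rfl⟩
    exact ⟨(w, 1), hw, coe_ne w, pr_coe w⟩

theorem ev_iff {X Y : Type} [TopologicalSpace X] [TopologicalSpace Y] {S : Set X} {x : X} {y : Y}
    {P : X × Y → Prop} : (∀ᶠ q in 𝓝[S] x ×ˢ 𝓝 y, P q) ↔ ∀ᶠ q in 𝓝 (x, y), q.1 ∈ S → P q := by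
  rw [← nhdsWithin_univ y, ← nhdsWithin_prod_eq, eventually_nhdsWithin_iff]
  simp

/-- joint continuity away from the holes -/
theorem jc {D : ℕ} {x₀ : CV D} {s₀ : Sph} (h : hF x₀ (hc s₀) ≠ 0) :
    Tendsto (fun q : CV D × Sph => sp q.1 q.2) (𝓝[{x | ND x}] x₀ ×ˢ 𝓝 s₀)
      (𝓝 (pr (hF x₀ (hc s₀)))) := by
  intro O hO
  rw [mem_map]
  have h1 : Continuous (fun q : CV D × (ℂ × ℂ) => hF q.1 q.2) := (hF_contDiff D 1).continuous
  have h2 : ContinuousAt (fun q : CV D × (ℂ × ℂ) => pr (hF q.1 q.2)) (x₀, hc s₀) :=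
    ContinuousAt.comp (g := pr) (f := fun q : CV D × (ℂ × ℂ) => hF q.1 q.2)
      (continuousAt_pr h) h1.continuousAt
  have h3 := h2.preimage_mem_nhds hO
  rw [mem_nhds_prod_iff] at h3
  obtain ⟨Ω₁, hΩ₁, Ω, hΩ, h4⟩ := h3
  have h5 : ∀ᶠ q : CV D × Sph in 𝓝 (x₀, s₀), q.1 ∈ {x | ND x} → sp q.1 q.2 ∈ O := by
    rw [nhds_prod_eq]
    filter_upwards [prod_mem_prod hΩ₁ (pr_nhds s₀ hΩ)]
    rintro ⟨x, s⟩ ⟨hx, p, hp, hp0, rfl⟩ hnd
    have h6 : pr (hF x p) ∈ O := h4 (Set.mk_mem_prod hx hp)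
    show sp x (pr p) ∈ O
    rw [sp_pr hnd hp0]
    exact h6
  exact ev_iff.2 h5

section

variable {D : ℕ} {x₀ : CV D} {ψ : Sph → Sph} {Hl : Set Sph}
  (hψ : ∀ s ∉ Hl, hF x₀ (hc s) ≠ 0 ∧ pr (hF x₀ (hc s)) = ψ s)

include hψ in
theorem jc_iter {s₀ : Sph} {n : ℕ} (h : ∀ i < n, ψ^[i] s₀ ∉ Hl) :
    Tendsto (fun q : CV D × Sph => (sp q.1)^[n] q.2) (𝓝[{x | ND x}] x₀ ×ˢ 𝓝 s₀)
      (𝓝 (ψ^[n] s₀)) := by
  induction n with
  | zero => exact tendsto_snd
  | succ n ih =>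
    have h1 := ih fun i hi => h i (by omega)
    obtain ⟨h2, h3⟩ := hψ _ (h n (by omega))
    have h4 := jc h2
    rw [h3] at h4
    have h5 : Tendsto (fun q : CV D × Sph => (q.1, (sp q.1)^[n] q.2))
        (𝓝[{x | ND x}] x₀ ×ˢ 𝓝 s₀) (𝓝[{x | ND x}] x₀ ×ˢ 𝓝 (ψ^[n] s₀)) :=
      tendsto_fst.prodMk h1
    rw [Function.iterate_succ_apply']
    refine (h4.comp h5).congr fun q => ?_
    show sp q.1 ((sp q.1)^[n] q.2) = (sp q.1)^[n + 1] q.2
    rw [Function.iterate_succ_apply']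

include hψ in
theorem jc_compact {K : Set Sph} (hK : IsCompact K) {n : ℕ} (h : ∀ s ∈ K, ∀ i < n, ψ^[i] s ∉ Hl)
    {O : Set Sph} (hO : IsOpen O) (hKO : ∀ s ∈ K, ψ^[n] s ∈ O) :
    ∀ᶠ x in 𝓝 x₀, ND x → ∀ s ∈ K, (sp x)^[n] s ∈ O := by
  have h1 : ∀ s ∈ K, ∀ᶠ q : CV D × Sph in 𝓝 (x₀, s), ND q.1 → (sp q.1)^[n] q.2 ∈ O := by
    intro s hs
    exact ev_iff.1 ((jc_iter hψ (h s hs)).eventually (hO.mem_nhds (hKO s hs)))
  have h2 := hK.eventually_forall_of_forall_eventually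
    (P := fun x s => ND x → (sp x)^[n] s ∈ O) h1
  filter_upwards [h2] with x hx hnd s hs
  exact hx s hs hnd

end

theorem att_of_iterate {f : Sph → Sph} {n : ℕ} (hn : n ≠ 0) {x : Sph} (h : Att f^[n] x) :
    Att f x := by
  obtain ⟨z, k, hk, hz, ⟨U, hU, hU'⟩, ht⟩ := h
  have h1 : ∀ j : ℕ, (f^[n])^[k * j] = f^[n * k * j] := by
    intro j
    rw [← Function.iterate_mul, Nat.mul_assoc]
  refine ⟨z, n * k, Nat.mul_pos (Nat.pos_of_ne_zero hn) hk, ?_, ⟨U, hU, fun w hw => ?_⟩, ?_⟩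
  · rw [Function.iterate_mul]; exact hz
  · have h2 := hU' w hw
    simp only [h1] at h2
    exact h2
  · simp only [h1] at ht
    exact ht

/-- local injectivity at regular points -/
theorem locInj_fin {d : ℕ} {x : CV d} {z : ℂ} (hQ : (pol x 1).eval z ≠ 0)
    (hW : (derivative (pol x 0) * pol x 1 - pol x 0 * derivative (pol x 1)).eval z ≠ 0) :
    LocInj (sp x) (z : Sph) := by
  set P := pol x 0 with hP
  set Q := pol x 1 with hQd
  set φ : ℂ → ℂ := fun w => P.eval w / Q.eval w with hφ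
  have hφd : HasStrictDerivAt φ
      (((derivative P).eval z * Q.eval z - P.eval z * (derivative Q).eval z) / Q.eval z ^ 2) z :=
    (P.hasStrictDerivAt z).div (Q.hasStrictDerivAt z) hQ
  have hne : ((derivative P).eval z * Q.eval z - P.eval z * (derivative Q).eval z) /
      Q.eval z ^ 2 ≠ 0 := by
    refine div_ne_zero ?_ (pow_ne_zero 2 hQ)
    intro h3
    apply hW
    rw [eval_sub, eval_mul, eval_mul]
    exact h3
  have hs' := hφd.hasStrictFDerivAt_equiv hne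
  set V := (hs'.toOpenPartialHomeomorph _).source ∩ {w | Q.eval w ≠ 0} with hV
  have hVn : V ∈ 𝓝 z := inter_mem ((hs'.toOpenPartialHomeomorph _).open_source.mem_nhds
    hs'.mem_toOpenPartialHomeomorph_source) (Q.continuous.continuousAt.eventually_ne hQ)
  refine ⟨_, nhds_coe hVn, ?_⟩
  rintro _ ⟨w, hw, rfl⟩ _ ⟨w', hw', rfl⟩ hww
  simp only at hww
  rw [sp_eval x w hw.2, sp_eval x w' hw'.2] at hww
  have h3 : φ w = φ w' := OnePoint.coe_injective hww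
  rw [(hs'.toOpenPartialHomeomorph _).injOn hw.1 hw'.1 h3]

/-- the derivative does not vanish at points of local injectivity -/
theorem ne_of_locInj {d : ℕ} {x : CV d} {z : ℂ} (hQ : (pol x 1).eval z ≠ 0)
    (h : LocInj (sp x) (z : Sph)) :
    (derivative (pol x 0) * pol x 1 - pol x 0 * derivative (pol x 1)).eval z ≠ 0 := by
  obtain ⟨U, hU, hinj⟩ := h
  set P := pol x 0 with hP
  set Q := pol x 1 with hQd
  have h1 : (fun w : ℂ => (w : Sph)) ⁻¹' U ∩ {w | Q.eval w ≠ 0} ∈ 𝓝 z :=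
    inter_mem (OnePoint.continuous_coe.continuousAt.preimage_mem_nhds hU)
      (Q.continuous.continuousAt.eventually_ne hQ)
  obtain ⟨r, hr, hr'⟩ := Metric.mem_nhds_iff.1 h1
  set φ : ℂ → ℂ := fun w => P.eval w / Q.eval w with hφ
  have hd : DifferentiableOn ℂ φ (ball z r) := fun w hw =>
    ((P.differentiable w).div (Q.differentiable w) (hr' hw).2).differentiableWithinAt
  have hi : InjOn φ (ball z r) := by
    intro w hw w' hw' hww
    have h2 : sp x (w : Sph) = sp x (w' : Sph) := by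
      rw [sp_eval x w (hr' hw).2, sp_eval x w' (hr' hw').2]
      congr 1
    exact OnePoint.coe_injective (hinj (hr' hw).1 (hr' hw').1 h2)
  have h2 := Pool.Agent.Helper202.Univ.deriv_ne_zero isOpen_ball hd hi (mem_ball_self hr)
  have h3 : HasDerivAt φ
      (((derivative P).eval z * Q.eval z - P.eval z * (derivative Q).eval z) / Q.eval z ^ 2) z :=
    (P.hasDerivAt z).div (Q.hasDerivAt z) hQ
  rw [h3.deriv] at h2
  intro h4
  apply h2
  rw [eval_sub, eval_mul, eval_mul] at h4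
  rw [h4, zero_div]

/-- local injectivity at simple poles -/
theorem locInj_pole {d : ℕ} {x : CV d} (hx : ND x) {z : ℂ} (hQ : (pol x 1).eval z = 0)
    (hP : (pol x 0).eval z ≠ 0) (hQ' : (derivative (pol x 1)).eval z ≠ 0) :
    LocInj (sp x) (z : Sph) := by
  set y : CV d := fun r => x (1 - r.1, r.2) with hy
  have h0 : pol y 0 = pol x 1 := rfl
  have h1 : pol y 1 = pol x 0 := rfl
  have h2 : LocInj (sp y) (z : Sph) := by
    refine locInj_fin (by rw [h1]; exact hP) ?_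
    rw [h0, h1, eval_sub, eval_mul, eval_mul, hQ, zero_mul, sub_zero]
    exact mul_ne_zero hQ' hP
  have hF' : ∀ p, hF y p = ((hF x p).2, (hF x p).1) := fun p => rfl
  have hyn : ND y := by
    intro p hp
    apply hx
    rw [hF'] at hp
    exact Prod.ext (congrArg Prod.snd hp) (congrArg Prod.fst hp)
  obtain ⟨U, hU, hinj⟩ := h2
  refine ⟨U, hU, fun a ha b hb hab => hinj ha hb ?_⟩
  have hdet : (0 : ℂ) * 0 - 1 * 1 ≠ 0 := by norm_num
  have h3 : ∀ s, sp y s = mob 0 1 1 0 (sp x s) := by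
    intro s
    obtain ⟨p, hp, rfl⟩ := exists_pr s
    rw [sp_pr hyn hp, sp_pr hx hp, mob_pr hdet (fun h => hp (hx p h)), hF']
    congr 1
    exact Prod.ext (by simp) (by simp)
  rw [h3, h3, hab]

end Pool.Agent.R239.Fat
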