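import Mathlib
import Pool.Agent.R239.Fat.T14

/-! All nondegenerate maps near a generic degenerate map are hyperbolic. -/

set_option autoImplicit false

open Topology Filter Metric Set Polynomial
open scoped OnePoint
open Pool.Agent.H790R3.RB (CV hF ND sp pol hc pr hF_contDiff cr cr_self cr_smul_left)
open Pool.Agent.H790R3.RB.SP (pr_zero pr_ne pr_eq_iff pr_hc sp_pr sp_cont continuousAt_pr)
open Pool.Agent.H790R3.RB.PQ (hF_one hF_inf part1 sp_eval pol_natDegree pol_coeff pol_coeff_gt)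

namespace Pool.Agent.R239.Fat

theorem pol_eval_cont (D : ℕ) (i : Fin 2) :
    Continuous fun q : CV D × ℂ => (pol q.1 i).eval q.2 := by
  have h : (fun q : CV D × ℂ => (pol q.1 i).eval q.2) =
      fun q : CV D × ℂ => ∑ j : Fin (D + 1), q.1 (i, j) * q.2 ^ (j : ℕ) := by
    funext q
    unfold pol
    rw [eval_finsetSum]
    exact Finset.sum_congr rfl fun j _ => eval_monomial
  rw [h]
  fun_prop

theorem pol_deriv_cont (D : ℕ) (i : Fin 2) :
    Continuous fun q : CV D × ℂ => (derivative (pol q.1 i)).eval q.2 := by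
  have h : (fun q : CV D × ℂ => (derivative (pol q.1 i)).eval q.2) =
      fun q : CV D × ℂ => ∑ j : Fin (D + 1), q.1 (i, j) * (j : ℕ) * q.2 ^ ((j : ℕ) - 1) := by
    funext q
    unfold pol
    rw [derivative_sum, eval_finsetSum]
    refine Finset.sum_congr rfl fun j _ => ?_
    rw [derivative_monomial, eval_monomial]
  rw [h]
  fun_prop

theorem ev_coe {X : Type} [TopologicalSpace X] {x : X} {z : ℂ} {P : X × Sph → Prop}
    (h : ∀ᶠ q : X × ℂ in 𝓝 (x, z), P (q.1, (q.2 : Sph))) :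
    ∀ᶠ q in 𝓝 (x, (z : Sph)), P q := by
  have h1 : 𝓝 (z : Sph) = map (fun w : ℂ => (w : Sph)) (𝓝 z) :=
    (OnePoint.isOpenEmbedding_coe.map_nhds_eq z).symm
  rw [nhds_prod_eq] at h
  rw [nhds_prod_eq, h1]
  have h2 : 𝓝 x ×ˢ map (fun w : ℂ => (w : Sph)) (𝓝 z) =
      map (fun p : X × ℂ => (p.1, (p.2 : Sph))) (𝓝 x ×ˢ 𝓝 z) := by
    have h3 := Filter.prod_map_map_eq (f₁ := 𝓝 x) (f₂ := 𝓝 z) (m₁ := (id : X → X))
      (m₂ := fun w : ℂ => (w : Sph))
    rw [Filter.map_id] at h3
    exact h3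
  rw [h2, eventually_map]
  exact h

/-- the values to be controlled -/
def Cval {d m : ℕ} (y : CV d) (q : Fin m → ℂ) : Set Sph :=
  {v | v = ∞ ∨ v = sp y ∞ ∨ (∃ c, ¬ LocInj (sp y) c ∧ v = sp y c) ∨ ∃ i, v = sp y (q i : Sph)}

/-- the polynomial with the roots `q` -/
noncomputable def Hp {m : ℕ} (q : Fin m → ℂ) : ℂ[X] := ∏ j, (X - C (q j))

theorem Hp_natDegree {m : ℕ} (q : Fin m → ℂ) : (Hp q).natDegree = m := by
  unfold Hp
  rw [natDegree_prod_of_monic _ _ fun j _ => monic_X_sub_C _]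
  simp

theorem Hp_monic {m : ℕ} (q : Fin m → ℂ) : (Hp q).Monic :=
  monic_prod_of_monic _ _ fun _ _ => monic_X_sub_C _

theorem Hp_eval {m : ℕ} (q : Fin m → ℂ) (z : ℂ) : (Hp q).eval z = ∏ j, (z - q j) := by
  unfold Hp
  rw [eval_prod]
  simp

theorem Hp_ne {m : ℕ} {q : Fin m → ℂ} {z : ℂ} (h : ∀ j, z ≠ q j) : (Hp q).eval z ≠ 0 := by
  rw [Hp_eval, Finset.prod_ne_zero_iff]
  exact fun j _ => sub_ne_zero.2 (h j)

theorem Hp_root {m : ℕ} (q : Fin m → ℂ) (j : Fin m) : (Hp q).eval (q j) = 0 := by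
  rw [Hp_eval]
  exact Finset.prod_eq_zero (Finset.mem_univ j) (sub_self _)

theorem Hp_deriv {m : ℕ} {q : Fin m → ℂ} (hinj : Function.Injective q) (j : Fin m) :
    (derivative (Hp q)).eval (q j) ≠ 0 := by
  have h1 : Hp q = Lagrange.nodal Finset.univ q := rfl
  rw [h1, Lagrange.eval_nodal_derivative_eval_node_eq (Finset.mem_univ j), Lagrange.eval_nodal,
    Finset.prod_ne_zero_iff]
  intro i hi
  exact sub_ne_zero.2 fun h => (Finset.ne_of_mem_erase hi) (hinj h).symm

/-- the degenerate map -/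
noncomputable def deg {d m : ℕ} (y : CV d) (q : Fin m → ℂ) : CV (m + d) :=
  mkv (m + d) (Hp q * pol y 0) (Hp q * pol y 1)

theorem pol_deg {d m : ℕ} (y : CV d) (q : Fin m → ℂ) :
    pol (deg y q) 0 = Hp q * pol y 0 ∧ pol (deg y q) 1 = Hp q * pol y 1 := by
  refine pol_mkv ?_ ?_
  · refine natDegree_mul_le.trans ?_
    rw [Hp_natDegree]
    have := pol_natDegree y 0
    omega
  · refine natDegree_mul_le.trans ?_
    rw [Hp_natDegree]
    have := pol_natDegree y 1
    omega

theorem deg_hole {d m : ℕ} {y : CV d} (hy : ND y) (q : Fin m → ℂ) {s : Sph}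
    (hs : s ∉ Set.range fun j => ((q j : ℂ) : Sph)) :
    hF (deg y q) (hc s) ≠ 0 ∧ pr (hF (deg y q) (hc s)) = sp y s := by
  obtain ⟨h0, h1⟩ := pol_deg y q
  have key : ∃ a : ℂ, a ≠ 0 ∧ hF (deg y q) (hc s) = a • hF y (hc s) := by
    induction s using OnePoint.rec with
    | infty =>
      refine ⟨1, one_ne_zero, ?_⟩
      rw [hc_inf, hF_inf, hF_inf, h0, h1, one_smul]
      have h2 : (Hp q).coeff m = 1 := by
        have := Hp_monic q
        rw [Monic, leadingCoeff, Hp_natDegree] at this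
        exact this
      rw [coeff_mul_add_eq_of_natDegree_le (Hp_natDegree q).le (pol_natDegree y 0),
        coeff_mul_add_eq_of_natDegree_le (Hp_natDegree q).le (pol_natDegree y 1), h2, one_mul,
        one_mul]
    | coe z =>
      refine ⟨(Hp q).eval z, Hp_ne fun j hj => hs ⟨j, by rw [hj]⟩, ?_⟩
      rw [hc_coe, hF_one, hF_one, h0, h1, eval_mul, eval_mul]
      rfl
  obtain ⟨a, ha, h⟩ := key
  have h3 : hF y (hc s) ≠ 0 := fun h3 => (pr_hc s).2 (hy _ h3)
  have h4 : a • hF y (hc s) ≠ 0 := smul_ne_zero ha h3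
  rw [h]
  refine ⟨h4, ?_⟩
  have h5 : sp y s = pr (hF y (hc s)) := rfl
  rw [h5, pr_eq_iff h4 h3, cr_smul_left, cr_self, mul_zero]

section

variable {d m : ℕ} (hd : 1 ≤ d) {y : CV d} (hy : ND y) {A : Set Sph} (hA : A.Finite)
  (hmap : ∀ a ∈ A, sp y a ∈ A) (hs : ∀ a ∈ A, ∃ n, Snk (sp y) n a)
  {q : Fin m → ℂ} (hinj : Function.Injective q) (hQ : ∀ j, (pol y 1).eval (q j) ≠ 0)

include hy in
/-- critical points of nearby maps near the point `s₀` -/
theorem crit_near (hinj : Function.Injective q) (hQ : ∀ j, (pol y 1).eval (q j) ≠ 0) {O : Set Sph}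
    (hO : IsOpen O) (hOC : ∀ v ∈ Cval y q, v ∈ O) (s₀ : Sph) :
    ∀ᶠ p : CV (m + d) × Sph in 𝓝 (deg y q, s₀), ND p.1 → ¬ LocInj (sp p.1) p.2 →
      sp p.1 p.2 ∈ O := by
  obtain ⟨h0, h1⟩ := pol_deg y q
  have hA1 : s₀ ∉ (Set.range fun j => ((q j : ℂ) : Sph)) → sp y s₀ ∈ O →
      ∀ᶠ p : CV (m + d) × Sph in 𝓝 (deg y q, s₀), ND p.1 → ¬ LocInj (sp p.1) p.2 →
      sp p.1 p.2 ∈ O := by
    intro hh hv
    obtain ⟨h2, h3⟩ := deg_hole hy q hh
    have h4 := jc h2
    rw [h3] at h4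
    filter_upwards [ev_iff.1 (h4.eventually (hO.mem_nhds hv))] with p hp hnd _
    exact hp hnd
  induction s₀ using OnePoint.rec with
  | infty =>
    refine hA1 ?_ (hOC _ (Or.inr (Or.inl rfl)))
    rintro ⟨j, hj⟩
    exact OnePoint.coe_ne_infty _ hj
  | coe z =>
    have c0 : Continuous fun p : CV (m + d) × ℂ => (pol p.1 0).eval p.2 := pol_eval_cont _ 0
    have c1 : Continuous fun p : CV (m + d) × ℂ => (pol p.1 1).eval p.2 := pol_eval_cont _ 1
    have d0 : Continuous fun p : CV (m + d) × ℂ => (derivative (pol p.1 0)).eval p.2 :=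
      pol_deriv_cont _ 0
    have d1 : Continuous fun p : CV (m + d) × ℂ => (derivative (pol p.1 1)).eval p.2 :=
      pol_deriv_cont _ 1
    by_cases hz : ∃ j, z = q j
    · -- a hole
      obtain ⟨j, rfl⟩ := hz
      set z := q j with hzj
      have hH := Hp_root q j
      have hH' := Hp_deriv hinj j
      rw [← hzj] at hH hH'
      have hQz := hQ j
      rw [← hzj] at hQz
      have hd1z : (derivative (pol (deg y q) 1)).eval z ≠ 0 := by
        rw [h1, derivative_mul, eval_add, eval_mul, eval_mul, hH, zero_mul, add_zero]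
        exact mul_ne_zero hH' hQz
      set E : CV (m + d) × ℂ → ℂ := fun p => (derivative (pol p.1 0)).eval p.2 /
        (derivative (pol p.1 1)).eval p.2 with hE
      have hcE : ContinuousAt E (deg y q, z) := d0.continuousAt.div d1.continuousAt hd1z
      have hEz : E (deg y q, z) = (pol y 0).eval z / (pol y 1).eval z := by
        rw [hE]
        simp only [h0, h1, derivative_mul, eval_add, eval_mul, hH, zero_mul, add_zero]
        rw [mul_div_mul_left _ _ hH']
      have hval : sp y (z : Sph) = (((pol y 0).eval z / (pol y 1).eval z : ℂ) : Sph) :=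
        sp_eval y z hQz
      have hOz : ((E (deg y q, z) : ℂ) : Sph) ∈ O := by
        rw [hEz, ← hval]
        exact hOC _ (Or.inr (Or.inr (Or.inr ⟨j, rfl⟩)))
      have e1 : ∀ᶠ p : CV (m + d) × ℂ in 𝓝 (deg y q, z), ((E p : ℂ) : Sph) ∈ O :=
        (ContinuousAt.comp (g := fun w : ℂ => (w : Sph)) (f := E)
          OnePoint.continuous_coe.continuousAt hcE).preimage_mem_nhds (hO.mem_nhds hOz)
      have e2 : ∀ᶠ p : CV (m + d) × ℂ in 𝓝 (deg y q, z),
          (derivative (pol p.1 1)).eval p.2 ≠ 0 := d1.continuousAt.eventually_ne hd1z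
      apply ev_coe
      filter_upwards [e1, e2] with p hp1 hp2 hnd hcr
      show sp p.1 (p.2 : Sph) ∈ O
      have hcr' : ¬ LocInj (sp p.1) (p.2 : Sph) := hcr
      by_cases hQx : (pol p.1 1).eval p.2 = 0
      · have hPx : (pol p.1 0).eval p.2 ≠ 0 := by
          intro hPx
          have h2 : hF p.1 (p.2, 1) = 0 := by
            rw [hF_one, hPx, hQx]
            rfl
          exact coe_ne p.2 (hnd _ h2)
        exact absurd (locInj_pole hnd hQx hPx hp2) hcr'
      · have hW : (derivative (pol p.1 0) * pol p.1 1 -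
            pol p.1 0 * derivative (pol p.1 1)).eval p.2 = 0 := by
          by_contra hW
          exact hcr' (locInj_fin hQx hW)
        rw [eval_sub, eval_mul, eval_mul] at hW
        have h2 : (pol p.1 0).eval p.2 / (pol p.1 1).eval p.2 = E p := by
          rw [hE]
          show _ = (derivative (pol p.1 0)).eval p.2 / (derivative (pol p.1 1)).eval p.2
          rw [div_eq_div_iff hQx hp2]
          linear_combination -hW
        rw [sp_eval p.1 p.2 hQx, h2]
        exact hp1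
    · push Not at hz
      have hh : (z : Sph) ∉ (Set.range fun j => ((q j : ℂ) : Sph)) := by
        rintro ⟨j, hj⟩
        exact hz j (OnePoint.coe_injective hj).symm
      by_cases hQz : (pol y 1).eval z = 0
      · have h2 : sp y (z : Sph) = ∞ := by
          show pr (hF y (hc (z : Sph))) = ∞
          rw [hc_coe, hF_one]
          exact pr_zero hQz
        refine hA1 hh ?_
        rw [h2]
        exact hOC _ (Or.inl rfl)
      · by_cases hl : LocInj (sp y) (z : Sph)
        · have hW := ne_of_locInj hQz hl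
          rw [eval_sub, eval_mul, eval_mul] at hW
          have hHz : (Hp q).eval z ≠ 0 := Hp_ne hz
          have e1 : ∀ᶠ p : CV (m + d) × ℂ in 𝓝 (deg y q, z), (pol p.1 1).eval p.2 ≠ 0 := by
            refine c1.continuousAt.eventually_ne ?_
            rw [h1, eval_mul]
            exact mul_ne_zero hHz hQz
          have e2 : ∀ᶠ p : CV (m + d) × ℂ in 𝓝 (deg y q, z),
              (derivative (pol p.1 0)).eval p.2 * (pol p.1 1).eval p.2 -
                (pol p.1 0).eval p.2 * (derivative (pol p.1 1)).eval p.2 ≠ 0 := by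
            refine ((d0.mul c1).sub (c0.mul d1)).continuousAt.eventually_ne ?_
            show (derivative (pol (deg y q) 0)).eval z * (pol (deg y q) 1).eval z -
              (pol (deg y q) 0).eval z * (derivative (pol (deg y q) 1)).eval z ≠ 0
            rw [h0, h1, derivative_mul, derivative_mul, eval_add, eval_add, eval_mul, eval_mul,
              eval_mul, eval_mul, eval_mul, eval_mul]
            have h3 : ((derivative (Hp q)).eval z * (pol y 0).eval z +
                (Hp q).eval z * (derivative (pol y 0)).eval z) *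
                ((Hp q).eval z * (pol y 1).eval z) -
                (Hp q).eval z * (pol y 0).eval z * ((derivative (Hp q)).eval z *
                (pol y 1).eval z + (Hp q).eval z * (derivative (pol y 1)).eval z) =
                (Hp q).eval z ^ 2 * ((derivative (pol y 0)).eval z * (pol y 1).eval z -
                (pol y 0).eval z * (derivative (pol y 1)).eval z) := by ring
            rw [h3]
            exact mul_ne_zero (pow_ne_zero 2 hHz) hW
          apply ev_coe
          filter_upwards [e1, e2] with p hp1 hp2 hnd hcr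
          refine absurd (locInj_fin hp1 ?_) hcr
          rw [eval_sub, eval_mul, eval_mul]
          exact hp2
        · exact hA1 hh (hOC _ (Or.inr (Or.inr (Or.inl ⟨_, hl, rfl⟩))))

include hd hy hA hmap hs in
/-- All nondegenerate maps near a generic degenerate map are hyperbolic. -/
theorem near_hyp (hcrit : ∀ c, ¬ LocInj (sp y) c → AttBy (sp y) A c) (hinf : AttBy (sp y) A ∞)
    (hinj : Function.Injective q) (hQ : ∀ j, (pol y 1).eval (q j) ≠ 0)
    (hqB : ∀ j, AttBy (sp y) A (sp y (q j : Sph))) (hqA : ∀ j, ((q j : ℂ) : Sph) ∉ A)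
    (hesc : ∀ v ∈ Cval y q, ∀ n j, (sp y)^[n] v ≠ ((q j : ℂ) : Sph)) :
    ∀ᶠ x in 𝓝 (deg y q), ND x → Hyp (sp x) := by
  have hyH : Hol (sp y) := hol_sp hd hy
  set Hl : Set Sph := Set.range fun j => ((q j : ℂ) : Sph) with hHl
  have hHlf : Hl.Finite := Set.finite_range _
  have hψ : ∀ s ∉ Hl, hF (deg y q) (hc s) ≠ 0 ∧ pr (hF (deg y q) (hc s)) = sp y s :=
    fun s hs => deg_hole hy q hs
  obtain ⟨U, hUo, hAU, hU1, hU2⟩ := absorb hyH.cont hA hmap hs
  have hAHl : ∀ a ∈ A, a ∉ Hl := by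
    rintro a ha ⟨j, rfl⟩
    exact hqA j ha
  set V₁ : Set Sph := U ∩ Hlᶜ with hV₁
  have hV₁o : IsOpen V₁ := hUo.inter hHlf.isClosed.isOpen_compl
  have hAV₁ : A ⊆ V₁ := fun a ha => ⟨hAU ha, hAHl a ha⟩
  obtain ⟨n₁, hn₁⟩ := hU2 V₁ hV₁o hAV₁
  obtain ⟨z₀, hz₀⟩ : ∃ z₀ : ℂ, (z₀ : Sph) ∉ A := by
    by_contra hcon
    push Not at hcon
    have h1 : (Set.range fun z : ℂ => (z : Sph)) ⊆ A := by
      rintro _ ⟨z, rfl⟩
      exact hcon z
    exact (Set.infinite_range_of_injective OnePoint.coe_injective) (hA.subset h1)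
  set O₁ : Set Sph := ((⋂ i ∈ Finset.range n₁, (sp y)^[i] ⁻¹' V₁) ∩ U) ∩ {(z₀ : Sph)}ᶜ with hO₁
  have hO₁o : IsOpen O₁ := ((isOpen_biInter_finset fun i _ =>
    hV₁o.preimage (hyH.cont.iterate i)).inter hUo).inter isOpen_compl_singleton
  have hAO₁ : A ⊆ O₁ := by
    intro a ha
    refine ⟨⟨?_, hAU ha⟩, fun h => hz₀ (by rw [mem_singleton_iff] at h; rwa [← h])⟩
    rw [mem_iInter₂]
    intro i _
    exact hAV₁ (iter_mem hmap ha i)
  obtain ⟨W, hWo, hAW, hWcl, hWc⟩ := exists_open_between_and_isCompact_closure hA.isCompact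
    hO₁o hAO₁
  obtain ⟨W₁, hW₁o, hAW₁, hW₁cl, hW₁c⟩ := exists_open_between_and_isCompact_closure
    hA.isCompact hWo hAW
  obtain ⟨n₂, hn₂⟩ := hU2 W₁ hW₁o hAW₁
  have hz₀W : (z₀ : Sph) ∉ closure W := fun h => (hWcl h).2 rfl
  have hWhole : ∀ s ∈ closure W, ∀ i, (sp y)^[i] s ∉ Hl := by
    intro s hs i
    have h1 := hWcl hs
    by_cases hi : i < n₁
    · have h2 := h1.1.1
      rw [mem_iInter₂] at h2
      exact (h2 i (Finset.mem_range.2 hi)).2
    · exact (hn₁ i (by omega) s h1.1.2).2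
  have ht := jc_compact hψ hWc (n := n₂ + 1) (fun s hs i _ => hWhole s hs i) hW₁o
    (fun s hs => hn₂ (n₂ + 1) (by omega) s (hWcl hs).1.2)
  have hspH : ∀ x : CV (m + d), ND x → Hol (sp x) := fun x hx => hol_sp (by omega) hx
  have htrap : ∀ᶠ x in 𝓝 (deg y q), ND x → ∀ s ∈ W, Att (sp x) s := by
    filter_upwards [ht] with x hx hnd s hs
    have hit : ∀ n, Hol (sp x)^[n] := by
      intro n
      induction n with
      | zero => exact Hol.id
      | succ n ih => rw [Function.iterate_succ']; exact ih.comp (hspH x hnd)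
    refine att_of_iterate (n := n₂ + 1) (by omega) ?_
    exact trap_att (hit _) hWo hW₁c hW₁cl hz₀W
      (fun v hv => subset_closure (hx hnd v (subset_closure hv))) s hs
  -- the controlled values
  have hCf : (Cval y q).Finite := by
    have h1 : Cval y q ⊆ {∞} ∪ {sp y ∞} ∪ {e | ∃ c, ¬ LocInj (sp y) c ∧ e = sp y c} ∪
        Set.range fun i => sp y (q i : Sph) := by
      rintro v (rfl | rfl | h | ⟨i, rfl⟩)
      · exact Or.inl (Or.inl (Or.inl rfl))
      · exact Or.inl (Or.inl (Or.inr rfl))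
      · exact Or.inl (Or.inr h)
      · exact Or.inr ⟨i, rfl⟩
    refine Set.Finite.subset ?_ h1
    refine (((Set.finite_singleton _).union (Set.finite_singleton _)).union ?_).union
      (Set.finite_range _)
    obtain ⟨T, hT⟩ := hyH.fcv
    refine T.finite_toSet.subset ?_
    rintro _ ⟨c, hc, rfl⟩
    exact hT c hc
  have hCB : ∀ v ∈ Cval y q, AttBy (sp y) A v := by
    have hstep : ∀ z, AttBy (sp y) A z → AttBy (sp y) A (sp y z) := by
      intro z hz
      obtain ⟨n, hn⟩ := (hU1 z).1 hz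
      refine (hU1 _).2 ⟨n₂ + n, ?_⟩
      have h1 : (sp y)^[n₂ + n] (sp y z) = (sp y)^[n₂ + 1] ((sp y)^[n] z) := by
        rw [← Function.iterate_succ_apply, ← Function.iterate_add_apply]
        congr 1
        omega
      rw [h1]
      exact ((hWcl (subset_closure (hW₁cl (subset_closure
        (hn₂ (n₂ + 1) (by omega) _ hn))))).1).2
    rintro v (rfl | rfl | ⟨c, hc, rfl⟩ | ⟨i, rfl⟩)
    · exact hinf
    · exact hstep _ hinf
    · exact hstep _ (hcrit c hc)
    · exact hqB i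
  have hpt : ∀ v ∈ Cval y q, ∃ k : ℕ, (sp y)^[k] v ∈ W := by
    intro v hv
    obtain ⟨n, hn⟩ := (hU1 v).1 (hCB v hv)
    refine ⟨n₂ + n, ?_⟩
    rw [Function.iterate_add_apply]
    exact hW₁cl (subset_closure (hn₂ n₂ le_rfl _ hn))
  choose! k hk using hpt
  have hnb : ∀ v ∈ Cval y q, ∃ Ω₁ ∈ 𝓝 (deg y q), ∃ Ω₂ : Set Sph, IsOpen Ω₂ ∧ v ∈ Ω₂ ∧
      ∀ x ∈ Ω₁, ND x → ∀ s ∈ Ω₂, (sp x)^[k v] s ∈ W := by
    intro v hv
    have h1 := ev_iff.1 ((jc_iter hψ (n := k v) (s₀ := v) (fun i _ => by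
      rintro ⟨j, hj⟩
      exact hesc v hv i j hj.symm)).eventually (hWo.mem_nhds (hk v hv)))
    rw [nhds_prod_eq, eventually_prod_iff] at h1
    obtain ⟨pa, hpa, pb, hpb, h2⟩ := h1
    obtain ⟨Ω₂, h3, h4, h5⟩ := _root_.mem_nhds_iff.1 hpb
    exact ⟨{x | pa x}, hpa, Ω₂, h4, h5, fun x hx hnd s hs => h2 hx (h3 hs) hnd⟩
  choose! Ω₁ hΩ₁ Ω₂ hΩ₂o hΩ₂v hΩ using hnb
  set O : Set Sph := ⋃ v ∈ Cval y q, Ω₂ v with hO
  have hOo : IsOpen O := isOpen_biUnion fun v hv => hΩ₂o v hv
  have hOC : ∀ v ∈ Cval y q, v ∈ O := fun v hv => mem_biUnion hv (hΩ₂v v hv)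
  have hall : ∀ᶠ x in 𝓝 (deg y q), ∀ v ∈ Cval y q, x ∈ Ω₁ v :=
    (eventually_all_finite hCf).2 fun v hv => hΩ₁ v hv
  have hcr := isCompact_univ.eventually_forall_of_forall_eventually
    (P := fun (x : CV (m + d)) (s : Sph) => ND x → ¬ LocInj (sp x) s → sp x s ∈ O)
    (fun s _ => crit_near hy hinj hQ hOo hOC s)
  filter_upwards [htrap, hall, hcr] with x hx1 hx2 hx3 hnd c hc
  have h1 := hx3 c (mem_univ c) hnd hc
  rw [hO, mem_iUnion₂] at h1
  obtain ⟨v, hv, h2⟩ := h1
  have h3 := hΩ v hv x (hx2 v hv) hnd _ h2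
  apply att_of_iter (hspH x hnd).cont (m := 1)
  exact att_of_iter (hspH x hnd).cont (m := k v) (hx1 hnd _ h3)

end

end Pool.Agent.R239.Fat
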