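import Mathlib
import Pool.Agent.R239.Fat.T15

/-! Generic holes. -/

set_option autoImplicit false

open Topology Filter Metric Set Polynomial
open scoped OnePoint
open Pool.Agent.H790R3.RB (CV hF ND sp pol hc pr)
open Pool.Agent.H790R3.RB.PQ (part1)

namespace Pool.Agent.R239.Fat

theorem attBy_step {g : Sph → Sph} (hg : Continuous g) {A : Set Sph} (hmap : ∀ a ∈ A, g a ∈ A)
    {z : Sph} (h : AttBy g A z) (n : ℕ) : AttBy g A (g^[n] z) := by
  obtain ⟨a, ha, p, hp, ht⟩ := h
  refine ⟨g^[n] a, iter_mem hmap ha n, p, hp, ?_⟩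
  have h1 := ((hg.iterate n).tendsto a).comp ht
  refine h1.congr fun k => ?_
  show g^[n] (g^[p * k] z) = g^[p * k] (g^[n] z)
  rw [← Function.iterate_add_apply, ← Function.iterate_add_apply, Nat.add_comm]

theorem attBy_back {g : Sph → Sph} (hg : Continuous g) {A : Set Sph} (hA : A.Finite)
    (hmap : ∀ a ∈ A, g a ∈ A) (hs : ∀ a ∈ A, ∃ n, Snk g n a) {z : Sph} {n : ℕ}
    (h : AttBy g A (g^[n] z)) : AttBy g A z := by
  obtain ⟨U, -, -, hU, -⟩ := absorb hg hA hmap hs
  obtain ⟨k, hk⟩ := (hU _).1 h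
  rw [← Function.iterate_add_apply] at hk
  exact (hU _).2 ⟨_, hk⟩

/-- periodic points which are attracted belong to `A` -/
theorem periodic_mem {g : Sph → Sph} {A : Set Sph} {z : Sph} (h : AttBy g A z) {n : ℕ}
    (hn : n ≠ 0) (hz : g^[n] z = z) : z ∈ A := by
  obtain ⟨a, ha, p, hp, ht⟩ := h
  have h1 : Tendsto (fun k : ℕ => g^[p * (n * k)] z) atTop (𝓝 a) :=
    ht.comp (tendsto_id.const_mul_atTop' (Nat.pos_of_ne_zero hn))
  have h2 : ∀ k : ℕ, g^[p * (n * k)] z = z := by
    intro k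
    rw [show p * (n * k) = n * (p * k) by ring, Function.iterate_mul]
    exact Function.iterate_fixed hz _
  simp only [h2] at h1
  rw [tendsto_nhds_unique tendsto_const_nhds h1]
  exact ha

theorem compl_finite_open_dense {S : Set ℂ} (hS : S.Finite) : IsOpen Sᶜ ∧ Dense Sᶜ :=
  ⟨hS.isClosed.isOpen_compl, hS.countable.dense_compl ℂ⟩

section

variable {d m : ℕ} (hd : 1 ≤ d) {y : CV d} (hy : ND y) {A : Set Sph} (hA : A.Finite)
  (hmap : ∀ a ∈ A, sp y a ∈ A) (hs : ∀ a ∈ A, ∃ n, Snk (sp y) n a)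

theorem coord {S : Set ℂ} (hS : IsOpen S) (hSd : Dense S) (j : Fin m) :
    ∀ᶠ q : Fin m → ℂ in residual _, q j ∈ S :=
  residual_of_dense_open (hS.preimage (continuous_apply j)) (hSd.preimage (isOpenMap_eval j))

/-- generic holes -/
theorem generic_holes (hd : 1 ≤ d) (hy : ND y) (hA : A.Finite) (hmap : ∀ a ∈ A, sp y a ∈ A)
    (hs : ∀ a ∈ A, ∃ n, Snk (sp y) n a) (hBd : Dense {z | AttBy (sp y) A z}) :
    Dense {q : Fin m → ℂ | Function.Injective q ∧ (∀ j, (pol y 1).eval (q j) ≠ 0) ∧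
      (∀ j, AttBy (sp y) A (sp y (q j : Sph))) ∧ (∀ j, ((q j : ℂ) : Sph) ∉ A) ∧
      ∀ v ∈ Cval y q, ∀ n j, (sp y)^[n] v ≠ ((q j : ℂ) : Sph)} := by
  have hyH : Hol (sp y) := hol_sp hd hy
  have hBo : IsOpen {z | AttBy (sp y) A z} := attBy_open hyH.cont hA hmap hs
  have hBdC : Dense ((fun z : ℂ => (z : Sph)) ⁻¹' {z | AttBy (sp y) A z}) :=
    Dense.preimage hBd OnePoint.isOpenEmbedding_coe.isOpenMap
  obtain ⟨hcop, hmax⟩ := part1 hd y hy
  have hQ0 : pol y 1 ≠ 0 := by
    intro h
    rw [h] at hcop hmax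
    have := natDegree_eq_zero_of_isUnit (isCoprime_zero_right.1 hcop)
    rw [this] at hmax
    simp at hmax
    omega
  have r1 : ∀ᶠ q : Fin m → ℂ in residual _, ∀ j, (pol y 1).eval (q j) ≠ 0 := by
    rw [eventually_all]
    intro j
    have hf : {z : ℂ | (pol y 1).eval z = 0}.Finite := by
      refine ((pol y 1).roots.toFinset.finite_toSet).subset fun z hz => ?_
      rw [Finset.mem_coe, Multiset.mem_toFinset, mem_roots hQ0]
      exact hz
    obtain ⟨h1, h2⟩ := compl_finite_open_dense hf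
    exact coord h1 h2 j
  have r2 : ∀ᶠ q : Fin m → ℂ in residual _, ∀ j, AttBy (sp y) A (sp y (q j : Sph)) := by
    rw [eventually_all]
    intro j
    refine coord (S := {z : ℂ | AttBy (sp y) A (sp y (z : Sph))})
      (hBo.preimage (hyH.cont.comp OnePoint.continuous_coe)) (hBdC.mono fun z hz => ?_) j
    exact attBy_step hyH.cont hmap hz 1
  have r3 : ∀ᶠ q : Fin m → ℂ in residual _, ∀ j, ((q j : ℂ) : Sph) ∉ A := by
    rw [eventually_all]
    intro j
    have hf : {z : ℂ | (z : Sph) ∈ A}.Finite := hA.preimage OnePoint.coe_injective.injOn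
    obtain ⟨h1, h2⟩ := compl_finite_open_dense hf
    exact coord h1 h2 j
  set C₀ : Set Sph := {v | v = ∞ ∨ v = sp y ∞ ∨ ∃ c, ¬ LocInj (sp y) c ∧ v = sp y c} with hC₀
  have hC₀f : C₀.Finite := by
    have h1 : C₀ ⊆ {∞} ∪ {sp y ∞} ∪ {e | ∃ c, ¬ LocInj (sp y) c ∧ e = sp y c} := by
      rintro v (rfl | rfl | h)
      · exact Or.inl (Or.inl rfl)
      · exact Or.inl (Or.inr rfl)
      · exact Or.inr h
    refine Set.Finite.subset ?_ h1
    refine ((Set.finite_singleton _).union (Set.finite_singleton _)).union ?_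
    obtain ⟨T, hT⟩ := hyH.fcv
    refine T.finite_toSet.subset ?_
    rintro _ ⟨c, hc, rfl⟩
    exact hT c hc
  have r4 : ∀ᶠ q : Fin m → ℂ in residual _, ∀ v ∈ C₀, ∀ n : ℕ, ∀ j,
      (sp y)^[n] v ≠ ((q j : ℂ) : Sph) := by
    rw [eventually_countable_ball hC₀f.countable]
    intro v _
    rw [eventually_countable_forall]
    intro n
    rw [eventually_all]
    intro j
    have hf : {z : ℂ | (sp y)^[n] v = (z : Sph)}.Finite := by
      refine Set.Subsingleton.finite fun a ha b hb => ?_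
      exact OnePoint.coe_injective (ha.symm.trans hb)
    obtain ⟨h1, h2⟩ := compl_finite_open_dense hf
    exact coord h1 h2 j
  have r5 : ∀ᶠ q : Fin m → ℂ in residual _, ∀ n : ℕ, ∀ j,
      (sp y)^[n + 1] (q j : Sph) ≠ ((q j : ℂ) : Sph) := by
    rw [eventually_countable_forall]
    intro n
    rw [eventually_all]
    intro j
    have h1 : IsOpen {z : ℂ | (sp y)^[n + 1] (z : Sph) ≠ (z : Sph)} :=
      isOpen_ne_fun ((hyH.cont.iterate (n + 1)).comp OnePoint.continuous_coe)
        OnePoint.continuous_coe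
    refine coord h1 ?_ j
    rw [dense_iff_inter_open]
    intro U hU hne
    have h2 : IsOpen {z : ℂ | (z : Sph) ∉ A} ∧ Dense {z : ℂ | (z : Sph) ∉ A} :=
      compl_finite_open_dense (hA.preimage OnePoint.coe_injective.injOn)
    obtain ⟨z, hz1, hz2⟩ := hBdC.inter_open_nonempty _ (hU.inter h2.1)
      (h2.2.inter_open_nonempty U hU hne)
    exact ⟨z, hz1.1, fun h3 => hz1.2 (periodic_mem hz2 (by omega) h3)⟩
  have r6 : ∀ᶠ q : Fin m → ℂ in residual _, ∀ n : ℕ, ∀ i j, i ≠ j →
      (sp y)^[n] (q i : Sph) ≠ ((q j : ℂ) : Sph) := by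
    rw [eventually_countable_forall]
    intro n
    rw [eventually_all]
    intro i
    rw [eventually_all]
    intro j
    by_cases hij : i = j
    · exact Eventually.of_forall fun q h => absurd hij h
    have h1 : IsOpen {q : Fin m → ℂ | (sp y)^[n] (q i : Sph) ≠ ((q j : ℂ) : Sph)} :=
      isOpen_ne_fun ((hyH.cont.iterate n).comp (OnePoint.continuous_coe.comp (continuous_apply i)))
        (OnePoint.continuous_coe.comp (continuous_apply j))
    have h2 : Dense {q : Fin m → ℂ | (sp y)^[n] (q i : Sph) ≠ ((q j : ℂ) : Sph)} := by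
      rw [Metric.dense_iff]
      intro q r hr
      have hf : {z : ℂ | (sp y)^[n] (q i : Sph) = (z : Sph)}.Finite := by
        refine Set.Subsingleton.finite fun a ha b hb => ?_
        exact OnePoint.coe_injective (ha.symm.trans hb)
      obtain ⟨z, hz1, hz2⟩ := (compl_finite_open_dense hf).2.inter_open_nonempty _
        (isOpen_ball (x := q j) (ε := r)) ⟨q j, mem_ball_self hr⟩
      refine ⟨Function.update q j z, ?_, ?_⟩
      · rw [mem_ball, dist_pi_lt_iff hr]
        intro k
        by_cases hk : k = j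
        · subst hk
          rw [Function.update_self]
          exact hz1
        · rw [Function.update_of_ne hk, dist_self]
          exact hr
      · show (sp y)^[n] ((Function.update q j z i : ℂ) : Sph) ≠ ((Function.update q j z j : ℂ) : Sph)
        rw [Function.update_self, Function.update_of_ne hij]
        exact hz2
    filter_upwards [residual_of_dense_open h1 h2] with q hq _
    exact hq
  refine dense_of_mem_residual ?_
  filter_upwards [r1, r2, r3, r4, r5, r6] with q h1 h2 h3 h4 h5 h6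
  refine ⟨fun i j hij => ?_, h1, h2, h3, ?_⟩
  · by_contra hne
    exact h6 0 i j hne (congrArg (fun z : ℂ => (z : Sph)) hij)
  · rintro v (rfl | rfl | hv | ⟨i, rfl⟩) n j
    · exact h4 _ (Or.inl rfl) n j
    · exact h4 _ (Or.inr (Or.inl rfl)) n j
    · exact h4 _ (Or.inr (Or.inr hv)) n j
    · rw [← Function.iterate_succ_apply]
      by_cases hij : i = j
      · subst hij; exact h5 n i
      · exact h6 (n + 1) i j hij

end

/-! ### Approximation of polynomials -/

theorem exists_roots {m : ℕ} {H : ℂ[X]} (hH : H.natDegree = m) :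
    ∃ q : Fin m → ℂ, H = C H.leadingCoeff * Hp q := by
  have h1 := (IsAlgClosed.splits H).eq_prod_roots
  have h2 : Multiset.card H.roots = m := by
    rw [splits_iff_card_roots.1 (IsAlgClosed.splits H), hH]
  obtain ⟨l, hl⟩ := Quot.exists_rep H.roots
  have hl' : (l : Multiset ℂ) = H.roots := hl
  have hlen : l.length = m := by
    rw [← hl'] at h2
    exact h2
  subst hlen
  refine ⟨l.get, ?_⟩
  have h3 : Hp l.get = (Multiset.map (fun a => X - C a) H.roots).prod := by
    unfold Hp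
    rw [← hl', Multiset.map_coe, Multiset.prod_coe, ← List.prod_ofFn]
    congr 1
    rw [← List.ofFn_get (l.map fun a => X - C a)]
    simp [List.ofFn_eq_map]
  rw [h3]
  exact h1

theorem Hp_coeff_cont {m : ℕ} (i : ℕ) : Continuous fun q : Fin m → ℂ => (Hp q).coeff i := by
  have key : ∀ (s : Finset (Fin m)) (i : ℕ),
      Continuous fun q : Fin m → ℂ => (∏ j ∈ s, (X - C (q j))).coeff i := by
    intro s
    induction s using Finset.induction_on with
    | empty => intro i; simp only [Finset.prod_empty]; exact continuous_const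
    | insert a s ha ih =>
      intro i
      simp only [Finset.prod_insert ha, sub_mul, coeff_sub, coeff_C_mul]
      refine Continuous.sub ?_ ((continuous_apply a).mul (ih i))
      cases i with
      | zero => simp only [coeff_X_mul_zero]; exact continuous_const
      | succ i => simp only [coeff_X_mul]; exact ih i
  exact key Finset.univ i

theorem approx_poly {m : ℕ} {H : ℂ[X]} (hH : H.natDegree ≤ m) {S : Set (Fin m → ℂ)} (hS : Dense S)
    {ε : ℝ} (hε : 0 < ε) : ∃ c : ℂ, c ≠ 0 ∧ ∃ q ∈ S,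
      ∀ i, ‖(C c * Hp q).coeff i - H.coeff i‖ < ε := by
  obtain ⟨s, hs, hs1⟩ : ∃ s : ℂ, ‖s‖ < ε / 2 ∧ H.coeff m + s ≠ 0 := by
    by_cases h : H.coeff m = 0
    · refine ⟨((ε / 4 : ℝ) : ℂ), ?_, ?_⟩
      · rw [Complex.norm_real, Real.norm_eq_abs, abs_of_pos (by linarith)]; linarith
      · rw [h, zero_add]
        exact Complex.ofReal_ne_zero.2 (by positivity)
    · exact ⟨0, by simpa using hε, by rwa [add_zero]⟩
  set H' : ℂ[X] := H + C s * X ^ m with hH'
  have hc : H'.coeff m = H.coeff m + s := by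
    rw [hH', coeff_add, coeff_C_mul, coeff_X_pow, if_pos rfl, mul_one]
  have hne : H'.coeff m ≠ 0 := by rw [hc]; exact hs1
  have hdeg : H'.natDegree = m := by
    refine le_antisymm ?_ (le_natDegree_of_ne_zero hne)
    rw [hH']
    exact (natDegree_add_le _ _).trans (max_le hH (natDegree_C_mul_X_pow_le _ _))
  have hH0 : H' ≠ 0 := by
    intro h
    rw [h, coeff_zero] at hne
    exact hne rfl
  obtain ⟨q₀, hq₀⟩ := exists_roots hdeg
  set c := H'.leadingCoeff with hcd
  have hc0 : c ≠ 0 := leadingCoeff_ne_zero.2 hH0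
  have h1 : ∀ᶠ q : Fin m → ℂ in 𝓝 q₀, ∀ i ∈ Finset.range (m + 1),
      ‖c * (Hp q).coeff i - c * (Hp q₀).coeff i‖ < ε / 2 := by
    rw [Filter.eventually_all_finset]
    intro i _
    have h2 : Continuous fun q : Fin m → ℂ => ‖c * (Hp q).coeff i - c * (Hp q₀).coeff i‖ :=
      ((continuous_const.mul (Hp_coeff_cont i)).sub continuous_const).norm
    have h3 := h2.tendsto q₀
    simp only [sub_self, norm_zero] at h3
    exact h3.eventually (gt_mem_nhds (by linarith))
  obtain ⟨q, hq1, hq2⟩ := hS.exists_mem_open isOpen_interior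
    ⟨q₀, mem_interior_iff_mem_nhds.2 h1⟩
  refine ⟨c, hc0, q, hq1, fun i => ?_⟩
  have hq3 := interior_subset hq2
  by_cases hi : i ≤ m
  · have h4 := hq3 i (Finset.mem_range.2 (by omega))
    have h5 : (C c * Hp q).coeff i - H.coeff i =
        (c * (Hp q).coeff i - c * (Hp q₀).coeff i) + (H'.coeff i - H.coeff i) := by
      rw [hq₀, coeff_C_mul, coeff_C_mul]
      ring
    rw [h5]
    have h6 : ‖H'.coeff i - H.coeff i‖ ≤ ‖s‖ := by
      rw [hH', coeff_add, add_sub_cancel_left, coeff_C_mul, coeff_X_pow]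
      split_ifs
      · rw [mul_one]
      · rw [mul_zero, norm_zero]; exact norm_nonneg _
    have h7 := norm_add_le (c * (Hp q).coeff i - c * (Hp q₀).coeff i) (H'.coeff i - H.coeff i)
    linarith
  · have h4 : (C c * Hp q).coeff i = 0 := by
      rw [coeff_C_mul, coeff_eq_zero_of_natDegree_lt (by rw [Hp_natDegree]; omega), mul_zero]
    rw [h4, coeff_eq_zero_of_natDegree_lt (by omega), sub_zero, norm_zero]
    exact hε

theorem mul_close {K H P : ℂ[X]} {ε : ℝ} (h : ∀ i, ‖K.coeff i - H.coeff i‖ ≤ ε) (hε : 0 ≤ ε)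
    (i : ℕ) : ‖(K * P).coeff i - (H * P).coeff i‖ ≤ ε * ∑ j ∈ P.support, ‖P.coeff j‖ := by
  have h1 : (K * P).coeff i - (H * P).coeff i = ((K - H) * P).coeff i := by
    rw [sub_mul, coeff_sub]
  rw [h1, coeff_mul, Finset.mul_sum]
  refine (norm_sum_le _ _).trans ?_
  have h2 : ∑ x ∈ Finset.HasAntidiagonal.antidiagonal i, ‖(K - H).coeff x.1 * P.coeff x.2‖ ≤
      ∑ x ∈ Finset.HasAntidiagonal.antidiagonal i, ε * ‖P.coeff x.2‖ := by
    refine Finset.sum_le_sum fun x _ => ?_
    rw [norm_mul, coeff_sub]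
    exact mul_le_mul_of_nonneg_right (h _) (norm_nonneg _)
  refine h2.trans ?_
  rw [Finset.Nat.sum_antidiagonal_eq_sum_range_succ_mk]
  have h3 : ∑ k ∈ Finset.range (i + 1), ε * ‖P.coeff (i - k)‖ =
      ∑ k ∈ Finset.range (i + 1), ε * ‖P.coeff k‖ := by
    have := Finset.sum_range_reflect (fun k => ε * ‖P.coeff k‖) (i + 1)
    rw [← this]
    refine Finset.sum_congr rfl fun k _ => ?_
    congr 3
  rw [h3]
  have h4 : ∑ k ∈ Finset.range (i + 1), ε * ‖P.coeff k‖ ≤
      ∑ k ∈ Finset.range (i + 1) ∪ P.support, ε * ‖P.coeff k‖ :=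
    Finset.sum_le_sum_of_subset_of_nonneg Finset.subset_union_left
      fun k _ _ => mul_nonneg hε (norm_nonneg _)
  refine h4.trans (le_of_eq ?_)
  refine (Finset.sum_subset Finset.subset_union_right fun k _ hk => ?_).symm
  rw [notMem_support_iff.1 hk, norm_zero, mul_zero]

end Pool.Agent.R239.Fat
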