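import Mathlib
import Pool.Agent.R239.Fat.T16

/-! Boundary points all of whose neighbours are hyperbolic. -/

set_option autoImplicit false

open Topology Filter Metric Set Polynomial
open scoped OnePoint
open Pool.Agent.H790R3.RB (CV hF ND sp pol hc pr)
open Pool.Agent.H790R3.RB.SP (pr_zero pr_ne pr_eq_iff pr_hc sp_pr sp_cont)
open Pool.Agent.H790R3.RB.PQ (part1 sp_eval pol_natDegree pol_coeff pol_coeff_gt)

namespace Pool.Agent.R239.Fat

/-- `f` is the map `P / Q` -/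
def Ind (P Q : ℂ[X]) (f : Sph → Sph) : Prop :=
  Continuous f ∧ ∀ z : ℂ, Q.eval z ≠ 0 → f (z : Sph) = ((P.eval z / Q.eval z : ℂ) : Sph)

/-- all rational maps of degree `D` near the pair are hyperbolic -/
def GoodPt (D : ℕ) (P₀ Q₀ : ℂ[X]) : Prop :=
  ∃ δ : ℝ, 0 < δ ∧ ∀ P Q : ℂ[X], IsCoprime P Q → max P.natDegree Q.natDegree = D →
    (∀ i, ‖P.coeff i - P₀.coeff i‖ < δ ∧ ‖Q.coeff i - Q₀.coeff i‖ < δ) →
    ∃ f, Ind P Q f ∧ Hyp f

theorem goodPt_of {D : ℕ} (hD : 1 ≤ D) {P₀ Q₀ : ℂ[X]} (hP : P₀.natDegree ≤ D)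
    (hQ : Q₀.natDegree ≤ D) {c : ℂ} (hc : c ≠ 0)
    (h : ∀ᶠ x in 𝓝 (mkv D P₀ Q₀), ND x → Hyp (sp x)) :
    GoodPt D (C c * P₀) (C c * Q₀) := by
  rw [Metric.eventually_nhds_iff] at h
  obtain ⟨δ, hδ, h⟩ := h
  have hc' : 0 < ‖c‖ := norm_pos_iff.2 hc
  refine ⟨δ * ‖c‖, by positivity, fun P Q hPQ hdeg hcl => ?_⟩
  have hu : IsUnit (C c⁻¹ : ℂ[X]) := isUnit_C.2 (isUnit_iff_ne_zero.2 (inv_ne_zero hc))
  have hPQ' : IsCoprime (C c⁻¹ * P) (C c⁻¹ * Q) :=
    (isCoprime_mul_unit_left hu P Q).2 hPQ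
  have hdeg' : max (C c⁻¹ * P).natDegree (C c⁻¹ * Q).natDegree = D := by
    rw [natDegree_C_mul (inv_ne_zero hc), natDegree_C_mul (inv_ne_zero hc)]
    exact hdeg
  obtain ⟨x, hx, hx0, hx1, -⟩ := (Pool.Agent.H790R3.RB.PQ Pool.Agent.H790R3.RB.SP D hD).2 _ _
    hPQ' hdeg'
  obtain ⟨hp0, hp1⟩ := pol_mkv hP hQ
  have hdist : dist x (mkv D P₀ Q₀) < δ := by
    rw [dist_pi_lt_iff hδ]
    rintro ⟨i, j⟩
    have key : ∀ (R R₀ : ℂ[X]), ‖R.coeff (j : ℕ) - (C c * R₀).coeff (j : ℕ)‖ < δ * ‖c‖ →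
        ‖(C c⁻¹ * R).coeff (j : ℕ) - R₀.coeff (j : ℕ)‖ < δ := by
      intro R R₀ hR
      rw [coeff_C_mul] at hR
      have h1 : (C c⁻¹ * R).coeff (j : ℕ) - R₀.coeff (j : ℕ) =
          c⁻¹ * (R.coeff (j : ℕ) - c * R₀.coeff (j : ℕ)) := by
        rw [coeff_C_mul]
        field_simp
      rw [h1, norm_mul, norm_inv, inv_mul_lt_iff₀ hc']
      linarith
    have e1 := pol_coeff x i j
    have e2 := pol_coeff (mkv D P₀ Q₀) i j
    rw [dist_eq_norm]
    fin_cases i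
    · have e3 := key P P₀ (hcl j).1
      rw [← hx0, ← hp0] at e3
      rw [← e1, ← e2]
      exact e3
    · have e3 := key Q Q₀ (hcl j).2
      rw [← hx1, ← hp1] at e3
      rw [← e1, ← e2]
      exact e3
  refine ⟨sp x, ⟨sp_cont hx, fun z hz => ?_⟩, h hdist hx⟩
  have h1 : (pol x 1).eval z ≠ 0 := by
    rw [hx1, eval_mul, eval_C]
    exact mul_ne_zero (inv_ne_zero hc) hz
  rw [sp_eval x z h1, hx0, hx1, eval_mul, eval_mul, eval_C, mul_div_mul_left _ _ (inv_ne_zero hc)]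

/-- coprime pairs are dense -/
theorem coprime_near {D : ℕ} (hD : 1 ≤ D) {P₀ Q₀ : ℂ[X]} (hP : P₀.natDegree ≤ D)
    (hQ : Q₀.natDegree ≤ D) {ε : ℝ} (hε : 0 < ε) :
    ∃ P Q : ℂ[X], IsCoprime P Q ∧ max P.natDegree Q.natDegree = D ∧
      ∀ i, ‖P.coeff i - P₀.coeff i‖ < ε ∧ ‖Q.coeff i - Q₀.coeff i‖ < ε := by
  obtain ⟨s, hs, hs1⟩ : ∃ s : ℂ, ‖s‖ < ε ∧ Q₀.coeff D + s ≠ 0 := by
    by_cases h : Q₀.coeff D = 0
    · refine ⟨((ε / 2 : ℝ) : ℂ), ?_, ?_⟩
      · rw [Complex.norm_real, Real.norm_eq_abs, abs_of_pos (by linarith)]; linarith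
      · rw [h, zero_add]
        exact Complex.ofReal_ne_zero.2 (by positivity)
    · exact ⟨0, by simpa using hε, by rwa [add_zero]⟩
  set Q : ℂ[X] := Q₀ + C s * X ^ D with hQd
  have hc : Q.coeff D = Q₀.coeff D + s := by
    rw [hQd, coeff_add, coeff_C_mul, coeff_X_pow, if_pos rfl, mul_one]
  have hne : Q.coeff D ≠ 0 := by rw [hc]; exact hs1
  have hdeg : Q.natDegree = D := by
    refine le_antisymm ?_ (le_natDegree_of_ne_zero hne)
    rw [hQd]
    exact (natDegree_add_le _ _).trans (max_le hQ (natDegree_C_mul_X_pow_le _ _))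
  have hQ0 : Q ≠ 0 := by
    intro h
    rw [h, coeff_zero] at hne
    exact hne rfl
  have hfin : {t : ℂ | ∃ z, Q.eval z = 0 ∧ P₀.eval z + t = 0}.Finite := by
    have h1 : (Q.roots.toFinset : Set ℂ).Finite := Finset.finite_toSet _
    refine (h1.image fun z => -P₀.eval z).subset ?_
    rintro t ⟨z, hz, ht⟩
    refine ⟨z, ?_, by linear_combination -ht⟩
    rw [Finset.mem_coe, Multiset.mem_toFinset, mem_roots hQ0]
    exact hz
  obtain ⟨t, ht1, ht2⟩ := (compl_finite_open_dense hfin).2.inter_open_nonempty _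
    (isOpen_ball (x := (0 : ℂ)) (ε := ε)) ⟨0, mem_ball_self hε⟩
  refine ⟨P₀ + C t, Q, ?_, ?_, fun i => ⟨?_, ?_⟩⟩
  · rw [isCoprime_iff_aeval_ne_zero_of_isAlgClosed ℂ ℂ]
    intro a
    by_contra h
    push Not at h
    obtain ⟨h1, h2⟩ := h
    rw [coe_aeval_eq_eval] at h1 h2
    apply ht2
    refine ⟨a, h2, ?_⟩
    rw [eval_add, eval_C] at h1
    exact h1
  · rw [hdeg]
    refine max_eq_right ?_
    exact (natDegree_add_le _ _).trans (max_le hP (by rw [natDegree_C]; omega))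
  · rw [coeff_add, add_sub_cancel_left, coeff_C]
    split_ifs
    · rw [mem_ball_zero_iff] at ht1; exact ht1
    · simpa using hε
  · rw [hQd, coeff_add, add_sub_cancel_left, coeff_C_mul, coeff_X_pow]
    split_ifs
    · simpa using hs
    · simpa using hε

/-- the hypotheses on the reduced map -/
structure Base {d : ℕ} (y : CV d) (A : Set Sph) : Prop where
  nd : ND y
  fin : A.Finite
  maps : ∀ a ∈ A, sp y a ∈ A
  snk : ∀ a ∈ A, ∃ n, Snk (sp y) n a
  crit : ∀ c, ¬ LocInj (sp y) c → AttBy (sp y) A c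
  dense : Dense {z | AttBy (sp y) A z}

theorem boundary_inf {d m : ℕ} (hd : 1 ≤ d) {y : CV d} {A : Set Sph} (hB : Base y A)
    (hinf : AttBy (sp y) A ∞) {H : ℂ[X]} (hH : H.natDegree ≤ m) {ε : ℝ} (hε : 0 < ε) :
    ∃ P₀ Q₀ : ℂ[X], P₀.natDegree ≤ m + d ∧ Q₀.natDegree ≤ m + d ∧
      (∀ i, ‖P₀.coeff i - (H * pol y 0).coeff i‖ < ε ∧ ‖Q₀.coeff i - (H * pol y 1).coeff i‖ < ε) ∧
      (∃ K : ℂ[X], K.natDegree = m ∧ K ∣ P₀ ∧ K ∣ Q₀) ∧ GoodPt (m + d) P₀ Q₀ := by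
  set S : ℝ := ∑ j ∈ (pol y 0).support, ‖(pol y 0).coeff j‖ +
    ∑ j ∈ (pol y 1).support, ‖(pol y 1).coeff j‖ with hS
  have hs0 : 0 ≤ ∑ j ∈ (pol y 0).support, ‖(pol y 0).coeff j‖ :=
    Finset.sum_nonneg fun _ _ => norm_nonneg _
  have hs1 : 0 ≤ ∑ j ∈ (pol y 1).support, ‖(pol y 1).coeff j‖ :=
    Finset.sum_nonneg fun _ _ => norm_nonneg _
  have hS0 : 0 ≤ S := add_nonneg hs0 hs1
  set η : ℝ := ε / (S + 1) with hη
  have hη0 : 0 < η := by positivity
  have hηS : η * S < ε := by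
    rw [hη, div_mul_eq_mul_div, div_lt_iff₀ (by positivity)]
    nlinarith
  obtain ⟨c, hc, q, ⟨hq1, hq2, hq3, hq4, hq5⟩, hcl⟩ := approx_poly hH
    (generic_holes hd hB.nd hB.fin hB.maps hB.snk hB.dense) hη0
  have hnear := near_hyp hd hB.nd hB.fin hB.maps hB.snk hB.crit hinf hq1 hq2 hq3 hq4 hq5
  have hdg : ∀ i, (Hp q * pol y i).natDegree ≤ m + d := by
    intro i
    refine natDegree_mul_le.trans ?_
    rw [Hp_natDegree]
    have := pol_natDegree y i
    omega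
  refine ⟨C c * (Hp q * pol y 0), C c * (Hp q * pol y 1), ?_, ?_, fun i => ⟨?_, ?_⟩,
    ⟨Hp q, Hp_natDegree q, Dvd.intro_left (C c * pol y 0) (by ring),
      Dvd.intro_left (C c * pol y 1) (by ring)⟩,
    goodPt_of (by omega) (hdg 0) (hdg 1) hc hnear⟩
  · rw [natDegree_C_mul hc]; exact hdg 0
  · rw [natDegree_C_mul hc]; exact hdg 1
  · have h1 := mul_close (P := pol y 0) (fun i => (hcl i).le) hη0.le i
    rw [mul_assoc] at h1
    refine h1.trans_lt (lt_of_le_of_lt (mul_le_mul_of_nonneg_left ?_ hη0.le) hηS)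
    linarith
  · have h1 := mul_close (P := pol y 1) (fun i => (hcl i).le) hη0.le i
    rw [mul_assoc] at h1
    refine h1.trans_lt (lt_of_le_of_lt (mul_le_mul_of_nonneg_left ?_ hη0.le) hηS)
    linarith

/-! ### Conjugation -/

theorem Snk.conj {g : Sph → Sph} (h : Sph ≃ₜ Sph) {n : ℕ} {a : Sph} (ha : Snk g n a) :
    Snk (fun y => h (g (h.symm y))) n (h a) := by
  obtain ⟨hn, hfix, U, hU, hUV⟩ := ha
  refine ⟨hn, ?_, h '' U, h.isOpenMap.image_mem_nhds hU, fun V hV => ?_⟩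
  · rw [conj_iter, h.symm_apply_apply, hfix]
  · filter_upwards [hUV (h ⁻¹' V) (h.continuous.continuousAt.preimage_mem_nhds hV)] with k hk
    rintro _ ⟨w, hw, rfl⟩
    rw [conj_iter, h.symm_apply_apply]
    exact hk w hw

theorem AttBy.conj {g : Sph → Sph} (h : Sph ≃ₜ Sph) {A : Set Sph} {z : Sph} (hz : AttBy g A z) :
    AttBy (fun y => h (g (h.symm y))) (h '' A) (h z) := by
  obtain ⟨a, ha, n, hn, ht⟩ := hz
  refine ⟨h a, ⟨a, ha, rfl⟩, n, hn, ?_⟩
  simp only [conj_iter, h.symm_apply_apply]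
  exact (h.continuous.tendsto a).comp ht

/-- the data of `Base` for a map of the sphere -/
structure BaseG (g : Sph → Sph) (A : Set Sph) : Prop where
  fin : A.Finite
  maps : ∀ a ∈ A, g a ∈ A
  snk : ∀ a ∈ A, ∃ n, Snk g n a
  crit : ∀ c, ¬ LocInj g c → AttBy g A c
  dense : Dense {z | AttBy g A z}

theorem BaseG.conj {g : Sph → Sph} (h : Sph ≃ₜ Sph) {A : Set Sph} (hB : BaseG g A) :
    BaseG (fun y => h (g (h.symm y))) (h '' A) := by
  refine ⟨hB.fin.image _, ?_, ?_, fun c hc => ?_, ?_⟩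
  · rintro _ ⟨a, ha, rfl⟩
    refine ⟨g a, hB.maps a ha, ?_⟩
    rw [h.symm_apply_apply]
  · rintro _ ⟨a, ha, rfl⟩
    obtain ⟨n, hn⟩ := hB.snk a ha
    exact ⟨n, hn.conj h⟩
  · obtain ⟨c, rfl⟩ := h.surjective c
    exact (hB.crit c fun h1 => hc (locInj_conj h h1)).conj h
  · have h1 : h '' {z | AttBy g A z} ⊆ {z | AttBy (fun y => h (g (h.symm y))) (h '' A) z} := by
      rintro _ ⟨z, hz, rfl⟩
      exact AttBy.conj h hz
    refine Dense.mono h1 ?_
    exact h.surjective.denseRange.dense_image h.continuous hB.dense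

/-- Moebius maps with two fixed points -/
theorem moebius_base {α β k : ℂ} (hαβ : α ≠ β) (hk0 : k ≠ 0) (hk1 : ‖k‖ < 1) :
    ∃ A : Set Sph, BaseG (fun s => (mobH 1 (-α) 1 (-β) (by
      intro h; exact hαβ (by linear_combination h))).symm (mob k 0 0 1
        (mobH 1 (-α) 1 (-β) (by intro h; exact hαβ (by linear_combination h)) s))) A ∧
      AttBy (fun s => (mobH 1 (-α) 1 (-β) (by
      intro h; exact hαβ (by linear_combination h))).symm (mob k 0 0 1
        (mobH 1 (-α) 1 (-β) (by intro h; exact hαβ (by linear_combination h)) s))) A ∞ := by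
  have hdet : (1 : ℂ) * (-β) - (-α) * 1 ≠ 0 := by intro h; exact hαβ (by linear_combination h)
  set h := mobH 1 (-α) 1 (-β) hdet with hh
  have hd : k * 1 - 0 * 0 ≠ 0 := by simpa using hk0
  have hc : ∀ z : ℂ, mob k 0 0 1 (z : Sph) = ((k * z : ℂ) : Sph) := by
    intro z
    rw [mob_coe hd (by simp)]
    congr 1
    simp
  have hit : ∀ (n : ℕ) (z : ℂ), (mob k 0 0 1)^[n] (z : Sph) = ((k ^ n * z : ℂ) : Sph) := by
    intro n z
    induction n with
    | zero => simp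
    | succ n ih =>
      rw [Function.iterate_succ_apply', ih, hc]
      congr 1
      ring
  have hlim : Tendsto (fun n : ℕ => ‖k‖ ^ n) atTop (𝓝 0) :=
    tendsto_pow_atTop_nhds_zero_of_lt_one (norm_nonneg k) hk1
  have hatt : ∀ z : ℂ, AttBy (mob k 0 0 1) {((0 : ℂ) : Sph)} (z : Sph) := by
    intro z
    refine ⟨_, rfl, 1, one_pos, ?_⟩
    have h1 : Tendsto (fun n : ℕ => k ^ n * z) atTop (𝓝 0) := by
      have h2 := (tendsto_pow_atTop_nhds_zero_of_norm_lt_one hk1).mul_const z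
      rwa [zero_mul] at h2
    have h2 := (OnePoint.continuous_coe.tendsto (0 : ℂ)).comp h1
    refine h2.congr fun n => ?_
    show ((k ^ n * z : ℂ) : Sph) = _
    rw [one_mul, hit]
  have hb : BaseG (mob k 0 0 1) {((0 : ℂ) : Sph)} := by
    refine ⟨Set.finite_singleton _, ?_, ?_, ?_, ?_⟩
    · rintro a ha
      rw [mem_singleton_iff] at ha
      rw [ha, hc, mul_zero]
      rfl
    · rintro a ha
      rw [mem_singleton_iff] at ha
      subst ha
      refine ⟨1, one_pos, ?_, (fun z : ℂ => (z : Sph)) '' ball 0 1, nhds_coe (ball_mem_nhds _ one_pos),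
        fun V hV => ?_⟩
      · rw [Function.iterate_one, hc, mul_zero]
      · have h1 : (fun z : ℂ => (z : Sph)) ⁻¹' V ∈ 𝓝 (0 : ℂ) :=
          OnePoint.continuous_coe.continuousAt.preimage_mem_nhds hV
        obtain ⟨r, hr, hrV⟩ := Metric.mem_nhds_iff.1 h1
        filter_upwards [hlim.eventually (gt_mem_nhds hr)] with n hn
        rintro _ ⟨w, hw, rfl⟩
        rw [one_mul]
        show (mob k 0 0 1)^[n] (w : Sph) ∈ V
        rw [hit]
        apply hrV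
        rw [mem_ball_zero_iff, norm_mul, norm_pow]
        rw [mem_ball_zero_iff] at hw
        have h2 : 0 ≤ ‖k‖ ^ n := by positivity
        nlinarith [norm_nonneg w]
    · intro c hc'
      exact absurd (locInj_of_injective (mobH k 0 0 1 hd).injective c) hc'
    · have h1 : Set.range (fun z : ℂ => (z : Sph)) ⊆
          {z | AttBy (mob k 0 0 1) {((0 : ℂ) : Sph)} z} := by
        rintro _ ⟨z, rfl⟩
        exact hatt z
      exact Dense.mono h1 OnePoint.denseRange_coe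
  have hb' := hb.conj h.symm
  have e : (fun y => h.symm (mob k 0 0 1 (h.symm.symm y))) = fun s => h.symm (mob k 0 0 1 (h s)) := by
    funext s
    rw [Homeomorph.symm_symm]
  rw [e] at hb'
  refine ⟨_, hb', ?_⟩
  have h1 : h ∞ = ((1 : ℂ) : Sph) := by
    show mob 1 (-α) 1 (-β) ∞ = _
    rw [mob_inf hdet, pr_ne (p := (1, 1)) (by simp)]
    simp
  have h2 := (hatt 1).conj h.symm
  rw [e, ← h1, h.symm_apply_apply] at h2
  exact h2

end Pool.Agent.R239.Fat
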