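import Mathlib
import Pool.Agent.R239.Fat.T17

/-! Degenerate maps whose reduction has degree at most one; normalisation. -/

set_option autoImplicit false

open Topology Filter Metric Set Polynomial
open scoped OnePoint
open Pool.Agent.H790R3.RB (CV hF ND sp pol hc pr)
open Pool.Agent.H790R3.RB.SP (pr_zero pr_ne pr_eq_iff pr_hc sp_pr sp_cont)
open Pool.Agent.H790R3.RB.PQ (part1 sp_eval pol_natDegree pol_coeff pol_coeff_gt)

namespace Pool.Agent.R239.Fat

theorem lin_natDegree (a b : ℂ) : (C a * X + C b : ℂ[X]).natDegree ≤ 1 := natDegree_linear_le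

theorem hF_lin (a b c e : ℂ) (p : ℂ × ℂ) :
    hF (mkv 1 (C a * X + C b) (C c * X + C e)) p = (a * p.1 + b * p.2, c * p.1 + e * p.2) := by
  unfold hF mkv
  rw [Fin.sum_univ_two, Fin.sum_univ_two]
  refine Prod.ext ?_ ?_
  · simp [coeff_X, coeff_C]
    ring
  · simp [coeff_X, coeff_C]
    ring

theorem sp_lin {a b c e : ℂ} (h : a * e - b * c ≠ 0) :
    ND (mkv 1 (C a * X + C b) (C c * X + C e)) ∧
      sp (mkv 1 (C a * X + C b) (C c * X + C e)) = mob a b c e := by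
  have hnd : ND (mkv 1 (C a * X + C b) (C c * X + C e)) := by
    intro p hp
    by_contra hne
    rw [hF_lin] at hp
    exact lin_ne h hne hp
  refine ⟨hnd, ?_⟩
  funext s
  obtain ⟨p, hp, rfl⟩ := exists_pr s
  rw [sp_pr hnd hp, hF_lin, mob_pr h hp]

theorem mob_conj {α β k u : ℂ} (hαβ : α ≠ β) (hk : k ≠ 0) (hu : u ≠ 0)
    (hdet : (1 : ℂ) * (-β) - (-α) * 1 ≠ 0) (s : Sph) :
    (mobH 1 (-α) 1 (-β) hdet).symm (mob k 0 0 1 (mobH 1 (-α) 1 (-β) hdet s)) =
      mob (u * (α - k * β)) (u * (α * β * (k - 1))) (u * (1 - k)) (u * (k * α - β)) s := by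
  show mob (-β) (-(-α)) (-1) 1 (mob k 0 0 1 (mob 1 (-α) 1 (-β) s)) = _
  have h1 : k * 1 - 0 * 0 ≠ 0 := by simpa using hk
  have h2 : (-β) * 1 - (-(-α)) * (-1) ≠ 0 := by
    intro h; exact hαβ (by linear_combination h)
  have h3 : (k * 1 + 0 * 1) * (0 * (-α) + 1 * (-β)) - (k * (-α) + 0 * (-β)) * (0 * 1 + 1 * 1) ≠ 0 := by
    intro h
    have h4 : k * (α - β) = 0 := by linear_combination h
    rcases mul_eq_zero.1 h4 with h5 | h5
    · exact hk h5
    · exact hαβ (by linear_combination h5)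
  rw [mob_mul h1 hdet, mob_mul h2 h3]
  have h4 : (α - k * β) * (k * α - β) - (α * β * (k - 1)) * (1 - k) ≠ 0 := by
    have h5 : (α - k * β) * (k * α - β) - (α * β * (k - 1)) * (1 - k) = k * (α - β) ^ 2 := by ring
    rw [h5]
    exact mul_ne_zero hk (pow_ne_zero 2 (sub_ne_zero.2 hαβ))
  rw [mob_smul hu h4]
  congr 1 <;> ring

/-- a Moebius map with an attracting fixed point and `∞` in its basin -/
theorem base_lin {α β u v : ℂ} (hαβ : α ≠ β) (hv : 0 < ‖v‖) (huv : ‖v‖ < ‖u‖) :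
    ∃ A, Base (mkv 1 (C (u * α - v * β) * X + C (α * β * (v - u)))
      (C (u - v) * X + C (v * α - u * β))) A ∧
      AttBy (sp (mkv 1 (C (u * α - v * β) * X + C (α * β * (v - u)))
      (C (u - v) * X + C (v * α - u * β)))) A ∞ := by
  have hu0 : u ≠ 0 := norm_pos_iff.1 (hv.trans huv)
  have hv0 : v ≠ 0 := norm_pos_iff.1 hv
  have hk0 : v / u ≠ 0 := div_ne_zero hv0 hu0
  have hk1 : ‖v / u‖ < 1 := by
    rw [norm_div, div_lt_one (hv.trans huv)]
    exact huv
  obtain ⟨A, hA, hAi⟩ := moebius_base hαβ hk0 hk1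
  have hdet : (u * α - v * β) * (v * α - u * β) - (α * β * (v - u)) * (u - v) ≠ 0 := by
    have h5 : (u * α - v * β) * (v * α - u * β) - (α * β * (v - u)) * (u - v) =
        u * v * (α - β) ^ 2 := by ring
    rw [h5]
    exact mul_ne_zero (mul_ne_zero hu0 hv0) (pow_ne_zero 2 (sub_ne_zero.2 hαβ))
  obtain ⟨h1, h2⟩ := sp_lin hdet
  have h3 : (fun s => (mobH 1 (-α) 1 (-β) (by
      intro h; exact hαβ (by linear_combination h))).symm (mob (v / u) 0 0 1
        (mobH 1 (-α) 1 (-β) (by intro h; exact hαβ (by linear_combination h)) s))) =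
      sp (mkv 1 (C (u * α - v * β) * X + C (α * β * (v - u)))
        (C (u - v) * X + C (v * α - u * β))) := by
    rw [h2]
    funext s
    rw [mob_conj hαβ hk0 hu0]
    congr 1
    · field_simp
    · field_simp
    · field_simp
    · field_simp
  rw [h3] at hA hAi
  exact ⟨A, ⟨h1, hA.fin, hA.maps, hA.snk, hA.crit, hA.dense⟩, hAi⟩

/-- these maps are dense -/
theorem approx_lin (a b c e : ℂ) {ε : ℝ} (hε : 0 < ε) : ∃ α β u v : ℂ, α ≠ β ∧ 0 < ‖v‖ ∧
    ‖v‖ < ‖u‖ ∧ ‖(u * α - v * β) - a‖ < ε ∧ ‖α * β * (v - u) - b‖ < ε ∧ ‖(u - v) - c‖ < ε ∧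
    ‖(v * α - u * β) - e‖ < ε := by
  -- a nonzero lower left entry
  obtain ⟨c₁, hc₁, hc⟩ : ∃ c₁ : ℂ, c₁ ≠ 0 ∧ ‖c₁ - c‖ < ε / 2 := by
    by_cases h : c = 0
    · refine ⟨((ε / 4 : ℝ) : ℂ), Complex.ofReal_ne_zero.2 (by positivity), ?_⟩
      rw [h, sub_zero, Complex.norm_real, Real.norm_eq_abs, abs_of_pos (by linarith)]; linarith
    · exact ⟨c, h, by rw [sub_self, norm_zero]; linarith⟩
  -- distinct fixed points
  obtain ⟨b₁, hb₁, hb⟩ : ∃ b₁ : ℂ, (e - a) ^ 2 + 4 * b₁ * c₁ ≠ 0 ∧ ‖b₁ - b‖ < ε / 2 := by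
    by_cases h : (e - a) ^ 2 + 4 * b * c₁ = 0
    · refine ⟨b + ((ε / 4 : ℝ) : ℂ), ?_, ?_⟩
      · have h1 : (e - a) ^ 2 + 4 * (b + ((ε / 4 : ℝ) : ℂ)) * c₁ = 4 * ((ε / 4 : ℝ) : ℂ) * c₁ := by
          linear_combination h
        rw [h1]
        exact mul_ne_zero (mul_ne_zero (by norm_num) (Complex.ofReal_ne_zero.2 (by positivity))) hc₁
      · rw [add_sub_cancel_left, Complex.norm_real, Real.norm_eq_abs, abs_of_pos (by linarith)]
        linarith
    · exact ⟨b, h, by rw [sub_self, norm_zero]; linarith⟩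
  obtain ⟨s, hs⟩ : ∃ s : ℂ, s ^ 2 = (e - a) ^ 2 + 4 * b₁ * c₁ :=
    IsAlgClosed.exists_pow_nat_eq _ (by norm_num)
  have hs0 : s ≠ 0 := by
    rintro rfl
    apply hb₁
    rw [← hs]
    ring
  -- the maps with parameters `α, β, u, v`; the roles may be exchanged
  have key : ∀ α β u v : ℂ, α ≠ β → ‖v‖ ≤ ‖u‖ → u * α - v * β = a → α * β * (v - u) = b₁ →
      u - v = c₁ → v * α - u * β = e → ∃ α β u v : ℂ, α ≠ β ∧ 0 < ‖v‖ ∧
      ‖v‖ < ‖u‖ ∧ ‖(u * α - v * β) - a‖ < ε ∧ ‖α * β * (v - u) - b‖ < ε ∧ ‖(u - v) - c‖ < ε ∧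
      ‖(v * α - u * β) - e‖ < ε := by
    intro α β u v hαβ huv h1 h2 h3 h4
    set M : ℝ := ‖α‖ + ‖β‖ + ‖α * β‖ + 1 with hM
    have hM0 : 0 < M := by positivity
    set η : ℝ := ε / (8 * M) with hη
    have hη0 : 0 < η := by positivity
    have hηM : 4 * (η * M) = ε / 2 := by
      rw [hη]; field_simp; norm_num
    obtain ⟨u', hu', hu''⟩ : ∃ u' : ℂ, ‖u'‖ = ‖u‖ + η ∧ ‖u' - u‖ ≤ η := by
      by_cases hu : u = 0
      · refine ⟨(η : ℂ), ?_, ?_⟩
        · rw [hu, norm_zero, zero_add, Complex.norm_real, Real.norm_eq_abs, abs_of_pos hη0]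
        · rw [hu, sub_zero, Complex.norm_real, Real.norm_eq_abs, abs_of_pos hη0]
      · have hun : 0 < ‖u‖ := norm_pos_iff.2 hu
        refine ⟨((1 + η / ‖u‖ : ℝ) : ℂ) * u, ?_, ?_⟩
        · rw [norm_mul, Complex.norm_real, Real.norm_eq_abs, abs_of_pos (by positivity)]
          field_simp
        · have e1 : ((1 + η / ‖u‖ : ℝ) : ℂ) * u - u = ((η / ‖u‖ : ℝ) : ℂ) * u := by
            push_cast; ring
          rw [e1, norm_mul, Complex.norm_real, Real.norm_eq_abs, abs_of_pos (by positivity)]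
          field_simp
          exact le_rfl
    obtain ⟨v', hv', hv'', hv3⟩ : ∃ v' : ℂ, 0 < ‖v'‖ ∧ ‖v' - v‖ ≤ η ∧ ‖v'‖ < ‖u‖ + η := by
      by_cases hv : v = 0
      · refine ⟨((η / 2 : ℝ) : ℂ), ?_, ?_, ?_⟩
        · rw [Complex.norm_real, Real.norm_eq_abs, abs_of_pos (by linarith)]; linarith
        · rw [hv, sub_zero, Complex.norm_real, Real.norm_eq_abs, abs_of_pos (by linarith)]; linarith
        · rw [Complex.norm_real, Real.norm_eq_abs, abs_of_pos (by linarith)]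
          linarith [norm_nonneg u]
      · exact ⟨v, norm_pos_iff.2 hv, by rw [sub_self, norm_zero]; exact hη0.le, by linarith⟩
    have b1 : ‖(u' - u) * α - (v' - v) * β‖ ≤ η * M := by
      have := norm_sub_le ((u' - u) * α) ((v' - v) * β)
      rw [norm_mul, norm_mul] at this
      have h5 := mul_le_mul_of_nonneg_right hu'' (norm_nonneg α)
      have h6 := mul_le_mul_of_nonneg_right hv'' (norm_nonneg β)
      have h7 : 0 ≤ η * (‖α * β‖ + 1) := by positivity
      rw [hM]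
      nlinarith
    have b2 : ‖α * β * ((v' - v) - (u' - u))‖ ≤ 2 * (η * M) := by
      rw [norm_mul]
      have h5 := norm_sub_le (v' - v) (u' - u)
      have h6 : ‖(v' - v) - (u' - u)‖ ≤ 2 * η := by linarith
      have h7 := mul_le_mul_of_nonneg_left h6 (norm_nonneg (α * β))
      have h8 : 0 ≤ η * (‖α‖ + ‖β‖ + 1) := by positivity
      rw [hM]
      nlinarith
    have b3 : ‖(u' - u) - (v' - v)‖ ≤ 2 * (η * M) := by
      have h5 := norm_sub_le (u' - u) (v' - v)
      have h8 : 0 ≤ η * (‖α‖ + ‖β‖ + ‖α * β‖) := by positivity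
      rw [hM]
      nlinarith
    have b4 : ‖(v' - v) * α - (u' - u) * β‖ ≤ η * M := by
      have := norm_sub_le ((v' - v) * α) ((u' - u) * β)
      rw [norm_mul, norm_mul] at this
      have h5 := mul_le_mul_of_nonneg_right hv'' (norm_nonneg α)
      have h6 := mul_le_mul_of_nonneg_right hu'' (norm_nonneg β)
      have h7 : 0 ≤ η * (‖α * β‖ + 1) := by positivity
      rw [hM]
      nlinarith
    refine ⟨α, β, u', v', hαβ, hv', by rw [hu']; exact hv3, ?_, ?_, ?_, ?_⟩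
    · have e1 : (u' * α - v' * β) - a = (u' - u) * α - (v' - v) * β := by
        rw [← h1]; ring
      rw [e1]
      have : 0 < η * M := by positivity
      linarith
    · have e1 : α * β * (v' - u') - b = α * β * ((v' - v) - (u' - u)) + (b₁ - b) := by
        rw [← h2]; ring
      rw [e1]
      have := norm_add_le (α * β * ((v' - v) - (u' - u))) (b₁ - b)
      have : 0 < η * M := by positivity
      linarith
    · have e1 : (u' - v') - c = ((u' - u) - (v' - v)) + (c₁ - c) := by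
        rw [← h3]; ring
      rw [e1]
      have := norm_add_le ((u' - u) - (v' - v)) (c₁ - c)
      have : 0 < η * M := by positivity
      linarith
    · have e1 : (v' * α - u' * β) - e = (v' - v) * α - (u' - u) * β := by
        rw [← h4]; ring
      rw [e1]
      have : 0 < η * M := by positivity
      linarith
  set α : ℂ := (a - e + s) / (2 * c₁) with hα
  set β : ℂ := (a - e - s) / (2 * c₁) with hβ
  set u : ℂ := (c₁ + (a + e) * c₁ / s) / 2 with hu
  set v : ℂ := ((a + e) * c₁ / s - c₁) / 2 with hv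
  have hαβ : α ≠ β := by
    intro h
    apply hs0
    have h1 : α - β = s / c₁ := by
      rw [hα, hβ]; field_simp; ring
    rw [h, sub_self] at h1
    rcases div_eq_zero_iff.1 h1.symm with h2 | h2
    · exact h2
    · exact absurd h2 hc₁
  have e1 : u * α - v * β = a := by
    rw [hu, hv, hα, hβ]; field_simp; ring
  have e2 : α * β * (v - u) = b₁ := by
    have h1 : α * β * (v - u) = ((e - a) ^ 2 - s ^ 2) / (-(4 * c₁)) := by
      rw [hu, hv, hα, hβ]; field_simp; ring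
    rw [h1, hs]
    field_simp
    ring
  have e3 : u - v = c₁ := by
    rw [hu, hv]; ring
  have e4 : v * α - u * β = e := by
    rw [hu, hv, hα, hβ]; field_simp; ring
  rcases le_total ‖v‖ ‖u‖ with huv | huv
  · exact key α β u v hαβ huv e1 e2 e3 e4
  · refine key β α (-v) (-u) (Ne.symm hαβ) (by rwa [norm_neg, norm_neg]) ?_ ?_ ?_ ?_
    · rw [← e1]; ring
    · rw [← e2]; ring
    · rw [← e3]; ring
    · rw [← e4]; ring

/-- the boundary of the space of quadratic rational maps -/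
theorem boundary_two {P Q : ℂ[X]} (hP : P.natDegree ≤ 2) (hQ : Q.natDegree ≤ 2)
    (h : ¬ (IsCoprime P Q ∧ max P.natDegree Q.natDegree = 2)) :
    ∃ (H : ℂ[X]) (a b c e : ℂ), H.natDegree ≤ 1 ∧ P = H * (C a * X + C b) ∧
      Q = H * (C c * X + C e) := by
  have hlin : ∀ R : ℂ[X], R.natDegree ≤ 1 → R = C (R.coeff 1) * X + C (R.coeff 0) := fun R hR =>
    eq_X_add_C_of_natDegree_le_one hR
  by_cases h1 : max P.natDegree Q.natDegree ≤ 1
  · obtain ⟨h2, h3⟩ := max_le_iff.1 h1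
    refine ⟨1, P.coeff 1, P.coeff 0, Q.coeff 1, Q.coeff 0, by simp, ?_, ?_⟩
    · rw [one_mul]; exact hlin P h2
    · rw [one_mul]; exact hlin Q h3
  · have h2 : max P.natDegree Q.natDegree = 2 := by
      have := max_le hP hQ
      omega
    have h3 : ¬ IsCoprime P Q := fun h3 => h ⟨h3, h2⟩
    rw [isCoprime_iff_aeval_ne_zero_of_isAlgClosed ℂ ℂ] at h3
    push Not at h3
    obtain ⟨z, hz1, hz2⟩ := h3
    rw [coe_aeval_eq_eval] at hz1 hz2
    obtain ⟨P₁, hP₁⟩ := dvd_iff_isRoot.2 hz1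
    obtain ⟨Q₁, hQ₁⟩ := dvd_iff_isRoot.2 hz2
    have hdeg : ∀ R R₁ : ℂ[X], R.natDegree ≤ 2 → R = (X - C z) * R₁ → R₁.natDegree ≤ 1 := by
      intro R R₁ hR hR₁
      by_cases h0 : R₁ = 0
      · rw [h0, natDegree_zero]; omega
      · rw [hR₁, natDegree_mul (X_sub_C_ne_zero z) h0, natDegree_X_sub_C] at hR
        omega
    refine ⟨X - C z, P₁.coeff 1, P₁.coeff 0, Q₁.coeff 1, Q₁.coeff 0,
      (natDegree_X_sub_C z).le, ?_, ?_⟩
    · rw [← hlin P₁ (hdeg P P₁ hP hP₁)]; exact hP₁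
    · rw [← hlin Q₁ (hdeg Q Q₁ hQ hQ₁)]; exact hQ₁

end Pool.Agent.R239.Fat
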