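import Mathlib
import Pool.Agent.R239.Fat.T18
import Pool.Agent.H790R3.RB.TCJ

/-! Normalisation and the boundary theorem. -/

set_option autoImplicit false

open Topology Filter Metric Set Polynomial
open scoped OnePoint
open Pool.Agent.H790R3.RB (CV hF ND sp pol hc pr)
open Pool.Agent.H790R3.RB.SP (pr_zero pr_ne pr_eq_iff pr_hc sp_pr sp_cont)
open Pool.Agent.H790R3.RB.PQ (part1 sp_eval pol_natDegree pol_coeff pol_coeff_gt)

namespace Pool.Agent.R239.Fat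

theorem cj_conj {d : ℕ} {cj : (ℂ × ℂ) × (ℂ × ℂ) → CV d → CV d}
    (hcj : ∀ (m : (ℂ × ℂ) × (ℂ × ℂ)) (x : CV d) (p : ℂ × ℂ),
      hF (cj m x) p =
        (m.1.1 * (hF x (m.2.2 * p.1 - m.1.2 * p.2, m.1.1 * p.2 - m.2.1 * p.1)).1 +
            m.1.2 * (hF x (m.2.2 * p.1 - m.1.2 * p.2, m.1.1 * p.2 - m.2.1 * p.1)).2,
         m.2.1 * (hF x (m.2.2 * p.1 - m.1.2 * p.2, m.1.1 * p.2 - m.2.1 * p.1)).1 +
            m.2.2 * (hF x (m.2.2 * p.1 - m.1.2 * p.2, m.1.1 * p.2 - m.2.1 * p.1)).2))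
    {a b c e : ℂ} (hm : a * e - b * c ≠ 0) {x : CV d} (hx : ND x) :
    ND (cj ((a, b), (c, e)) x) ∧ sp (cj ((a, b), (c, e)) x) =
      fun s => mobH a b c e hm (sp x ((mobH a b c e hm).symm s)) := by
  have hm' : e * a - (-b) * (-c) ≠ 0 := by intro h0; exact hm (by linear_combination h0)
  have hnd : ND (cj ((a, b), (c, e)) x) := by
    intro p hp
    by_contra hne
    have h1 := lin_ne hm' hne
    have h2 : hF x (e * p.1 - b * p.2, a * p.2 - c * p.1) ≠ 0 := by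
      intro h0
      apply h1
      have h3 := hx _ h0
      refine Prod.ext ?_ ?_
      · have := congrArg Prod.fst h3
        simp only [Prod.fst_zero] at this
        show e * p.1 + -b * p.2 = 0
        linear_combination this
      · have := congrArg Prod.snd h3
        simp only [Prod.snd_zero] at this
        show -c * p.1 + a * p.2 = 0
        linear_combination this
    have h4 := lin_ne hm h2
    rw [hcj] at hp
    exact h4 hp
  refine ⟨hnd, ?_⟩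
  funext s
  obtain ⟨p, hp, rfl⟩ := exists_pr s
  have h1 := lin_ne hm' hp
  have e1 : ((e * p.1 + -b * p.2, -c * p.1 + a * p.2) : ℂ × ℂ) =
      (e * p.1 - b * p.2, a * p.2 - c * p.1) := by
    refine Prod.ext ?_ ?_
    · show e * p.1 + -b * p.2 = e * p.1 - b * p.2
      ring
    · show -c * p.1 + a * p.2 = a * p.2 - c * p.1
      ring
  show sp (cj ((a, b), (c, e)) x) (pr p) = mob a b c e (sp x (mob e (-b) (-c) a (pr p)))
  rw [sp_pr hnd hp, hcj, mob_pr hm' hp, e1]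
  rw [e1] at h1
  have h2 : hF x (e * p.1 - b * p.2, a * p.2 - c * p.1) ≠ 0 := fun h0 => h1 (hx _ h0)
  rw [sp_pr hx h1, mob_pr hm h2]

/-- we may assume that `∞` is attracted -/
theorem normalise {d : ℕ} (hd : 1 ≤ d) {y : CV d} {A : Set Sph} (hB : Base y A) {ε : ℝ}
    (hε : 0 < ε) : ∃ (y' : CV d) (A' : Set Sph), Base y' A' ∧ AttBy (sp y') A' ∞ ∧
      ∀ i j, ‖y' (i, j) - y (i, j)‖ < ε := by
  obtain ⟨cj, hc1, -, -, hc4, hc5⟩ := Pool.Agent.H790R3.RB.CJ d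
  have hBo : IsOpen {z | AttBy (sp y) A z} := attBy_open (hol_sp hd hB.nd).cont hB.fin hB.maps hB.snk
  have hcont : Continuous fun s : ℂ => cj ((1, 0), (s, 1)) y := by
    have h1 : Continuous fun s : ℂ => ((((1 : ℂ), (0 : ℂ)), (s, (1 : ℂ))), y) := by fun_prop
    exact hc1.continuous.comp h1
  have h0 : ∀ᶠ s : ℂ in 𝓝 0, ∀ r, ‖cj ((1, 0), (s, 1)) y r - y r‖ < ε := by
    rw [eventually_all]
    intro r
    have h1 : Continuous fun s : ℂ => ‖cj ((1, 0), (s, 1)) y r - y r‖ :=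
      (((continuous_apply r).comp hcont).sub continuous_const).norm
    have h2 : ‖cj ((1, 0), (0, 1)) y r - y r‖ < ε := by
      rw [hc4, sub_self, norm_zero]; exact hε
    exact h1.continuousAt.eventually (gt_mem_nhds h2)
  obtain ⟨δ, hδ, h0⟩ := Metric.eventually_nhds_iff.1 h0
  obtain ⟨b, hb1, hb2⟩ : ∃ b : ℂ, AttBy (sp y) A (b : Sph) ∧ 1 / δ < ‖b‖ := by
    have h1 : Dense {z : ℂ | (z : Sph) ∈ {z | AttBy (sp y) A z}} :=
      Dense.preimage hB.dense OnePoint.isOpenEmbedding_coe.isOpenMap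
    have h2 : IsOpen {z : ℂ | 1 / δ < ‖z‖} := isOpen_lt continuous_const continuous_norm
    have h3 : ({z : ℂ | 1 / δ < ‖z‖}).Nonempty := by
      refine ⟨((1 / δ + 1 : ℝ) : ℂ), ?_⟩
      show 1 / δ < ‖((1 / δ + 1 : ℝ) : ℂ)‖
      rw [Complex.norm_real, Real.norm_eq_abs, abs_of_pos (by positivity)]
      linarith
    obtain ⟨b, hb, hb'⟩ := h1.inter_open_nonempty _ h2 h3
    exact ⟨b, hb', hb⟩
  have hb0 : 0 < ‖b‖ := lt_trans (by positivity) hb2
  have hb0' : b ≠ 0 := norm_pos_iff.1 hb0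
  have hdet : (1 : ℂ) * 1 - 0 * (-b⁻¹) ≠ 0 := by simp
  obtain ⟨h1, h2⟩ := cj_conj hc5 hdet hB.nd
  have hBG : BaseG (sp y) A := ⟨hB.fin, hB.maps, hB.snk, hB.crit, hB.dense⟩
  have hBG' := hBG.conj (mobH 1 0 (-b⁻¹) 1 hdet)
  have hinf := hb1.conj (mobH 1 0 (-b⁻¹) 1 hdet)
  have hval : mobH 1 0 (-b⁻¹) 1 hdet (b : Sph) = ∞ := by
    show mob 1 0 (-b⁻¹) 1 (b : Sph) = ∞
    refine mob_coe_inf hdet ?_
    rw [neg_mul, inv_mul_cancel₀ hb0', neg_add_cancel]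
  rw [hval] at hinf
  rw [← h2] at hBG' hinf
  refine ⟨_, _, ⟨h1, hBG'.fin, hBG'.maps, hBG'.snk, hBG'.crit, hBG'.dense⟩, hinf, fun i j => ?_⟩
  refine h0 ?_ (i, j)
  rw [dist_zero_right, norm_neg, norm_inv]
  rw [one_div] at hb2
  exact inv_lt_of_inv_lt₀ hδ hb2

/-- degenerate pairs with a neighbourhood of hyperbolic maps are dense near `H * y` -/
theorem boundary_gen {d m : ℕ} (hd : 1 ≤ d) {y : CV d} {A : Set Sph} (hB : Base y A)
    {H : ℂ[X]} (hH : H.natDegree ≤ m) {ε : ℝ} (hε : 0 < ε) :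
    ∃ P₀ Q₀ : ℂ[X], P₀.natDegree ≤ m + d ∧ Q₀.natDegree ≤ m + d ∧
      (∀ i, ‖P₀.coeff i - (H * pol y 0).coeff i‖ < ε ∧ ‖Q₀.coeff i - (H * pol y 1).coeff i‖ < ε) ∧
      (∃ K : ℂ[X], K.natDegree = m ∧ K ∣ P₀ ∧ K ∣ Q₀) ∧ GoodPt (m + d) P₀ Q₀ := by
  set S : ℝ := ∑ j ∈ H.support, ‖H.coeff j‖ with hS
  have hS0 : 0 ≤ S := Finset.sum_nonneg fun _ _ => norm_nonneg _
  set η : ℝ := ε / (2 * (S + 1)) with hη
  have hη0 : 0 < η := by positivity
  have hηS : η * S < ε / 2 := by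
    rw [hη, div_mul_eq_mul_div, div_lt_iff₀ (by positivity)]
    nlinarith
  obtain ⟨y', A', hB', hinf, hcl⟩ := normalise hd hB hη0
  obtain ⟨P₀, Q₀, h1, h2, h3, h4, h5⟩ := boundary_inf hd hB' hinf hH (half_pos hε)
  have hc : ∀ i j, ‖(pol y' i).coeff j - (pol y i).coeff j‖ ≤ η := by
    intro i j
    by_cases hj : j ≤ d
    · have e1 := pol_coeff y' i ⟨j, by omega⟩
      have e2 := pol_coeff y i ⟨j, by omega⟩
      simp only at e1 e2
      rw [e1, e2]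
      exact (hcl i _).le
    · rw [pol_coeff_gt y' i j (by omega), pol_coeff_gt y i j (by omega), sub_self, norm_zero]
      exact hη0.le
  have key : ∀ (R₀ : ℂ[X]) (i : Fin 2) (j : ℕ), ‖R₀.coeff j - (H * pol y' i).coeff j‖ < ε / 2 →
      ‖R₀.coeff j - (H * pol y i).coeff j‖ < ε := by
    intro R₀ i j hR
    have h6 := mul_close (P := H) (hc i) hη0.le j
    rw [mul_comm (pol y' i), mul_comm (pol y i)] at h6
    have h7 : R₀.coeff j - (H * pol y i).coeff j = (R₀.coeff j - (H * pol y' i).coeff j) +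
        ((H * pol y' i).coeff j - (H * pol y i).coeff j) := by ring
    rw [h7]
    refine (norm_add_le _ _).trans_lt ?_
    linarith
  exact ⟨P₀, Q₀, h1, h2, fun i => ⟨key _ 0 i (h3 i).1, key _ 1 i (h3 i).2⟩, h4, h5⟩

/-- the same for reductions of degree at most one -/
theorem boundary_lin {m : ℕ} (a b c e : ℂ) {H : ℂ[X]} (hH : H.natDegree ≤ m) {ε : ℝ}
    (hε : 0 < ε) :
    ∃ P₀ Q₀ : ℂ[X], P₀.natDegree ≤ m + 1 ∧ Q₀.natDegree ≤ m + 1 ∧
      (∀ i, ‖P₀.coeff i - (H * (C a * X + C b)).coeff i‖ < ε ∧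
        ‖Q₀.coeff i - (H * (C c * X + C e)).coeff i‖ < ε) ∧
      (∃ K : ℂ[X], K.natDegree = m ∧ K ∣ P₀ ∧ K ∣ Q₀) ∧ GoodPt (m + 1) P₀ Q₀ := by
  set S : ℝ := ∑ j ∈ H.support, ‖H.coeff j‖ with hS
  have hS0 : 0 ≤ S := Finset.sum_nonneg fun _ _ => norm_nonneg _
  set η : ℝ := ε / (2 * (S + 1)) with hη
  have hη0 : 0 < η := by positivity
  have hηS : η * S < ε / 2 := by
    rw [hη, div_mul_eq_mul_div, div_lt_iff₀ (by positivity)]
    nlinarith
  obtain ⟨α, β, u, v, hαβ, hv, huv, ha, hb, hc, he⟩ := approx_lin a b c e hη0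
  obtain ⟨A, hB, hinf⟩ := base_lin hαβ hv huv
  obtain ⟨P₀, Q₀, h1, h2, h3, h4, h5⟩ := boundary_inf le_rfl hB hinf hH (half_pos hε)
  obtain ⟨hp0, hp1⟩ := pol_mkv (lin_natDegree (u * α - v * β) (α * β * (v - u)))
    (lin_natDegree (u - v) (v * α - u * β))
  have hlin : ∀ r s r' s' : ℂ, ‖r - r'‖ < η → ‖s - s'‖ < η → ∀ j,
      ‖(C r * X + C s : ℂ[X]).coeff j - (C r' * X + C s' : ℂ[X]).coeff j‖ ≤ η := by
    intro r s r' s' hr hs j
    have e1 : (C r * X + C s : ℂ[X]).coeff j - (C r' * X + C s' : ℂ[X]).coeff j =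
        (C (r - r') * X + C (s - s') : ℂ[X]).coeff j := by
      rw [← coeff_sub]
      congr 1
      rw [C_sub, C_sub]
      ring
    rw [e1, coeff_add, coeff_C_mul, coeff_X, coeff_C]
    split_ifs with h6 h7 h7
    · omega
    · rw [mul_one, add_zero]; exact hr.le
    · rw [mul_zero, zero_add]; exact hs.le
    · rw [mul_zero, zero_add, norm_zero]; exact hη0.le
  have key : ∀ (R₀ L L' : ℂ[X]) (j : ℕ), (∀ j, ‖L.coeff j - L'.coeff j‖ ≤ η) →
      ‖R₀.coeff j - (H * L).coeff j‖ < ε / 2 → ‖R₀.coeff j - (H * L').coeff j‖ < ε := by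
    intro R₀ L L' j hL hR
    have h6 := mul_close (P := H) hL hη0.le j
    rw [mul_comm L, mul_comm L'] at h6
    have h7 : R₀.coeff j - (H * L').coeff j = (R₀.coeff j - (H * L).coeff j) +
        ((H * L).coeff j - (H * L').coeff j) := by ring
    rw [h7]
    refine (norm_add_le _ _).trans_lt ?_
    linarith
  rw [hp0, hp1] at h3
  exact ⟨P₀, Q₀, h1, h2, fun i => ⟨key _ _ _ i (hlin _ _ _ _ ha hb) (h3 i).1,
    key _ _ _ i (hlin _ _ _ _ hc he) (h3 i).2⟩, h4, h5⟩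

end Pool.Agent.R239.Fat
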